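import Pool.Agent.W263.BSD.Defs

/-! Definitions: Riesz means of the sums of Mestre and Nagao. -/

set_option autoImplicit false

namespace Pool.Agent.W263.MN

open Pool.Agent.W263.BSD

/-- `a_p = p - N_p` for the curve `y² = x³ + a x + b`, where `N_p` is the number of affine points mod `p`. -/
noncomputable def aP (a b : ℤ) (p : ℕ) : ℝ := (p : ℝ) - pointCount a b p

/-- `α_p^j + β_p^j`, where `α_p + β_p = a_p` and `α_p β_p = p`. -/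
noncomputable def powerSum (a b : ℤ) (p : ℕ) : ℕ → ℝ
  | 0 => 2
  | 1 => aP a b p
  | j + 2 => aP a b p * powerSum a b p (j + 1) - p * powerSum a b p j

/-- `A_k(x) = ∑_{p ≤ x, p ∤ 2Δ} (1 - log p / log x)^k a_p log p / p`.  For `k = 0` it is the sum of Mestre
and Nagao, and `A_1(x) = (log x)⁻¹ ∫_1^x A_0(t) dt/t`. -/
noncomputable def primeMean (a b : ℤ) (k : ℕ) (x : ℝ) : ℝ :=
  ∑ᶠ p ∈ {p : ℕ | GoodPrime a b p ∧ (p : ℝ) ≤ x},
    (1 - Real.log p / Real.log x) ^ k * (aP a b p * Real.log p / p)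

/-- `Ψ_k(x) = ∑_{p^j ≤ x, p ∤ 2Δ, j ≥ 1} (1 - log p^j / log x)^k (α_p^j + β_p^j) log p / p^j`. -/
noncomputable def primePowerMean (a b : ℤ) (k : ℕ) (x : ℝ) : ℝ :=
  ∑ᶠ q ∈ {q : ℕ × ℕ | GoodPrime a b q.1 ∧ 1 ≤ q.2 ∧ (q.1 : ℝ) ^ q.2 ≤ x},
    (1 - Real.log ((q.1 : ℝ) ^ q.2) / Real.log x) ^ k *
      (powerSum a b q.1 q.2 * Real.log q.1 / (q.1 : ℝ) ^ q.2)

end Pool.Agent.W263.MN
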