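import Pool.Agent.W263.MN.Main
import Pool.Agent.W263.MN.EQDefs
import Pool.Agent.W263.EP.Ab
import Pool.Agent.W263.EP.Fg
import Pool.Agent.W263.BSD.Curve

/-! Elliptic curves over `ℚ`. -/

set_option autoImplicit false

namespace Pool.Agent.W263.MN

open MeasureTheory Filter Topology Set Classical
open Pool.Agent.W263.BSD (pointCount GoodPrime IsLSeries)
open Pool.Agent.W263.EP
open Pool.Agent.H341R2 (NormSys)

variable {a b : ℤ}

theorem count3 : ∀ a b : ZMod 3, a ≠ 0 →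
    (Finset.univ.filter (fun q : ZMod 3 × ZMod 3 => q.2 ^ 2 = q.1 ^ 3 + a * q.1 + b)).card ≤ 6 := by
  decide

theorem hasseP {p : ℕ} (h : GoodPrime a b p) : |aP a b p| ≤ 2 * √(p : ℝ) := by
  by_cases h5 : 5 ≤ p
  · exact Pool.Agent.W263.BSD.hasse h h5
  · have hp := h.1
    have h2 : p ≠ 2 := by
      rintro rfl
      exact h.2 (Dvd.intro _ rfl)
    have h3 : p = 3 := by
      have := hp.two_le
      interval_cases p
      · exact absurd rfl h2
      · rfl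
      · exact absurd hp (by norm_num)
    subst h3
    have ha : ((a : ℤ) : ZMod 3) ≠ 0 := by
      intro h0
      rw [ZMod.intCast_zmod_eq_zero_iff_dvd] at h0
      apply h.2
      obtain ⟨c, hc⟩ := h0
      refine ⟨2 * (-4 * 9 * c ^ 3 - 9 * b ^ 2), ?_⟩
      rw [hc]; push_cast; ring
    have h4 : pointCount a b 3 ≤ 6 := by
      unfold pointCount
      rw [Nat.card_eq_fintype_card, Fintype.card_subtype]
      exact count3 _ _ ha
    have h5 : (pointCount a b 3 : ℝ) ≤ 6 := by exact_mod_cast h4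
    have h6 : (0 : ℝ) ≤ pointCount a b 3 := Nat.cast_nonneg _
    unfold aP
    push_cast
    have h7 : (3 : ℝ) / 2 ≤ √3 := by
      rw [Real.le_sqrt (by norm_num) (by norm_num)]; norm_num
    rw [abs_le]
    constructor <;> linarith

theorem bad_finite (hΔ : 4 * a ^ 3 + 27 * b ^ 2 ≠ 0) :
    {p : Nat.Primes | ¬ GoodPrime a b (p : ℕ)}.Finite := by
  have h0 : 2 * (-4 * a ^ 3 - 27 * b ^ 2) ≠ 0 := by
    intro h
    apply hΔ
    linarith
  have h1 : {n : ℕ | n ∣ (2 * (-4 * a ^ 3 - 27 * b ^ 2)).natAbs}.Finite := by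
    have h2 : (2 * (-4 * a ^ 3 - 27 * b ^ 2)).natAbs ≠ 0 := Int.natAbs_ne_zero.mpr h0
    refine (Set.finite_Iic (2 * (-4 * a ^ 3 - 27 * b ^ 2)).natAbs).subset fun n hn => ?_
    exact Nat.le_of_dvd (Nat.pos_of_ne_zero h2) hn
  refine Set.Finite.of_finite_image (f := fun p : Nat.Primes => (p : ℕ)) (h1.subset ?_)
    (Nat.Primes.coe_nat_injective.injOn)
  rintro n ⟨p, hp, rfl⟩
  have hp' : ¬ GoodPrime a b (p : ℕ) := hp
  have h2 : ((p : ℕ) : ℤ) ∣ 2 * (-4 * a ^ 3 - 27 * b ^ 2) := by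
    by_contra h
    exact hp' ⟨p.2, h⟩
  exact Int.natCast_dvd.mp h2

/-- the family of traces -/
noncomputable def AA (a b : ℤ) (p : Nat.Primes) (_ : Fin 1) : ℝ := aP a b p

theorem sm_zero (A q : ℝ) : sm A q 0 = 2 := by
  unfold sm
  simp

theorem sm_one (A q : ℝ) : sm A q 1 = A := by
  unfold sm al
  rw [pow_one]
  simp only []
  ring

theorem sm_rec {A q : ℝ} (h : A ^ 2 ≤ 4 * q) (m : ℕ) :
    sm A q (m + 2) = A * sm A q (m + 1) - q * sm A q m := by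
  have h1 : ((sm A q (m + 2) : ℝ) : ℂ) = ((A * sm A q (m + 1) - q * sm A q m : ℝ) : ℂ) := by
    rw [sm_eq]
    push_cast
    rw [sm_eq, sm_eq]
    have e1 : al A q + starRingEnd ℂ (al A q) = A := by
      rw [Complex.add_conj]
      unfold al
      push_cast
      ring
    have e2 : al A q * starRingEnd ℂ (al A q) = q := by
      rw [Complex.mul_conj, al_normSq h]
    linear_combination (al A q ^ (m + 1) + starRingEnd ℂ (al A q) ^ (m + 1)) * e1 -
      (al A q ^ m + starRingEnd ℂ (al A q) ^ m) * e2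
  exact Complex.ofReal_injective h1

theorem powerSum_eq {p : ℕ} (h : GoodPrime a b p) :
    ∀ m : ℕ, sm (aP a b p) p m = powerSum a b p m ∧
      sm (aP a b p) p (m + 1) = powerSum a b p (m + 1) := by
  have hsq : aP a b p ^ 2 ≤ 4 * (p : ℝ) := sqY (Nat.cast_nonneg p) (hasseP h)
  intro m
  induction m with
  | zero => exact ⟨by rw [sm_zero]; rfl, by rw [sm_one]; rfl⟩
  | succ m ih =>
    refine ⟨ih.2, ?_⟩
    rw [sm_rec hsq, ih.1, ih.2]
    rfl

theorem abTr_eq {p : Nat.Primes} (h : GoodPrime a b (p : ℕ)) (m : ℕ) :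
    abTr (AA a b) p m = powerSum a b (p : ℕ) m := by
  unfold abTr AA
  rw [Finset.sum_const, Finset.card_univ, Fintype.card_fin, one_smul]
  exact (powerSum_eq h m).1

section Conv

variable {Bs : Finset Nat.Primes} (hBs : ∀ p : Nat.Primes, p ∈ Bs ↔ ¬ GoodPrime a b (p : ℕ))

include hBs

theorem eq_tdata : TData sysQ (tn sysQ (Bs : Set Nat.Primes) (abTr (AA a b)) 1) (2 * (1 : ℕ)) :=
  ab_tdata (AA a b) Bs fun p hp _ => by
    have : GoodPrime a b (p : ℕ) := by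
      by_contra h
      exact hp ((hBs p).mpr h)
    exact hasseP this

omit hBs in
theorem ZK_Q (Bs : Set Nat.Primes) (tr : Nat.Primes → ℕ → ℝ) (k : ℕ) (x : ℝ) :
    ZK sysQ Bs tr 1 k x =
      ∑ᶠ p ∈ {p : Nat.Primes × ℕ | p.1 ∉ Bs ∧ (((p.1 : ℕ)) : ℝ) ^ (p.2 + 1) ≤ x},
        (1 - ((p.2 : ℝ) + 1) * Real.log ((p.1 : ℕ) : ℝ) / Real.log x) ^ k *
          (tr p.1 (p.2 + 1) * Real.log ((p.1 : ℕ) : ℝ) *
            ((p.1 : ℕ) : ℝ) ^ (-(((p.2 : ℝ) + 1) * ((1 + 1) / 2)))) := rfl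

omit hBs in
theorem SK_Q (Bs : Set Nat.Primes) (tr : Nat.Primes → ℕ → ℝ) (k : ℕ) (x : ℝ) :
    SK sysQ Bs tr 1 k x =
      ∑ᶠ p ∈ {p : Nat.Primes | p ∉ Bs ∧ ((p : ℕ) : ℝ) ≤ x},
        (1 - Real.log ((p : ℕ) : ℝ) / Real.log x) ^ k *
          (tr p 1 * Real.log ((p : ℕ) : ℝ) * ((p : ℕ) : ℝ) ^ (-(((1 : ℝ) + 1) / 2))) := rfl

theorem ZK_EQ (k : ℕ) (x : ℝ) :
    ZK sysQ (Bs : Set Nat.Primes) (abTr (AA a b)) 1 k x = primePowerMean a b k x := by
  rw [ZK_Q]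
  unfold primePowerMean
  refine finsum_mem_eq_of_bijOn (fun p : Nat.Primes × ℕ => ((p.1 : ℕ), p.2 + 1)) ⟨?_, ?_, ?_⟩ ?_
  · rintro ⟨p, m⟩ ⟨h1, h2⟩
    refine ⟨?_, Nat.succ_le_succ (Nat.zero_le m), h2⟩
    by_contra h
    exact h1 ((hBs p).mpr h)
  · rintro ⟨p, m⟩ _ ⟨p', m'⟩ _ h
    have h1 : (p : ℕ) = (p' : ℕ) := congrArg Prod.fst h
    have h2 : m + 1 = m' + 1 := congrArg Prod.snd h
    have h3 : p = p' := Nat.Primes.coe_nat_injective h1
    have h4 : m = m' := by omega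
    rw [h3, h4]
  · rintro ⟨n, j⟩ ⟨h1, h2, h3⟩
    refine ⟨(⟨n, h1.1⟩, j - 1), ⟨?_, ?_⟩, ?_⟩
    · intro h
      exact (hBs _).mp h h1
    · have e : j - 1 + 1 = j := by omega
      show ((n : ℕ) : ℝ) ^ (j - 1 + 1) ≤ x
      rw [e]
      exact h3
    · have e : j - 1 + 1 = j := by omega
      simp only [e]
  · rintro ⟨p, m⟩ ⟨h1, h2⟩
    have hg : GoodPrime a b (p : ℕ) := by
      by_contra h
      exact h1 ((hBs p).mpr h)
    simp only []
    rw [abTr_eq hg, Real.log_pow]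
    have e1 : (((p : ℕ) : ℝ)) ^ (-(((m : ℝ) + 1) * ((1 + 1) / 2))) = (((p : ℕ) : ℝ) ^ (m + 1))⁻¹ := by
      rw [← Real.rpow_natCast, ← Real.rpow_neg (Nat.cast_nonneg _)]
      congr 1
      push_cast
      ring
    rw [e1]
    push_cast
    ring

theorem SK_EQ (k : ℕ) (x : ℝ) :
    SK sysQ (Bs : Set Nat.Primes) (abTr (AA a b)) 1 k x = primeMean a b k x := by
  rw [SK_Q]
  unfold primeMean
  refine finsum_mem_eq_of_bijOn (fun p : Nat.Primes => (p : ℕ)) ⟨?_, ?_, ?_⟩ ?_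
  · rintro p ⟨h1, h2⟩
    refine ⟨?_, h2⟩
    by_contra h
    exact h1 ((hBs p).mpr h)
  · exact Nat.Primes.coe_nat_injective.injOn
  · rintro n ⟨h1, h2⟩
    exact ⟨⟨n, h1.1⟩, ⟨fun h => (hBs _).mp h h1, h2⟩, rfl⟩
  · rintro p ⟨h1, h2⟩
    have hg : GoodPrime a b (p : ℕ) := by
      by_contra h
      exact h1 ((hBs p).mpr h)
    rw [abTr_eq hg]
    have e1 : (((p : ℕ) : ℝ)) ^ (-(((1 : ℝ) + 1) / 2)) = ((p : ℕ) : ℝ)⁻¹ := by
      norm_num
      rw [Real.rpow_neg_one]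
    rw [e1]
    have e3 : powerSum a b (p : ℕ) 1 = aP a b p := rfl
    rw [e3]
    ring

theorem LFB_EQ {F : ℂ → ℂ} (hF : IsLSeries a b F) {s : ℂ} (hs : 3 / 2 < s.re) :
    F s = LFB sysQ Bs (fun _ => 1) (abTr (AA a b)) s := by
  have h1 := hF.2 s hs
  have hinj : Function.Injective (fun p : Nat.Primes => (p : ℕ)) := Nat.Primes.coe_nat_injective
  rw [← hinj.hasProd_iff (fun n hn => if_neg fun hg => hn ⟨⟨n, hg.1⟩, rfl⟩)] at h1
  rw [← h1.tprod_eq]
  unfold LFB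
  refine tprod_congr fun p => ?_
  simp only [Function.comp]
  by_cases hp : p ∈ Bs
  · rw [if_neg ((hBs p).mp hp)]
    refine Eq.trans ?_ (if_pos hp).symm
    simp
  · have hg : GoodPrime a b (p : ℕ) := by
      by_contra h
      exact hp ((hBs p).mpr h)
    rw [if_pos hg]
    refine Eq.trans ?_ (if_neg hp).symm
    have h2 := ab_factor (AA a b) (p := p) (fun _ => hasseP hg) (s := s) (by linarith)
    refine Eq.trans ?_ h2.symm
    refine Eq.trans ?_ (Fin.prod_univ_one _).symm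
    congr 1
    have hp0 : ((p : ℕ) : ℂ) ≠ 0 := by exact_mod_cast p.2.ne_zero
    have e3 : ((p : ℕ) : ℂ) ^ (1 - 2 * s) = ((p : ℕ) : ℂ) * (((p : ℕ) : ℂ) ^ (-s)) ^ 2 := by
      rw [sub_eq_add_neg, Complex.cpow_add _ _ hp0, Complex.cpow_one, ← Complex.cpow_nat_mul]
      congr 2
      push_cast
      ring
    rw [e3]
    unfold AA aP
    push_cast
    ring

end Conv

end Pool.Agent.W263.MN
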