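import Mathlib

/-! Growth of logarithmic derivatives of zero-free functions (Borel-Caratheodory). -/

set_option autoImplicit false

namespace Pool.Agent.W263.MN

open Filter Topology Set Metric

/-- logarithm of a zero-free function on a disc -/
theorem exists_log {G : ℂ → ℂ} {s0 : ℂ} {R : ℝ} (hR : 0 < R)
    (hd : ∀ s ∈ ball s0 R, DifferentiableAt ℂ G s) (hne : ∀ s ∈ ball s0 R, G s ≠ 0) :
    ∃ f : ℂ → ℂ, f s0 = 0 ∧ (∀ s ∈ ball s0 R, HasDerivAt f (deriv G s / G s) s) ∧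
      ∀ s ∈ ball s0 R, G s = G s0 * Complex.exp (f s) := by
  have hG : DifferentiableOn ℂ G (ball s0 R) := fun s hs => (hd s hs).differentiableWithinAt
  have hq : DifferentiableOn ℂ (fun s => deriv G s / G s) (ball s0 R) :=
    (hG.deriv isOpen_ball).div hG hne
  obtain ⟨f, hf0, hf⟩ := (hq.isExactOn_ball).with_val_at s0 0
  refine ⟨f, hf0, hf, ?_⟩
  have h1 : ∀ s ∈ ball s0 R, HasDerivAt (fun s => G s * Complex.exp (-f s)) 0 s := by
    intro s hs
    have h2 := (hd s hs).hasDerivAt.mul ((hf s hs).fun_neg.cexp)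
    refine h2.congr_deriv ?_
    have := hne s hs
    field_simp
    ring
  have h0 : s0 ∈ ball s0 R := mem_ball_self hR
  intro s hs
  have h3 := (convex_ball s0 R).is_const_of_fderivWithin_eq_zero (𝕜 := ℂ)
    (f := fun s => G s * Complex.exp (-f s))
    (fun t ht => (h1 t ht).differentiableAt.differentiableWithinAt) (fun t ht => by
      rw [fderivWithin_of_isOpen isOpen_ball ht]
      have := (h1 t ht).hasFDerivAt.fderiv
      rw [this]
      ext
      simp) hs h0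
  simp only [hf0, neg_zero, Complex.exp_zero, mul_one] at h3
  rw [← h3, mul_assoc, ← Complex.exp_add, neg_add_cancel, Complex.exp_zero, mul_one]

/-- bound of the logarithmic derivative in a disc -/
theorem bc_point {G : ℂ → ℂ} {s0 s : ℂ} {σ M : ℝ} (hσ : 0 < σ) (hσ1 : σ ≤ 1) (hM : 0 < M)
    (hd : ∀ s ∈ ball s0 2, DifferentiableAt ℂ G s) (hne : ∀ s ∈ ball s0 2, G s ≠ 0)
    (hup : ∀ s ∈ ball s0 2, ‖G s‖ ≤ ‖G s0‖ * Real.exp M) (hs : ‖s - s0‖ ≤ 2 - σ) :
    ‖deriv G s / G s‖ ≤ 16 * M * (1 / σ) ^ 2 := by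
  obtain ⟨f, hf0, hf, hlog⟩ := exists_log (by norm_num) hd hne
  have h00 : s0 ∈ ball s0 (2 : ℝ) := mem_ball_self (by norm_num)
  have hG0 : 0 < ‖G s0‖ := norm_pos_iff.mpr (hne s0 h00)
  set φ : ℂ → ℂ := fun z => f (s0 + z) with hφ
  have hmem : ∀ z : ℂ, z ∈ ball (0 : ℂ) 2 → s0 + z ∈ ball s0 (2 : ℝ) := by
    intro z hz
    rw [mem_ball_zero_iff] at hz
    rw [mem_ball, dist_eq_norm, add_sub_cancel_left]
    exact hz
  have hφd : DifferentiableOn ℂ φ (ball 0 2) := by
    intro z hz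
    have h1 := (hf _ (hmem z hz)).differentiableAt
    exact (DifferentiableAt.comp (g := f) z h1 (by fun_prop)).differentiableWithinAt
  have hre : Set.MapsTo φ (ball 0 2) {z | z.re ≤ M} := by
    intro z hz
    have h1 := hmem z hz
    have h2 := hup _ h1
    rw [hlog _ h1, norm_mul, Complex.norm_exp] at h2
    have h3 := le_of_mul_le_mul_left h2 hG0
    exact Real.exp_le_exp.mp h3
  have hφ0 : φ 0 = 0 := by rw [hφ]; simp only [add_zero]; exact hf0
  have hbc : ∀ z : ℂ, ‖z‖ ≤ 2 - σ / 2 → ‖φ z‖ ≤ 8 * M / σ := by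
    intro z hz
    have hz2 : z ∈ ball (0 : ℂ) 2 := by rw [mem_ball_zero_iff]; linarith
    have h1 := Complex.borelCaratheodory_zero hM hφd hre (by norm_num) hz2 hφ0
    refine h1.trans ?_
    rw [div_le_div_iff₀ (by linarith) hσ]
    have h2 := norm_nonneg z
    have h3 : ‖z‖ ≤ 2 := by linarith
    have h4 : σ / 2 ≤ 2 - ‖z‖ := by linarith
    calc 2 * M * ‖z‖ * σ ≤ 2 * M * 2 * σ := by gcongr
      _ = 8 * M * (σ / 2) := by ring
      _ ≤ 8 * M * (2 - ‖z‖) := by gcongr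
  have hz1 : ‖s - s0‖ ≤ 2 - σ := hs
  have hsub : ∀ z : ℂ, z ∈ closedBall (s - s0) (σ / 2) → ‖z‖ ≤ 2 - σ / 2 := by
    intro z hz
    rw [mem_closedBall, dist_eq_norm] at hz
    have := norm_add_le (z - (s - s0)) (s - s0)
    rw [sub_add_cancel] at this
    linarith
  have hcl : DiffContOnCl ℂ φ (ball (s - s0) (σ / 2)) := by
    refine DifferentiableOn.diffContOnCl ?_
    refine hφd.mono fun z hz => ?_
    have hz' := closure_ball_subset_closedBall hz
    rw [mem_ball_zero_iff]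
    have := hsub z hz'
    linarith
  have hder := Complex.norm_deriv_le_of_forall_mem_sphere_norm_le (half_pos hσ) hcl
    (fun z hz => hbc z (hsub z (sphere_subset_closedBall hz)))
  have hsm : s ∈ ball s0 (2 : ℝ) := by rw [mem_ball, dist_eq_norm]; linarith
  have e1 : deriv φ (s - s0) = deriv G s / G s := by
    have h1 : HasDerivAt f (deriv G s / G s) (s0 + (s - s0)) := by
      rw [add_sub_cancel]; exact hf s hsm
    exact (h1.comp_const_add s0 (s - s0)).deriv
  rw [e1] at hder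
  refine hder.trans (le_of_eq ?_)
  have := hσ.ne'
  field_simp
  norm_num

theorem log_le_sqrt {y : ℝ} (hy : 1 ≤ y) : Real.log y ≤ 2 * y ^ (1 / 2 : ℝ) := by
  have h0 : 0 < y := by linarith
  have h1 : Real.log y = 2 * Real.log (y ^ (1 / 2 : ℝ)) := by
    rw [Real.log_rpow h0]; ring
  have h2 : Real.log (y ^ (1 / 2 : ℝ)) ≤ y ^ (1 / 2 : ℝ) - 1 :=
    Real.log_le_sub_one_of_pos (by positivity)
  linarith

/-- **Zero-free functions of polynomial growth.** -/
theorem bc_bound {G : ℂ → ℂ} {c C m : ℝ} {A : ℕ} (hm : 0 < m)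
    (hd : ∀ s : ℂ, c < s.re → DifferentiableAt ℂ G s) (hne : ∀ s : ℂ, c < s.re → G s ≠ 0)
    (hup : ∀ s : ℂ, c < s.re → ‖G s‖ ≤ C * (1 + ‖s‖) ^ A)
    (hlow : ∀ s : ℂ, s.re = c + 2 → m ≤ ‖G s‖) :
    ∃ K : ℝ, ∀ s : ℂ, c < s.re → s.re ≤ c + 1 →
      ‖deriv G s / G s‖ ≤ K * ((1 + ‖s - c‖) ^ (1 / 2 : ℝ) * (1 / (s.re - c)) ^ 2) := by
  set K0 : ℝ := |Real.log (|C| / m)| + 1 + A * (|Real.log (5 + |c|)| + 2) with hK0
  have hK0n : 0 ≤ K0 := by positivity
  refine ⟨16 * K0, fun s h1 h2 => ?_⟩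
  have hC : 0 < |C| := by
    rcases eq_or_ne C 0 with h | h
    · exfalso
      have h3 := hup (((c + 2 : ℝ)) : ℂ) (by rw [Complex.ofReal_re]; linarith)
      rw [h, zero_mul] at h3
      have h4 := hlow (((c + 2 : ℝ)) : ℂ) (by rw [Complex.ofReal_re])
      linarith
    · exact abs_pos.mpr h
  set σ : ℝ := s.re - c with hσ
  have hσ0 : 0 < σ := by rw [hσ]; linarith
  have hσ1 : σ ≤ 1 := by rw [hσ]; linarith
  set s0 : ℂ := ⟨c + 2, s.im⟩ with hs0
  have hss : ‖s - s0‖ = 2 - σ := by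
    have e1 : s - s0 = ((σ - 2 : ℝ) : ℂ) := by
      apply Complex.ext
      · rw [Complex.sub_re, Complex.ofReal_re, hs0, hσ]; ring
      · rw [Complex.sub_im, Complex.ofReal_im, hs0]; simp
    rw [e1, Complex.norm_real, Real.norm_eq_abs, abs_of_nonpos (by linarith)]
    ring
  have hball : ∀ t ∈ ball s0 (2 : ℝ), c < t.re := by
    intro t ht
    rw [mem_ball, dist_eq_norm] at ht
    have h3 := (Complex.abs_re_le_norm (t - s0)).trans_lt ht
    rw [Complex.sub_re, hs0, abs_lt] at h3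
    simp only at h3
    linarith [h3.1]
  set w : ℝ := 1 + ‖s - c‖ with hw
  have hw1 : 1 ≤ w := by rw [hw]; linarith [norm_nonneg (s - (c : ℂ))]
  -- the exponent
  set M : ℝ := |Real.log (|C| / m)| + 1 + A * Real.log ((5 + |c|) * w) with hM
  have h5w : 1 ≤ (5 + |c|) * w := by nlinarith [abs_nonneg c]
  have hM0 : 0 < M := by
    have := Real.log_nonneg h5w
    have : 0 ≤ (A : ℝ) * Real.log ((5 + |c|) * w) := by positivity
    have := abs_nonneg (Real.log (|C| / m))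
    linarith
  have hlow0 := hlow s0 (by rw [hs0])
  have hupM : ∀ t ∈ ball s0 (2 : ℝ), ‖G t‖ ≤ ‖G s0‖ * Real.exp M := by
    intro t ht
    have h3 := hup t (hball t ht)
    rw [mem_ball, dist_eq_norm] at ht
    have h4 : 1 + ‖t‖ ≤ (5 + |c|) * w := by
      have e1 : ‖t‖ ≤ ‖t - s0‖ + ‖s - s0‖ + ‖s - c‖ + |c| := by
        have : t = (t - s0) - (s - s0) + (s - c) + c := by ring
        calc ‖t‖ = ‖(t - s0) - (s - s0) + (s - c) + c‖ := by rw [← this]
          _ ≤ ‖(t - s0) - (s - s0) + (s - c)‖ + ‖(c : ℂ)‖ := norm_add_le _ _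
          _ ≤ (‖(t - s0) - (s - s0)‖ + ‖s - c‖) + ‖(c : ℂ)‖ := by gcongr; exact norm_add_le _ _
          _ ≤ ((‖t - s0‖ + ‖s - s0‖) + ‖s - c‖) + ‖(c : ℂ)‖ := by gcongr; exact norm_sub_le _ _
          _ = _ := by rw [Complex.norm_real, Real.norm_eq_abs]
      rw [hss] at e1
      have e2 : 0 ≤ |c| * ‖s - c‖ := by positivity
      have e3 := norm_nonneg (s - (c : ℂ))
      rw [hw]
      nlinarith
    have h5 : ‖G t‖ ≤ |C| * ((5 + |c|) * w) ^ A := by
      refine h3.trans ?_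
      refine mul_le_mul (le_abs_self C) ?_ (by positivity) (abs_nonneg C)
      exact pow_le_pow_left₀ (by positivity) h4 A
    have h6 : |C| * ((5 + |c|) * w) ^ A ≤ m * Real.exp M := by
      have e1 : Real.exp M = Real.exp (|Real.log (|C| / m)| + 1) * ((5 + |c|) * w) ^ A := by
        rw [hM, Real.exp_add]
        congr 1
        rw [mul_comm, Real.exp_mul, Real.exp_log (by linarith), Real.rpow_natCast]
      rw [e1, ← mul_assoc]
      refine mul_le_mul_of_nonneg_right ?_ (by positivity)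
      have e2 : |C| / m ≤ Real.exp (|Real.log (|C| / m)| + 1) := by
        rw [← Real.log_le_iff_le_exp (by positivity)]
        linarith [le_abs_self (Real.log (|C| / m))]
      rw [div_le_iff₀ hm] at e2
      linarith
    exact h5.trans (h6.trans (mul_le_mul_of_nonneg_right hlow0 (Real.exp_pos _).le))
  have hmain := bc_point (s := s) hσ0 hσ1 hM0 (fun t ht => hd t (hball t ht))
    (fun t ht => hne t (hball t ht)) hupM hss.le
  refine hmain.trans ?_
  have hMle : M ≤ K0 * w ^ (1 / 2 : ℝ) := by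
    have e1 : Real.log ((5 + |c|) * w) ≤ (|Real.log (5 + |c|)| + 2) * w ^ (1 / 2 : ℝ) := by
      rw [Real.log_mul (by positivity) (by linarith)]
      have e2 := log_le_sqrt hw1
      have e3 : 1 ≤ w ^ (1 / 2 : ℝ) := Real.one_le_rpow hw1 (by norm_num)
      have e4 := le_abs_self (Real.log (5 + |c|))
      have e5 := abs_nonneg (Real.log (5 + |c|))
      nlinarith
    have e3 : 1 ≤ w ^ (1 / 2 : ℝ) := Real.one_le_rpow hw1 (by norm_num)
    have e6 : (A : ℝ) * Real.log ((5 + |c|) * w) ≤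
        A * ((|Real.log (5 + |c|)| + 2) * w ^ (1 / 2 : ℝ)) :=
      mul_le_mul_of_nonneg_left e1 (Nat.cast_nonneg A)
    have e7 : |Real.log (|C| / m)| + 1 ≤ (|Real.log (|C| / m)| + 1) * w ^ (1 / 2 : ℝ) :=
      le_mul_of_one_le_right (by positivity) e3
    rw [hM, hK0]
    linarith
  calc 16 * M * (1 / σ) ^ 2 ≤ 16 * (K0 * w ^ (1 / 2 : ℝ)) * (1 / σ) ^ 2 := by gcongr
    _ = _ := by ring

end Pool.Agent.W263.MN
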