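import Pool.Agent.W263.MN.Gen

/-! The sums over the places alone. -/

set_option autoImplicit false

namespace Pool.Agent.W263.MN

open MeasureTheory Filter Topology Set Classical
open Pool.Agent.W263.BSD Pool.Agent.W263.EP
open Pool.Agent.H341R2 (NormSys)

/-- Chebyshev-Mertens upper bound -/
theorem cheb (S : NormSys) : ∃ C : ℝ, 0 ≤ C ∧ ∀ᶠ u : ℝ in atTop,
    ∑ x ∈ (fin_norm S (Real.exp u)).toFinset, Real.log (S.N x) * (S.N x : ℝ) ^ (-1 : ℝ) ≤ C * u := by
  obtain ⟨C, hC⟩ := lam_diff S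
  refine ⟨6 * |C|, by positivity, ?_⟩
  have h1 := (tendsto_inv_atTop_nhdsGT_zero (𝕜 := ℝ)).eventually hC
  filter_upwards [h1, eventually_gt_atTop 0] with u h2 hu
  set w : ℝ := u⁻¹ with hw
  have hw0 : 0 < w := inv_pos.mpr hu
  have s1 := S.summable (-(1 + w)) (by linarith)
  have s2 := S.summable (-(1 + 2 * w)) (by linarith)
  have hterm : ∀ x : S.X, 0 ≤ (S.N x : ℝ) ^ (-(1 + w)) - (S.N x : ℝ) ^ (-(1 + 2 * w)) := by
    intro x
    have := Real.rpow_le_rpow_of_exponent_le (x := (S.N x : ℝ)) (by linarith [N_real_two x])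
      (show -(1 + 2 * w) ≤ -(1 + w) by linarith)
    linarith
  have h3 : ∑ x ∈ (fin_norm S (Real.exp u)).toFinset,
      ((S.N x : ℝ) ^ (-(1 + w)) - (S.N x : ℝ) ^ (-(1 + 2 * w))) ≤ C := by
    refine ((s1.sub s2).sum_le_tsum _ fun x _ => hterm x).trans ?_
    rw [s1.tsum_sub s2]
    exact h2
  have h4 : ∑ x ∈ (fin_norm S (Real.exp u)).toFinset, Real.log (S.N x) * (S.N x : ℝ) ^ (-1 : ℝ) ≤
      ∑ x ∈ (fin_norm S (Real.exp u)).toFinset, (6 * u) *
        ((S.N x : ℝ) ^ (-(1 + w)) - (S.N x : ℝ) ^ (-(1 + 2 * w))) := by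
    refine Finset.sum_le_sum fun x hx => ?_
    have hx' : Real.log (S.N x) ≤ u := mem_fin.mp hx
    have hN := S.N_pos x
    have hl := logN_pos (S := S) x
    set y : ℝ := w * Real.log (S.N x) with hy
    have hy0 : 0 < y := mul_pos hw0 hl
    have hy1 : y ≤ 1 := by
      rw [hy, hw, inv_mul_le_iff₀ hu, mul_one]; exact hx'
    have e1 : (S.N x : ℝ) ^ (-(1 + w)) = (S.N x : ℝ) ^ (-1 : ℝ) * Real.exp (-y) := by
      rw [show -(1 + w) = -1 + -w by ring, Real.rpow_add hN, Real.rpow_def_of_pos hN (-w)]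
      congr 2
      rw [hy]; ring
    have e2 : (S.N x : ℝ) ^ (-(1 + 2 * w)) =
        (S.N x : ℝ) ^ (-1 : ℝ) * (Real.exp (-y) * Real.exp (-y)) := by
      rw [show -(1 + 2 * w) = -1 + -(2 * w) by ring, Real.rpow_add hN,
        Real.rpow_def_of_pos hN (-(2 * w)), ← Real.exp_add]
      congr 2
      rw [hy]; ring
    rw [e1, e2]
    have hp : 0 < (S.N x : ℝ) ^ (-1 : ℝ) := by positivity
    have e3 : y / 2 ≤ 1 - Real.exp (-y) := by
      have := Real.exp_bound' (x := y) hy0.le hy1 (n := 2) (by norm_num)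
      have h5 : Real.exp (-y) ≤ 1 - y / 2 := by
        rw [Real.exp_neg, inv_le_comm₀ (Real.exp_pos _) (by linarith)]
        have h6 := Real.add_one_le_exp y
        have h7 : (1 - y / 2)⁻¹ ≤ 1 + y := by
          rw [inv_le_comm₀ (by linarith) (by linarith), inv_eq_one_div,
            div_le_iff₀ (by linarith)]
          nlinarith
        linarith
      linarith
    have e4 : 1 / 3 ≤ Real.exp (-y) := by
      rw [Real.exp_neg, one_div]
      refine inv_anti₀ (Real.exp_pos _) ?_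
      have h8 : Real.exp y ≤ Real.exp 1 := Real.exp_le_exp.mpr hy1
      linarith [Real.exp_one_lt_d9]
    have e5 : y / 6 ≤ Real.exp (-y) - Real.exp (-y) * Real.exp (-y) := by
      have : Real.exp (-y) - Real.exp (-y) * Real.exp (-y) =
        Real.exp (-y) * (1 - Real.exp (-y)) := by ring
      rw [this]
      calc y / 6 = 1 / 3 * (y / 2) := by ring
        _ ≤ _ := mul_le_mul e4 e3 (by positivity) (Real.exp_pos _).le
    have e6 : Real.log (S.N x) = u * y := by
      rw [hy, hw]; field_simp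
    calc Real.log (S.N x) * (S.N x : ℝ) ^ (-1 : ℝ) = (6 * u) * ((S.N x : ℝ) ^ (-1 : ℝ) * (y / 6)) := by
          rw [e6]; ring
      _ ≤ (6 * u) * ((S.N x : ℝ) ^ (-1 : ℝ) *
            (Real.exp (-y) - Real.exp (-y) * Real.exp (-y))) := by gcongr
      _ = _ := by ring
  refine h4.trans ?_
  rw [← Finset.mul_sum]
  have h5 : C ≤ |C| := le_abs_self C
  calc 6 * u * _ ≤ 6 * u * C := mul_le_mul_of_nonneg_left h3 (by positivity)
    _ ≤ 6 * u * |C| := mul_le_mul_of_nonneg_left h5 (by positivity)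
    _ = _ := by ring

variable (S : NormSys) (bad : Set S.X) (tr : S.X → ℕ → ℝ) (ω : ℝ)

/-- Riesz means over the places alone -/
noncomputable def SK (k : ℕ) (y : ℝ) : ℝ := ∑ᶠ x ∈ {x : S.X | x ∉ bad ∧ (S.N x : ℝ) ≤ y},
  (1 - Real.log (S.N x) / Real.log y) ^ k *
    (tr x 1 * Real.log (S.N x) * (S.N x : ℝ) ^ (-((ω + 1) / 2)))

variable {S bad tr ω} {D : ℝ}

/-- the prime powers contribute little -/
theorem SK_ZK (E : TData S (tn S bad tr ω) D) (k : ℕ) :
    ∃ C : ℝ, ∀ᶠ x : ℝ in atTop, |ZK S bad tr ω k x - SK S bad tr ω k x| ≤ C * Real.log x := by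
  obtain ⟨C, hC0, hC⟩ := cheb S
  have hD := E.nonneg
  set Γ : ℝ := ∑' m : ℕ, (3 / 4 : ℝ) ^ (m - 1) with hΓ
  have hΓ0 : 0 ≤ Γ := tsum_nonneg fun m => by positivity
  refine ⟨D * C * Γ, ?_⟩
  filter_upwards [Real.tendsto_log_atTop.eventually hC, eventually_gt_atTop 1] with y h1 hy
  set u : ℝ := Real.log y with hu
  have hu0 : 0 < u := Real.log_pos hy
  have hyu : y = Real.exp u := by rw [hu, Real.exp_log (by linarith)]
  set T : Finset S.X := (fin_norm S (Real.exp u)).toFinset with hT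
  have hfin : {p : (pw S).X | p.1 ∉ bad ∧ (((pw S).N p : ℕ) : ℝ) ≤ Real.exp u}.Finite :=
    (fin_norm (pw S) (Real.exp u)).subset fun p hp => hp.2
  set P : Finset (pw S).X := hfin.toFinset with hP
  obtain ⟨M, hM⟩ : ∃ M : ℕ, ∀ p ∈ P, p.2 < M := by
    refine ⟨P.sup (fun p => p.2) + 1, fun p hp => ?_⟩
    have := Finset.le_sup (f := fun p : (pw S).X => p.2) hp
    exact Nat.lt_succ_of_le this
  -- weights
  set W : ℝ → ℝ := fun v => (1 - v / u) ^ k with hW
  have hW1 : ∀ v, 0 ≤ v → v ≤ u → |W v| ≤ 1 := by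
    intro v h2 h3
    have h4 : 0 ≤ 1 - v / u := by
      have : v / u ≤ 1 := by rw [div_le_one hu0]; exact h3
      linarith
    have h5 : 1 - v / u ≤ 1 := by
      have : 0 ≤ v / u := by positivity
      linarith
    rw [hW]
    simp only []
    rw [abs_of_nonneg (pow_nonneg h4 k)]
    exact pow_le_one₀ h4 h5
  have hZ : ZK S bad tr ω k y = ∑ p ∈ P,
      W (Real.log ((pw S).N p)) * cz S (tn S bad tr ω) p := by
    rw [ZK_eq, hyu, finsum_mem_eq_finite_toFinset_sum _ hfin, Real.log_exp]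
  have hgood : {x : S.X | x ∉ bad ∧ (S.N x : ℝ) ≤ Real.exp u}.Finite := fin_good S bad _
  have hS : SK S bad tr ω k y = ∑ x ∈ T.filter (fun x => x ∉ bad),
      W (Real.log (S.N x)) * (tn S bad tr ω x 1 * Real.log (S.N x)) := by
    unfold SK
    rw [hyu, finsum_mem_eq_finite_toFinset_sum _ hgood, Real.log_exp]
    have e1 : hgood.toFinset = T.filter (fun x => x ∉ bad) := by
      ext x
      rw [Set.Finite.mem_toFinset, Finset.mem_filter, hT, Set.Finite.mem_toFinset]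
      simp only [mem_ofPred_eq]
      tauto
    rw [e1]
    refine Finset.sum_congr rfl fun x hx => ?_
    have hx' : x ∉ bad := (Finset.mem_filter.mp hx).2
    unfold tn
    rw [if_neg hx']
    have e2 : -(((1 : ℕ) : ℝ) * ((ω + 1) / 2)) = -((ω + 1) / 2) := by push_cast; ring
    rw [e2]
    ring
  -- separate the first powers
  have hsplit : ∑ p ∈ P, W (Real.log ((pw S).N p)) * cz S (tn S bad tr ω) p =
      ∑ p ∈ P.filter (fun p => p.2 = 0), W (Real.log ((pw S).N p)) * cz S (tn S bad tr ω) p +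
      ∑ p ∈ P.filter (fun p => ¬ p.2 = 0), W (Real.log ((pw S).N p)) * cz S (tn S bad tr ω) p :=
    (Finset.sum_filter_add_sum_filter_not P _ _).symm
  have hfirst : ∑ p ∈ P.filter (fun p => p.2 = 0),
      W (Real.log ((pw S).N p)) * cz S (tn S bad tr ω) p =
      ∑ x ∈ T.filter (fun x => x ∉ bad), W (Real.log (S.N x)) *
        (tn S bad tr ω x 1 * Real.log (S.N x)) := by
    refine Finset.sum_bij' (fun p _ => p.1) (fun x _ => ((x, 0) : (pw S).X)) ?_ ?_ ?_ ?_ ?_
    · intro p hp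
      obtain ⟨h2, h3⟩ := Finset.mem_filter.mp hp
      rw [hP, Set.Finite.mem_toFinset] at h2
      obtain ⟨h4, h5⟩ := h2
      rw [Finset.mem_filter, hT, Set.Finite.mem_toFinset]
      refine ⟨?_, h4⟩
      rw [pw_N, h3, zero_add, pow_one] at h5
      exact h5
    · intro x hx
      obtain ⟨h2, h3⟩ := Finset.mem_filter.mp hx
      rw [hT, Set.Finite.mem_toFinset] at h2
      refine Finset.mem_filter.mpr ⟨hfin.mem_toFinset.mpr ⟨h3, ?_⟩, rfl⟩
      show ((S.N x ^ (0 + 1) : ℕ) : ℝ) ≤ Real.exp u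
      rw [zero_add, pow_one]
      exact h2
    · intro p hp
      obtain ⟨h2, h3⟩ := Finset.mem_filter.mp hp
      exact Prod.ext rfl h3.symm
    · intro x hx
      rfl
    · intro p hp
      obtain ⟨h2, h3⟩ := Finset.mem_filter.mp hp
      have e1 : Real.log ((pw S).N p) = Real.log (S.N p.1) := by
        rw [pw_N, h3, zero_add, pow_one]
      rw [e1]
      unfold cz
      rw [h3, zero_add]
  rw [hZ, hS, hsplit, hfirst, add_sub_cancel_left]
  -- bound for the remaining sum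
  have hb : ∀ p ∈ P.filter (fun p => ¬ p.2 = 0),
      |W (Real.log ((pw S).N p)) * cz S (tn S bad tr ω) p| ≤
        D * (Real.log (S.N p.1) * (S.N p.1 : ℝ) ^ (-1 : ℝ)) * (3 / 4 : ℝ) ^ (p.2 - 1) := by
    intro p hp
    obtain ⟨h2, h3⟩ := Finset.mem_filter.mp hp
    rw [hP, Set.Finite.mem_toFinset] at h2
    have hlog : Real.log ((pw S).N p) ≤ u := by
      rw [Real.log_le_iff_le_exp ((pw S).N_pos p)]
      exact h2.2
    have h4 := hW1 _ (logN_pos (S := pw S) p).le hlog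
    have h5 := E.bound p.1 p.2
    have hl := logN_pos (S := S) p.1
    have h6 : hh S p.1 ^ (p.2 + 1) ≤ (S.N p.1 : ℝ) ^ (-1 : ℝ) * (3 / 4 : ℝ) ^ (p.2 - 1) := by
      obtain ⟨m, hm⟩ := Nat.exists_eq_succ_of_ne_zero h3
      rw [hm, Nat.succ_eq_add_one, Nat.add_sub_cancel, ← hh_sq,
        show m + 1 + 1 = 2 + m by ring, pow_add]
      exact mul_le_mul_of_nonneg_left
        (pow_le_pow_left₀ (hh_pos (S := S) p.1).le (hh_le (S := S) p.1) m) (by positivity)
    rw [abs_mul]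
    unfold cz
    rw [abs_mul, abs_of_pos hl]
    calc |W (Real.log ((pw S).N p))| * (|tn S bad tr ω p.1 (p.2 + 1)| * Real.log (S.N p.1)) ≤
        1 * ((D * ((S.N p.1 : ℝ) ^ (-1 : ℝ) * (3 / 4 : ℝ) ^ (p.2 - 1))) * Real.log (S.N p.1)) := by
          refine mul_le_mul h4 (mul_le_mul_of_nonneg_right
            (h5.trans (mul_le_mul_of_nonneg_left h6 hD)) hl.le) (by positivity) zero_le_one
      _ = _ := by ring
  have hsub : P.filter (fun p => ¬ p.2 = 0) ⊆ (T ×ˢ Finset.range M : Finset (S.X × ℕ)) := by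
    intro p hp
    obtain ⟨h2, h3⟩ := Finset.mem_filter.mp hp
    have h4 := hM p h2
    rw [hP, Set.Finite.mem_toFinset] at h2
    have h5 : Real.log ((pw S).N p) ≤ u := by
      rw [Real.log_le_iff_le_exp ((pw S).N_pos p)]
      exact h2.2
    rw [pw_log] at h5
    have hl := logN_pos (S := S) p.1
    refine Finset.mem_product.mpr ⟨?_, Finset.mem_range.mpr h4⟩
    refine mem_fin.mpr ?_
    have : (0 : ℝ) ≤ p.2 := Nat.cast_nonneg _
    nlinarith
  have hgeo : ∑ m ∈ Finset.range M, (3 / 4 : ℝ) ^ (m - 1) ≤ Γ :=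
    (geo_summable 1).sum_le_tsum _ (fun m _ => by positivity)
  have hnn : ∀ x : S.X, 0 ≤ Real.log (S.N x) * (S.N x : ℝ) ^ (-1 : ℝ) := fun x => by
    have := logN_pos (S := S) x
    positivity
  calc |∑ p ∈ P.filter (fun p => ¬ p.2 = 0), W (Real.log ((pw S).N p)) * cz S (tn S bad tr ω) p| ≤
      ∑ p ∈ P.filter (fun p => ¬ p.2 = 0),
        |W (Real.log ((pw S).N p)) * cz S (tn S bad tr ω) p| := Finset.abs_sum_le_sum_abs _ _
    _ ≤ ∑ p ∈ P.filter (fun p => ¬ p.2 = 0),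
        D * (Real.log (S.N p.1) * (S.N p.1 : ℝ) ^ (-1 : ℝ)) * (3 / 4 : ℝ) ^ (p.2 - 1) :=
        Finset.sum_le_sum hb
    _ ≤ ∑ p ∈ (T ×ˢ Finset.range M : Finset (S.X × ℕ)),
        D * (Real.log (S.N p.1) * (S.N p.1 : ℝ) ^ (-1 : ℝ)) * (3 / 4 : ℝ) ^ (p.2 - 1) :=
        Finset.sum_le_sum_of_subset_of_nonneg hsub fun p _ _ => by
          have := hnn p.1
          positivity
    _ = D * ((∑ x ∈ T, Real.log (S.N x) * (S.N x : ℝ) ^ (-1 : ℝ)) *
        ∑ m ∈ Finset.range M, (3 / 4 : ℝ) ^ (m - 1)) := by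
        rw [Finset.sum_product, Finset.sum_mul, Finset.mul_sum]
        refine Finset.sum_congr rfl fun x _ => ?_
        rw [Finset.mul_sum, Finset.mul_sum]
        refine Finset.sum_congr rfl fun m _ => ?_
        ring
    _ ≤ D * ((C * u) * Γ) := by
        refine mul_le_mul_of_nonneg_left ?_ hD
        exact mul_le_mul h1 hgeo (Finset.sum_nonneg fun m _ => by positivity) (by positivity)
    _ = _ := by ring

end Pool.Agent.W263.MN
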