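import Pool.Agent.W263.MN.Pow

/-! Lower bounds for the Riesz means of the von Mangoldt sums. -/

set_option autoImplicit false

namespace Pool.Agent.W263.MN

open MeasureTheory Filter Topology Set Classical
open Pool.Agent.W263.BSD Pool.Agent.W263.EP
open Pool.Agent.H341R2 (NormSys)

/-- local boundedness on the positive half line -/
def Loc (f : ℝ → ℝ) : Prop := ∀ U : ℝ, ∃ B : ℝ, ∀ u, 0 < u → u ≤ U → |f u| ≤ B

variable {f : ℝ → ℝ}

theorem Loc.intU (h : Loc f) : Loc (EP.intU f) := by
  intro U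
  obtain ⟨B, hB⟩ := h U
  refine ⟨|B| * |U|, fun u hu huU => ?_⟩
  have h1 := intU_abs (fun u h1 h2 => (hB u h1 h2).trans (le_abs_self B)) hu huU
  exact h1.trans (mul_le_mul_of_nonneg_left (huU.trans (le_abs_self U)) (abs_nonneg B))

theorem Loc.ria (h : Loc f) (k : ℕ) : Loc (EP.ria f k) := by
  induction k with
  | zero => exact h
  | succ k ih => exact ih.intU

theorem Loc.integrableOn (h : Loc f) (hf : Measurable f) (U : ℝ) : IntegrableOn f (Ioc 0 U) := by
  obtain ⟨B, hB⟩ := h U
  refine Integrable.mono' (integrable_const B) hf.aestronglyMeasurable ?_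
  refine (ae_restrict_iff' measurableSet_Ioc).mpr (Eventually.of_forall fun u hu => ?_)
  exact hB u hu.1 hu.2

theorem pk_intU (k : ℕ) {u : ℝ} (hu : 0 ≤ u) : EP.intU (pk k) u = pk (k + 1) u := by
  unfold EP.intU pk
  rw [← intervalIntegral.integral_of_le hu, intervalIntegral.integral_div, integral_pow,
    Nat.factorial_succ]
  have : (k.factorial : ℝ) ≠ 0 := by positivity
  push_cast
  field_simp
  simp

theorem pk_atTop (k : ℕ) : Tendsto (pk (k + 1)) atTop atTop := by
  unfold pk
  exact (tendsto_pow_atTop (by omega)).atTop_div_const (by positivity)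

theorem pk_int (k : ℕ) (U : ℝ) : IntegrableOn (pk k) (Ioc 0 U) := by
  refine Continuous.integrableOn_Ioc ?_
  unfold pk
  fun_prop

/-- an eventual lower bound holds everywhere up to an exponentially decreasing term -/
theorem lower_all (hl : Loc f) {n : ℕ} {K : ℝ} (h : ∀ᶠ u in atTop, -(K * pk n u) ≤ f u) :
    ∃ L : ℝ, 0 ≤ L ∧ ∀ u, 0 < u → -(K * pk n u + L * ex (-1) u) ≤ f u := by
  obtain ⟨U, hU⟩ := eventually_atTop.mp h
  set V : ℝ := max U 1 with hV
  obtain ⟨B, hB⟩ := hl V
  refine ⟨(|B| + |K| * pk n V) * Real.exp V, ?_, fun u hu => ?_⟩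
  · have := pk_nonneg n (show 0 ≤ V by have := le_max_right U 1; linarith)
    positivity
  have hV0 : 0 ≤ V := by have := le_max_right U 1; linarith
  have hpV := pk_nonneg n hV0
  have hp := pk_nonneg n hu.le
  rcases le_or_gt V u with h2 | h2
  · have h3 := hU u ((le_max_left _ _).trans h2)
    have h4 : 0 ≤ (|B| + |K| * pk n V) * Real.exp V * ex (-1) u := by
      unfold ex; positivity
    linarith
  · have h3 := (abs_le.mp (hB u hu h2.le)).1
    have h4 : |B| + |K| * pk n V ≤ (|B| + |K| * pk n V) * Real.exp V * ex (-1) u := by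
      unfold ex
      rw [mul_assoc, ← Real.exp_add]
      have h7 : 1 ≤ Real.exp (V + -1 * u) := Real.one_le_exp (by linarith)
      have h8 : 0 ≤ |B| + |K| * pk n V := by positivity
      nlinarith
    have h5 : -(K * pk n u) ≤ |K| * pk n V := by
      have e1 : pk n u ≤ pk n V := by unfold pk; gcongr
      have e2 : -K ≤ |K| := neg_le_abs K
      have e3 := abs_nonneg K
      nlinarith
    have h6 := le_abs_self B
    linarith

theorem upper_all (hl : Loc f) {n : ℕ} {K : ℝ} (h : ∀ᶠ u in atTop, f u ≤ K * pk n u) :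
    ∃ L : ℝ, 0 ≤ L ∧ ∀ u, 0 < u → f u ≤ K * pk n u + L * ex (-1) u := by
  have hl' : Loc (fun u => -f u) := fun U => by
    obtain ⟨B, hB⟩ := hl U
    exact ⟨B, fun u h1 h2 => by rw [abs_neg]; exact hB u h1 h2⟩
  obtain ⟨L, hL, h1⟩ := lower_all hl' (K := K) (n := n) (h.mono fun u hu => by linarith)
  exact ⟨L, hL, fun u hu => by have := h1 u hu; linarith⟩

theorem intU_mono {g h : ℝ → ℝ} {u : ℝ} (hg : IntegrableOn g (Ioc 0 u))
    (hh : IntegrableOn h (Ioc 0 u)) (hle : ∀ v, 0 < v → g v ≤ h v) :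
    EP.intU g u ≤ EP.intU h u :=
  setIntegral_mono_on hg hh measurableSet_Ioc fun v hv => hle v hv.1

/-- integration of lower bounds -/
theorem int_lower (hf : Measurable f) (hl : Loc f) {n : ℕ} {K : ℝ}
    (h : ∀ᶠ u in atTop, -(K * pk n u) ≤ f u) :
    ∀ᶠ u in atTop, -((K + 1) * pk (n + 1) u) ≤ EP.intU f u := by
  obtain ⟨L, hL, h1⟩ := lower_all hl h
  filter_upwards [eventually_gt_atTop 0, (pk_atTop n).eventually (eventually_ge_atTop L)]
    with u hu h2
  have hex : IntegrableOn (ex (-1)) (Ioc 0 u) := by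
    refine Continuous.integrableOn_Ioc ?_
    unfold ex
    fun_prop
  have e1 : EP.intU (fun v => -(K * pk n v + L * ex (-1) v)) u =
      -(K * pk (n + 1) u + L * (1 - Real.exp (-u))) := by
    unfold EP.intU
    rw [integral_neg, integral_add ((pk_int n u).const_mul K) (hex.const_mul L),
      integral_const_mul, integral_const_mul]
    have e2 : ∫ v in Ioc 0 u, pk n v = pk (n + 1) u := pk_intU n hu.le
    have e3 : ∫ v in Ioc 0 u, ex (-1) v = 1 - Real.exp (-u) := by
      unfold ex
      rw [← intervalIntegral.integral_of_le hu.le]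
      have := integral_exp_mul_complex (a := 0) (b := u) (c := (-1 : ℂ)) (by norm_num)
      rw [intervalIntegral.integral_comp_mul_left (fun x => Real.exp x) (by norm_num : (-1 : ℝ) ≠ 0),
        integral_exp]
      simp
    rw [e2, e3]
  have h3 := intU_mono (u := u) (((pk_int n u).const_mul K).add (hex.const_mul L)).neg
    (hl.integrableOn hf u) h1
  have e4 : EP.intU (fun v => -(K * pk n v + L * ex (-1) v)) u ≤ EP.intU f u := h3
  rw [e1] at e4
  have h4 := Real.exp_pos (-u)
  have h5 : L * (1 - Real.exp (-u)) ≤ L := by nlinarith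
  linarith

theorem ria_lower (hf : Measurable f) (hl : Loc f) {n : ℕ} {K : ℝ}
    (h : ∀ᶠ u in atTop, -(K * pk n u) ≤ f u) (j : ℕ) :
    ∀ᶠ u in atTop, -((K + j) * pk (n + j) u) ≤ EP.ria f j u := by
  induction j with
  | zero =>
    filter_upwards [h] with u hu
    show -((K + ((0 : ℕ) : ℝ)) * pk n u) ≤ f u
    simpa using hu
  | succ j ih =>
    have := int_lower (ria_meas hf j) (hl.ria j) ih
    filter_upwards [this] with u hu
    have e : EP.ria f (j + 1) u = EP.intU (EP.ria f j) u := rfl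
    rw [e]
    push_cast
    rw [← add_assoc, ← add_assoc]
    exact hu

/-- primitives are continuous -/
theorem intU_cont (hf : Measurable f) (hl : Loc f) {u : ℝ} (hu : 0 < u) :
    ContinuousAt (EP.intU f) u := by
  have h1 : IntegrableOn f (uIcc 0 (u + 1)) := by
    rw [uIcc_of_le (by linarith), integrableOn_Icc_iff_integrableOn_Ioc]
    exact hl.integrableOn hf _
  have h2 := intervalIntegral.continuousOn_primitive_interval h1
  rw [uIcc_of_le (by linarith)] at h2
  have h3 := h2.continuousAt (Icc_mem_nhds hu (by linarith))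
  refine h3.congr ?_
  filter_upwards [Ioi_mem_nhds hu] with v hv
  have : (0 : ℝ) < v := hv
  unfold EP.intU
  rw [intervalIntegral.integral_of_le this.le]

theorem intU_deriv (hf : Measurable f) (hl : Loc f) {u : ℝ} (hu : 0 < u) (hc : ContinuousAt f u) :
    HasDerivAt (EP.intU f) (f u) u := by
  have h1 : IntervalIntegrable f volume 0 u := by
    rw [intervalIntegrable_iff_integrableOn_Ioc_of_le hu.le]
    exact hl.integrableOn hf u
  have h2 := intervalIntegral.integral_hasDerivAt_right h1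
    (hf.stronglyMeasurable.stronglyMeasurableAtFilter) hc
  refine h2.congr_of_eventuallyEq ?_
  filter_upwards [Ioi_mem_nhds hu] with v hv
  have : (0 : ℝ) < v := hv
  unfold EP.intU
  rw [intervalIntegral.integral_of_le this.le]

/-- the two sequences of iterated integrals -/
structure Pair (a z : ℝ → ℝ) : Prop where
  am : Measurable a
  zm : Measurable z
  al : Loc a
  zl : Loc z
  id : ∀ (k : ℕ) (u : ℝ), EP.ria z k u = ((k : ℝ) + 1) * EP.ria a (k + 1) u - u * EP.ria a k u

variable {a z : ℝ → ℝ}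

theorem Pair.neg (P : Pair a z) : Pair (fun u => -a u) (fun u => -z u) where
  am := P.am.neg
  zm := P.zm.neg
  al := fun U => by
    obtain ⟨B, hB⟩ := P.al U
    exact ⟨B, fun u h1 h2 => by rw [abs_neg]; exact hB u h1 h2⟩
  zl := fun U => by
    obtain ⟨B, hB⟩ := P.zl U
    exact ⟨B, fun u h1 h2 => by rw [abs_neg]; exact hB u h1 h2⟩
  id := fun k u => by
    have key : ∀ (f : ℝ → ℝ) (k : ℕ), EP.ria (fun u => -f u) k = fun u => -EP.ria f k u := by
      intro f k
      induction k with
      | zero => rfl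
      | succ k ih =>
        funext u
        show EP.intU (EP.ria (fun u => -f u) k) u = -EP.intU (EP.ria f k) u
        rw [ih, intU_neg]
    simp only [key]
    rw [P.id]
    ring

/-- **lower bounds for the von Mangoldt means give upper bounds for the logarithmic means** -/
theorem Pair.upper (P : Pair a z) {k : ℕ} {K : ℝ}
    (h : ∀ᶠ u in atTop, -(K * pk (k + 1) u) ≤ EP.ria z k u) :
    ∃ K' : ℝ, ∀ᶠ u in atTop, EP.ria a (k + 2) u ≤ K' * (pk (k + 2) u * Real.log u) := by
  have h1 := int_lower (ria_meas P.zm k) (P.zl.ria k) h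
  have e0 : ∀ u, EP.intU (EP.ria z k) u = EP.ria z (k + 1) u := fun u => rfl
  simp only [e0] at h1
  obtain ⟨U, hU⟩ := eventually_atTop.mp h1
  set V : ℝ := max U (Real.exp 1) with hV
  have hVe : Real.exp 1 ≤ V := le_max_right _ _
  have hV0 : 0 < V := lt_of_lt_of_le (Real.exp_pos 1) hVe
  set A : ℝ := |K + 1| with hA
  set g : ℝ → ℝ := fun u => EP.ria a (k + 2) u / u ^ (k + 2) - A * Real.log u with hg
  have hder : ∀ u, 0 < u → HasDerivAt g
      ((EP.ria a (k + 1) u * u ^ (k + 2) - EP.ria a (k + 2) u * (((k + 2 : ℕ) : ℝ) * u ^ (k + 1))) /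
        (u ^ (k + 2)) ^ 2 - A * u⁻¹) u := by
    intro u hu
    have hc : ContinuousAt (EP.ria a (k + 1)) u := intU_cont (ria_meas P.am k) (P.al.ria k) hu
    have hd : HasDerivAt (EP.ria a (k + 2)) (EP.ria a (k + 1) u) u :=
      intU_deriv (ria_meas P.am (k + 1)) (P.al.ria (k + 1)) hu hc
    have hp : HasDerivAt (fun u : ℝ => u ^ (k + 2)) (((k + 2 : ℕ) : ℝ) * u ^ (k + 1)) u := by
      have := hasDerivAt_pow (k + 2) u
      simpa using this
    exact (hd.fun_div hp (pow_pos hu _).ne').fun_sub ((Real.hasDerivAt_log hu.ne').const_mul A)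
  have hanti : AntitoneOn g (Ici V) := by
    refine antitoneOn_of_deriv_nonpos (convex_Ici V) (fun u hu => ?_) (fun u hu => ?_) fun u hu => ?_
    · exact (hder u (lt_of_lt_of_le hV0 hu)).continuousAt.continuousWithinAt
    · rw [interior_Ici] at hu
      exact (hder u (hV0.trans hu)).differentiableAt.differentiableWithinAt
    · rw [interior_Ici] at hu
      have hu' : V < u := hu
      have hu0 : 0 < u := hV0.trans hu'
      rw [(hder u hu0).deriv]
      have h2 := hU u ((le_max_left _ _).trans hu'.le)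
      rw [P.id (k + 1) u] at h2
      have e1 : (EP.ria a (k + 1) u * u ^ (k + 2) -
          EP.ria a (k + 2) u * (((k + 2 : ℕ) : ℝ) * u ^ (k + 1))) / (u ^ (k + 2)) ^ 2 =
          -((((k + 1 : ℕ) : ℝ) + 1) * EP.ria a (k + 1 + 1) u - u * EP.ria a (k + 1) u) /
            u ^ (k + 3) := by
        have : u ≠ 0 := hu0.ne'
        rw [show k + 1 + 1 = k + 2 by ring]
        rw [div_eq_div_iff (by positivity) (by positivity)]
        push_cast
        ring
      rw [e1]
      have h3 : -((((k + 1 : ℕ) : ℝ) + 1) * EP.ria a (k + 1 + 1) u - u * EP.ria a (k + 1) u) ≤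
          A * u ^ (k + 2) := by
        have h4 : (K + 1) * pk (k + 1 + 1) u ≤ A * u ^ (k + 2) := by
          have h5 : pk (k + 1 + 1) u ≤ u ^ (k + 2) := by
            unfold pk
            refine div_le_self (by positivity) ?_
            exact_mod_cast Nat.one_le_iff_ne_zero.mpr (Nat.factorial_ne_zero _)
          have h6 := pk_nonneg (k + 1 + 1) hu0.le
          exact mul_le_mul (le_abs_self _) h5 h6 (abs_nonneg _)
        linarith
      have h7 : -((((k + 1 : ℕ) : ℝ) + 1) * EP.ria a (k + 1 + 1) u - u * EP.ria a (k + 1) u) /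
            u ^ (k + 3) ≤ A * u⁻¹ := by
        rw [div_le_iff₀ (by positivity)]
        refine h3.trans (le_of_eq ?_)
        have : u ≠ 0 := hu0.ne'
        field_simp
        ring
      linarith
  refine ⟨((k + 2).factorial : ℝ) * (|g V| + A), ?_⟩
  filter_upwards [eventually_ge_atTop V] with u hu
  have hu0 : 0 < u := lt_of_lt_of_le hV0 hu
  have h2 := hanti (mem_Ici.mpr le_rfl) hu hu
  have hlog : 1 ≤ Real.log u := by
    rw [Real.le_log_iff_exp_le hu0]; exact hVe.trans hu
  have h3 : EP.ria a (k + 2) u / u ^ (k + 2) ≤ (|g V| + A) * Real.log u := by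
    have h4 : EP.ria a (k + 2) u / u ^ (k + 2) = g u + A * Real.log u := by rw [hg]; ring
    have h5 := le_abs_self (g V)
    have h6 := abs_nonneg (g V)
    rw [h4]
    nlinarith
  rw [div_le_iff₀ (by positivity)] at h3
  refine h3.trans (le_of_eq ?_)
  unfold pk
  have : ((k + 2).factorial : ℝ) ≠ 0 := by positivity
  field_simp

/-- convergence of the transforms of the von Mangoldt means -/
theorem Pair.z_LInt' (P : Pair a z) {j : ℕ} {s0 : ℝ} (hs0 : 0 ≤ s0)
    (h : ∀ w > s0, LInt (EP.ria a j) w) : ∀ w > s0, LInt (EP.ria z j) w := by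
  intro w hw
  have h1 : LInt (EP.ria a (j + 1)) w :=
    (lap_intU (ria_meas P.am j) (show 0 < w by linarith) (h w hw)).1
  have h2 : LInt (fun u => u * EP.ria a j u) w :=
    LInt_id_mul (ria_meas P.am j) (show (s0 + w) / 2 < w by linarith) (h _ (by linarith))
  have h3 := (h1.const_mul ((j : ℝ) + 1)).sub h2
  have e : EP.ria z j = fun u => ((j : ℝ) + 1) * EP.ria a (j + 1) u - u * EP.ria a j u := by
    funext u; exact P.id j u
  rw [e]
  exact h3

theorem Pair.z_LInt (P : Pair a z) {j : ℕ} (h : ∀ w > 0, LInt (EP.ria a j) w) :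
    ∀ w > 0, LInt (EP.ria z j) w := P.z_LInt' le_rfl h

/-- the logarithmic derivative of the continuation -/
theorem Pair.cont_deriv' (P : Pair a z) {j : ℕ} {s0 : ℝ} (hs0 : 0 ≤ s0)
    (h : ∀ w > s0, LInt (EP.ria a j) w) {s : ℂ}
    (hs : s0 < s.re) : HasDerivAt (cont (j + 1) (EP.ria a j) (fun _ => 0))
      (-(s ^ (j + 1) * lapC (EP.ria z j) s) * cont (j + 1) (EP.ria a j) (fun _ => 0) s) s := by
  have hm := ria_meas P.am j
  have h1 : HasDerivAt (lapC (EP.ria a j)) (-lapC (fun u => u * EP.ria a j u) s) s :=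
    lapC_hasDerivAt hm h hs
  have h2 : HasDerivAt (fun s : ℂ => s ^ (j + 1)) (((j + 1 : ℕ) : ℂ) * s ^ j) s := by
    simpa using hasDerivAt_pow (j + 1) s
  have h3 := (h2.mul h1).fun_neg.cexp
  have e1 : (fun s : ℂ => Complex.exp (-((fun s : ℂ => s ^ (j + 1)) * lapC (EP.ria a j)) s)) =
      cont (j + 1) (EP.ria a j) (fun _ => 0) := by
    funext s
    unfold cont
    simp only [Pi.mul_apply, zero_sub]
  have e2 : lapC (EP.ria z j) s = ((j : ℂ) + 1) * lapC (EP.ria a (j + 1)) s -
      lapC (fun u => u * EP.ria a j u) s := by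
    have hI1 : LInt (EP.ria a (j + 1)) s.re :=
      (lap_intU hm (show 0 < s.re by linarith) (h _ hs)).1
    have hI2 : LInt (fun u => u * EP.ria a j u) s.re :=
      LInt_id_mul hm (show (s0 + s.re) / 2 < s.re by linarith) (h _ (by linarith))
    have c1 := (LInt.complex (ria_meas P.am (j + 1)) hI1).const_mul ((j : ℂ) + 1)
    have c2 : IntegrableOn (fun u : ℝ => ((u * EP.ria a j u : ℝ) : ℂ) * Complex.exp (-(s * u)))
        (Ioi 0) := LInt.complex (f := fun u => u * EP.ria a j u) (measurable_id.mul hm) hI2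
    have e4 : lapC (EP.ria z j) s = ∫ u in Ioi (0 : ℝ),
        (((j : ℂ) + 1) * ((EP.ria a (j + 1) u : ℂ) * Complex.exp (-(s * u))) -
          ((u * EP.ria a j u : ℝ) : ℂ) * Complex.exp (-(s * u))) := by
      unfold lapC
      congr 1; funext u
      rw [P.id j u]
      push_cast
      ring
    rw [e4, integral_sub c1 c2, integral_const_mul]
    rfl
  have e3 := lapC_intU' hm hs0 h hs
  have e5 : EP.intU (EP.ria a j) = EP.ria a (j + 1) := rfl
  rw [e5] at e3
  rw [e1] at h3
  refine h3.congr_deriv ?_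
  have e6 : Complex.exp (-((fun s : ℂ => s ^ (j + 1)) * lapC (EP.ria a j)) s) =
      cont (j + 1) (EP.ria a j) (fun _ => 0) s := by
    unfold cont
    simp only [Pi.mul_apply, zero_sub]
  rw [e6, e2, mul_comm]
  congr 1
  rw [← e3]
  push_cast
  ring

theorem Pair.cont_deriv (P : Pair a z) {j : ℕ} (h : ∀ w > 0, LInt (EP.ria a j) w) {s : ℂ}
    (hs : 0 < s.re) : HasDerivAt (cont (j + 1) (EP.ria a j) (fun _ => 0))
      (-(s ^ (j + 1) * lapC (EP.ria z j) s) * cont (j + 1) (EP.ria a j) (fun _ => 0) s) s :=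
  P.cont_deriv' le_rfl h hs

/-- `w Φ'(w) / Φ(w) → ρ` as `w → 0⁺` -/
def LO (Φ : ℂ → ℂ) (ρ : ℝ) : Prop :=
  Tendsto (fun w : ℝ => (w : ℂ) * (deriv Φ w / Φ w)) (𝓝[>] 0) (𝓝 (ρ : ℂ))

/-- the logarithmic derivative on the real axis -/
theorem Pair.real_deriv (P : Pair a z) {Φ : ℂ → ℂ} {c0 : ℝ}
    (D : DataU 1 a Φ (fun _ => 0) c0) {j : ℕ} (h : ∀ w > 0, LInt (EP.ria a j) w) {w : ℝ}
    (hw : 0 < w) : deriv Φ w / Φ w = ((-(w ^ (j + 1) * lap (EP.ria z j) w) : ℝ) : ℂ) := by
  set C := cont (j + 1) (EP.ria a j) (fun _ => 0) with hC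
  have hre : 0 < ((w : ℝ) : ℂ).re := by simpa using hw
  have hd := P.cont_deriv h hre
  have hCa : AnalyticAt ℂ C w := by
    refine Complex.analyticAt_iff_eventually_differentiableAt.mpr ?_
    filter_upwards [(isOpen_half 0).mem_nhds hre] with s hs
    exact (P.cont_deriv h hs).differentiableAt
  have heq : Φ =ᶠ[𝓝 (w : ℂ)] C := by
    refine ((D.hΦ w hw).frequently_eq_iff_eventually_eq hCa).mp ?_
    refine (cast_tendsto w).frequently (Eventually.frequently ?_)
    filter_upwards [self_mem_nhdsWithin] with v hv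
    have hv' : w < v := hv
    exact (D.ria j).eq_of_conv le_rfl h (by linarith)
  rw [heq.deriv_eq, heq.eq_of_nhds, hd.deriv, mul_div_assoc, div_self (cont_ne_zero _), mul_one,
    lapC_ofReal]
  push_cast
  ring

theorem Pair.LO_iff (P : Pair a z) {Φ : ℂ → ℂ} {c0 : ℝ}
    (D : DataU 1 a Φ (fun _ => 0) c0) {j : ℕ} (h : ∀ w > 0, LInt (EP.ria a j) w) {ρ : ℝ} :
    LO Φ ρ ↔ Tendsto (fun w : ℝ => w ^ (j + 1 + 1) * lap (EP.ria z j) w) (𝓝[>] 0) (𝓝 (-ρ)) := by
  have key : ∀ᶠ w : ℝ in 𝓝[>] 0, (w : ℂ) * (deriv Φ w / Φ w) =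
      ((-(w ^ (j + 1 + 1) * lap (EP.ria z j) w) : ℝ) : ℂ) := by
    filter_upwards [self_mem_nhdsWithin] with w hw
    have hw' : (0 : ℝ) < w := hw
    rw [P.real_deriv D h hw']
    push_cast
    ring
  unfold LO
  rw [tendsto_congr' key]
  constructor
  · intro h1
    have h2 : Tendsto (fun w : ℝ => -(w ^ (j + 1 + 1) * lap (EP.ria z j) w)) (𝓝[>] 0) (𝓝 ρ) := by
      have := (Complex.continuous_re.tendsto _).comp h1
      exact this
    simpa using h2.neg
  · intro h1
    have h2 := h1.neg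
    rw [neg_neg] at h2
    exact (Complex.continuous_ofReal.tendsto _).comp h2

end Pool.Agent.W263.MN
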