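import Pool.Agent.W263.MN.Inv
import Pool.Agent.W263.EP.MeansB

/-! Systems of traces: Riesz means of the von Mangoldt sums at the centre. -/

set_option autoImplicit false

namespace Pool.Agent.W263.MN

open MeasureTheory Filter Topology Set Classical
open Pool.Agent.W263.BSD Pool.Agent.W263.EP
open Pool.Agent.H341R2 (NormSys)

variable (S : NormSys) (bad : Set S.X) (tr : S.X → ℕ → ℝ) (ω : ℝ)

/-- Riesz means of the von Mangoldt sums at the centre -/
noncomputable def ZK (k : ℕ) (x : ℝ) : ℝ :=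
  ∑ᶠ p ∈ {p : S.X × ℕ | p.1 ∉ bad ∧ (S.N p.1 : ℝ) ^ (p.2 + 1) ≤ x},
    (1 - ((p.2 : ℝ) + 1) * Real.log (S.N p.1) / Real.log x) ^ k *
      (tr p.1 (p.2 + 1) * Real.log (S.N p.1) *
        (S.N p.1 : ℝ) ^ (-(((p.2 : ℝ) + 1) * ((ω + 1) / 2))))

variable {S bad tr ω} {D : ℝ} {F : ℂ → ℂ}

theorem ZK_eq (k : ℕ) (x : ℝ) : ZK S bad tr ω k x =
    ∑ᶠ p ∈ {p : (pw S).X | p.1 ∉ bad ∧ (((pw S).N p : ℕ) : ℝ) ≤ x},
      (1 - Real.log ((pw S).N p) / Real.log x) ^ k * cz S (tn S bad tr ω) p := by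
  unfold ZK
  have e : {p : S.X × ℕ | p.1 ∉ bad ∧ (S.N p.1 : ℝ) ^ (p.2 + 1) ≤ x} =
      {p : S.X × ℕ | p.1 ∉ bad ∧ ((S.N p.1 ^ (p.2 + 1) : ℕ) : ℝ) ≤ x} := by
    ext p
    simp only [mem_ofPred_eq]
    push_cast
    rfl
  rw [e]
  refine finsum_mem_congr rfl fun p hp => ?_
  have hp1 : p.1 ∉ bad := hp.1
  have e1 : Real.log ((pw S).N p) = ((p.2 : ℝ) + 1) * Real.log (S.N p.1) := pw_log p
  rw [e1]
  congr 1
  show _ = tn S bad tr ω p.1 (p.2 + 1) * Real.log (S.N p.1)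
  unfold tn
  rw [if_neg hp1]
  push_cast
  ring

theorem ria_ZK (k : ℕ) {u : ℝ} (hu : 0 < u) :
    EP.ria (zp S (tn S bad tr ω)) k u = pk k u * ZK S bad tr ω k (Real.exp u) := by
  have hfin : {p : (pw S).X | p.1 ∉ bad ∧ (((pw S).N p : ℕ) : ℝ) ≤ Real.exp u}.Finite :=
    (fin_norm (pw S) (Real.exp u)).subset fun p hp => hp.2
  rw [ZK_eq]
  unfold zp
  rw [ria_stp, finsum_mem_eq_finite_toFinset_sum _ hfin, Finset.mul_sum, Real.log_exp]
  symm
  refine Finset.sum_subset_zero_on_sdiff ?_ ?_ ?_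
  · intro p hp
    rw [Set.Finite.mem_toFinset] at hp ⊢
    exact hp.2
  · intro p hp
    rw [Finset.mem_sdiff, Set.Finite.mem_toFinset, Set.Finite.mem_toFinset] at hp
    have h2 : p.1 ∈ bad := by
      by_contra h
      exact hp.2 ⟨h, hp.1⟩
    unfold cz tn
    rw [if_pos h2]
    simp
  · intro p hp
    unfold pk
    have h3 : 1 - Real.log ((pw S).N p) / u = (u - Real.log ((pw S).N p)) / u := by
      field_simp
    rw [h3, div_pow]
    field_simp

theorem pair (E : TData S (tn S bad tr ω) D) :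
    Pair (ap S (tn S bad tr ω)) (zp S (tn S bad tr ω)) where
  am := ap_meas
  zm := zp_meas
  al := fun U => by
    obtain ⟨B, _, hB⟩ := loc_sys (pw S) (w := 1) zero_le_one (ca_summable E (by norm_num)) U
    exact ⟨B, fun u _ hu => hB u hu⟩
  zl := fun U => by
    obtain ⟨B, _, hB⟩ := loc_sys (pw S) (w := 1) zero_le_one (cz_summable E (by norm_num)) U
    exact ⟨B, fun u _ hu => hB u hu⟩
  id := ria_zp

theorem dataP (E : TData S (tn S bad tr ω) D) (hF : IsCont S bad tr ω F) :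
    DataU 1 (ap S (tn S bad tr ω)) (fun w => F ((ω + 1) / 2 + w)) (fun _ => 0) (1 / 2) := by
  refine ap_dataU E (hF.dataU E).hΦ (fun w hw => ?_)
  have h1 := hF.2 ((ω + 1) / 2 + w) (by linarith)
  have h2 : (((ω + 1) / 2 + w : ℝ) : ℂ) = ((ω : ℂ) + 1) / 2 + (w : ℂ) := by push_cast; ring
  rw [h2] at h1
  rw [h1]
  exact LF_eq E (by simpa using hw)

/-- the continuation to the half plane -/
noncomputable def FCz (S : NormSys) (bad : Set S.X) (tr : S.X → ℕ → ℝ) (ω : ℝ) (k : ℕ) (s : ℂ) : ℂ :=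
  cont (k + 1) (EP.ria (ap S (tn S bad tr ω)) k) (fun _ => 0) (s - (ω + 1) / 2)

theorem ap_half (E : TData S (tn S bad tr ω) D) (k : ℕ) :
    ∀ w > (1 / 2 : ℝ), LInt (EP.ria (ap S (tn S bad tr ω)) k) w := fun _ hw =>
  (ria_lap ap_meas (by linarith) (ap_LInt E hw) k).1

theorem cont_ap (E : TData S (tn S bad tr ω) D) (k : ℕ) {z : ℂ} (hz : 1 / 2 < z.re) :
    cont (k + 1) (EP.ria (ap S (tn S bad tr ω)) k) (fun _ => 0) z =
      cont 1 (aa S (tn S bad tr ω)) (GG S (tn S bad tr ω)) z := by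
  have hI := ap_half E k
  have h1 : AnalyticOnNhd ℂ (cont (k + 1) (EP.ria (ap S (tn S bad tr ω)) k) (fun _ => 0))
      {z : ℂ | 1 / 2 < z.re} := by
    refine DifferentiableOn.analyticOnNhd (fun z hz => ?_) (isOpen_half _)
    have hz' : 1 / 2 < z.re := hz
    refine DifferentiableAt.differentiableWithinAt ?_
    unfold cont
    refine DifferentiableAt.cexp ?_
    exact (differentiableAt_const _).sub ((differentiableAt_id.pow (k + 1)).mul
      (lapC_differentiableAt (ria_meas ap_meas k) hI hz'))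
  have h2 : AnalyticOnNhd ℂ (cont 1 (aa S (tn S bad tr ω)) (GG S (tn S bad tr ω)))
      {z : ℂ | 1 / 2 < z.re} := by
    refine DifferentiableOn.analyticOnNhd (fun z hz => ?_) (isOpen_half _)
    have hz' : 1 / 2 < z.re := hz
    refine DifferentiableAt.differentiableWithinAt ?_
    unfold cont
    refine DifferentiableAt.cexp ?_
    exact (E.GG_diff (by linarith)).sub ((differentiableAt_id.pow 1).mul
      (lapC_differentiableAt TData.aa_meas (fun w hw => E.aa_LInt hw) hz'))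
  have h3 := h1.eqOn_of_preconnected_of_frequently_eq h2 (preconn_half _)
    (show ((1 : ℝ) : ℂ) ∈ {z : ℂ | 1 / 2 < z.re} by
      show (1 : ℝ) / 2 < ((1 : ℝ) : ℂ).re
      rw [Complex.ofReal_re]; norm_num) ?_
  · exact h3 hz
  · refine (cast_tendsto 1).frequently (Eventually.frequently ?_)
    filter_upwards [self_mem_nhdsWithin] with w hw
    have hw1 : (1 : ℝ) < w := hw
    have hre : 1 / 2 < ((w : ℝ) : ℂ).re := by rw [Complex.ofReal_re]; linarith
    obtain ⟨_, h5⟩ := ria_lap (ap_meas (S := S) (t := tn S bad tr ω)) (show 0 < w by linarith)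
      (ap_LInt E (show 1 / 2 < w by linarith)) k
    rw [E.cont_eq hre, LL_ap E (show 1 / 2 < w by linarith)]
    unfold cont
    rw [lapC_ofReal, ← h5]
    congr 1
    push_cast
    ring

theorem FCz_eq (E : TData S (tn S bad tr ω) D) (k : ℕ) {s : ℂ} (hs : (ω + 2) / 2 < s.re) :
    FCz S bad tr ω k s = LF S bad tr s := by
  have hre : 1 / 2 < (s - ((ω : ℂ) + 1) / 2).re := by rw [re_shift]; linarith
  rw [← FC_eq E hs]
  unfold FCz FC
  exact cont_ap E k hre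

theorem FCz_isFull (E : TData S (tn S bad tr ω) D) (k : ℕ)
    (hconv : ∀ w > 0, LInt (EP.ria (ap S (tn S bad tr ω)) k) w) :
    IsFull S bad tr ω (FCz S bad tr ω k) := by
  refine ⟨fun s hs => ?_, fun s _ => cont_ne_zero _, fun _ hs => FCz_eq E k hs⟩
  have hs' : (ω + 1) / 2 < s.re := hs
  have hre : 0 < (s - ((ω : ℂ) + 1) / 2).re := by rw [re_shift]; linarith
  refine DifferentiableAt.differentiableWithinAt ?_
  unfold FCz
  refine DifferentiableAt.comp
    (g := cont (k + 1) (EP.ria (ap S (tn S bad tr ω)) k) (fun _ => 0)) s ?_ (by fun_prop)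
  unfold cont
  refine DifferentiableAt.cexp ?_
  exact (differentiableAt_const _).sub ((differentiableAt_id.pow (k + 1)).mul
    (lapC_differentiableAt (ria_meas ap_meas k) hconv hre))

/-- `F` has no zeros near `c` on the right and `(s - c) F'(s) / F(s) → ρ` as `s → c⁺` -/
def LOrd (c : ℝ) (F : ℂ → ℂ) (ρ : ℝ) : Prop :=
  (∀ᶠ s : ℝ in 𝓝[>] c, F s ≠ 0) ∧
    Tendsto (fun s : ℝ => ((s : ℂ) - c) * (deriv F s / F s)) (𝓝[>] c) (𝓝 (ρ : ℂ))

theorem LOrd.shift {ρ : ℝ} (h : LOrd ((ω + 1) / 2) F ρ) :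
    LO (fun w => F (((ω : ℂ) + 1) / 2 + w)) ρ := by
  have h1 := h.2.comp (shift_nhds ((ω + 1) / 2))
  refine h1.congr fun w => ?_
  simp only [Function.comp, centre_cast]
  rw [deriv_comp_const_add]
  congr 1
  push_cast
  ring

theorem LOrd.unshift {ρ : ℝ} (hne : ∀ s : ℝ, (ω + 1) / 2 < s → F s ≠ 0)
    (h : LO (fun w => F (((ω : ℂ) + 1) / 2 + w)) ρ) : LOrd ((ω + 1) / 2) F ρ := by
  refine ⟨?_, ?_⟩
  · filter_upwards [self_mem_nhdsWithin] with s hs using hne s hs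
  · have h1 := h.comp (shift_nhds' ((ω + 1) / 2))
    refine h1.congr fun s => ?_
    simp only [Function.comp]
    rw [deriv_comp_const_add]
    have e : ((ω : ℂ) + 1) / 2 + ((s - (ω + 1) / 2 : ℝ) : ℂ) = s := by push_cast; ring
    rw [e]
    congr 1
    push_cast
    ring

theorem ZK_iff {k : ℕ} {ρ : ℝ} :
    Tendsto (fun x : ℝ => ZK S bad tr ω k x / Real.log x) atTop (𝓝 (-ρ / (k + 1))) ↔
      Tendsto (fun u : ℝ => EP.ria (zp S (tn S bad tr ω)) k u / pk (k + 1) u) atTop (𝓝 (-ρ)) := by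
  have hk : ((k : ℝ) + 1) ≠ 0 := by positivity
  have key : ∀ᶠ u : ℝ in atTop, ((k : ℝ) + 1) * (ZK S bad tr ω k (Real.exp u) /
      Real.log (Real.exp u)) = EP.ria (zp S (tn S bad tr ω)) k u / pk (k + 1) u := by
    filter_upwards [eventually_gt_atTop 0] with u hu
    rw [ria_ZK k hu, Real.log_exp]
    unfold pk
    rw [Nat.factorial_succ]
    have : (k.factorial : ℝ) ≠ 0 := by positivity
    push_cast
    field_simp
    ring
  constructor
  · intro h
    have h1 := ((h.comp Real.tendsto_exp_atTop).const_mul ((k : ℝ) + 1)).congr' key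
    have e : ((k : ℝ) + 1) * (-ρ / (k + 1)) = -ρ := by field_simp
    rwa [e] at h1
  · intro h
    have h1 := ((h.congr' (key.mono fun u hu => hu.symm)).comp Real.tendsto_log_atTop).const_mul
      (1 / ((k : ℝ) + 1))
    have e : 1 / ((k : ℝ) + 1) * -ρ = -ρ / (k + 1) := by ring
    rw [e] at h1
    refine h1.congr' ?_
    filter_upwards [eventually_gt_atTop 0] with x hx
    simp only [Function.comp, Real.exp_log hx]
    field_simp

theorem pk_mul (k : ℕ) (u : ℝ) : pk k u * u = ((k : ℝ) + 1) * pk (k + 1) u := by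
  unfold pk
  rw [Nat.factorial_succ]
  have : (k.factorial : ℝ) ≠ 0 := by positivity
  have : ((k : ℝ) + 1) ≠ 0 := by positivity
  push_cast
  field_simp
  ring

theorem ZK_lower {k : ℕ} {K : ℝ}
    (h : ∀ᶠ x : ℝ in atTop, -(K * Real.log x) ≤ ZK S bad tr ω k x) :
    ∀ᶠ u : ℝ in atTop, -((K * ((k : ℝ) + 1)) * pk (k + 1) u) ≤
      EP.ria (zp S (tn S bad tr ω)) k u := by
  filter_upwards [Real.tendsto_exp_atTop.eventually h, eventually_gt_atTop 0] with u h1 hu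
  rw [Real.log_exp] at h1
  rw [ria_ZK k hu]
  have h2 := mul_le_mul_of_nonneg_left h1 (pk_nonneg k hu.le)
  have h3 := pk_mul k u
  have h4 : K * ((k : ℝ) + 1) * pk (k + 1) u = K * (pk k u * u) := by rw [h3]; ring
  rw [h4]
  linarith

theorem ZK_upper {k : ℕ} {K : ℝ}
    (h : ∀ᶠ x : ℝ in atTop, ZK S bad tr ω k x ≤ K * Real.log x) :
    ∀ᶠ u : ℝ in atTop, EP.ria (zp S (tn S bad tr ω)) k u ≤ (K * ((k : ℝ) + 1)) * pk (k + 1) u := by
  filter_upwards [Real.tendsto_exp_atTop.eventually h, eventually_gt_atTop 0] with u h1 hu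
  rw [Real.log_exp] at h1
  rw [ria_ZK k hu]
  have h2 := mul_le_mul_of_nonneg_left h1 (pk_nonneg k hu.le)
  have h3 := pk_mul k u
  have h4 : K * ((k : ℝ) + 1) * pk (k + 1) u = K * (pk k u * u) := by rw [h3]; ring
  rw [h4]
  linarith

/-- **Von Mangoldt means and the order.** -/
theorem zk_tfae (E : TData S (tn S bad tr ω) D) (ρ : ℝ) :
    List.TFAE [
      ∃ k : ℕ, Tendsto (fun x : ℝ => ZK S bad tr ω k x / Real.log x) atTop (𝓝 (-ρ / (k + 1))),
      (∃ F : ℂ → ℂ, IsCont S bad tr ω F ∧ LOrd ((ω + 1) / 2) F ρ) ∧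
        ∃ (k : ℕ) (K : ℝ), ∀ᶠ x : ℝ in atTop, -(K * Real.log x) ≤ ZK S bad tr ω k x,
      (∃ F : ℂ → ℂ, IsCont S bad tr ω F ∧ LOrd ((ω + 1) / 2) F ρ ∧
        ∀ s : ℝ, (ω + 1) / 2 < s → F s ≠ 0) ∧
        ∃ (k : ℕ) (K : ℝ), ∀ᶠ x : ℝ in atTop, ZK S bad tr ω k x ≤ K * Real.log x,
      (∃ F : ℂ → ℂ, IsFull S bad tr ω F ∧ LOrd ((ω + 1) / 2) F ρ) ∧
        ∃ (k : ℕ) (K : ℝ), ∀ᶠ x : ℝ in atTop, |ZK S bad tr ω k x| ≤ K * Real.log x] := by
  have P := pair E
  tfae_have 1 → 4 := by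
    rintro ⟨k, h⟩
    obtain ⟨hconv, h2⟩ := P.abel (ZK_iff.mp h)
    have hF := FCz_isFull E (k + 2) hconv
    refine ⟨⟨FCz S bad tr ω (k + 2), hF, ?_⟩, k, |(-ρ / (k + 1) : ℝ)| + 1, ?_⟩
    · exact LOrd.unshift (fun s hs => hF.2.1 s (by simpa using hs))
        ((P.LO_iff (dataP E hF.isCont) hconv).mpr h2)
    · have h3 := (Metric.tendsto_nhds.mp h) 1 one_pos
      filter_upwards [h3, eventually_gt_atTop 1] with x h4 h5
      rw [Real.dist_eq] at h4
      have hl : 0 < Real.log x := Real.log_pos h5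
      have h6 : |ZK S bad tr ω k x / Real.log x| ≤ |(-ρ / (k + 1) : ℝ)| + 1 := by
        have := abs_add_le (ZK S bad tr ω k x / Real.log x - (-ρ / (k + 1))) (-ρ / (k + 1))
        rw [sub_add_cancel] at this
        linarith
      rw [abs_div, abs_of_pos hl, div_le_iff₀ hl] at h6
      exact h6
  tfae_have 4 → 2 := by
    rintro ⟨⟨F, hF, hO⟩, k, K, hK⟩
    exact ⟨⟨F, hF.isCont, hO⟩, k, K, hK.mono fun x hx => (abs_le.mp hx).1⟩
  tfae_have 4 → 3 := by
    rintro ⟨⟨F, hF, hO⟩, k, K, hK⟩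
    exact ⟨⟨F, hF.isCont, hO, fun s hs => hF.2.1 s (by simpa using hs)⟩, k, K,
      hK.mono fun x hx => (abs_le.mp hx).2⟩
  tfae_have 2 → 1 := by
    rintro ⟨⟨F, hF, hO⟩, k, K, hK⟩
    refine ⟨k + 3, ZK_iff.mpr ?_⟩
    exact P.tauber (dataP E hF) hO.shift (ZK_lower hK)
  tfae_have 3 → 1 := by
    rintro ⟨⟨F, hF, hO, hne⟩, k, K, hK⟩
    refine ⟨k + 3, ZK_iff.mpr ?_⟩
    exact P.tauber_upper (dataP E hF) hO.shift (Phi_ne hne) (ZK_upper hK)
  tfae_finish

end Pool.Agent.W263.MN
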