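import Pool.Agent.W263.MN.Mero
import Pool.Agent.W263.MN.BC

/-! The size of the von Mangoldt means and the growth of the logarithmic derivative. -/

set_option autoImplicit false

namespace Pool.Agent.W263.MN

open MeasureTheory Filter Topology Set Classical
open Pool.Agent.W263.BSD Pool.Agent.W263.EP
open Pool.Agent.H341R2 (NormSys)

/-- transforms of powers in the half plane -/
theorem lapC_pk (n : ℕ) {w : ℂ} (hw : 0 < w.re) : w ^ (n + 1) * lapC (pk n) w = 1 := by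
  have h1 : AnalyticOnNhd ℂ (fun w : ℂ => w ^ (n + 1) * lapC (pk n) w) {z : ℂ | 0 < z.re} := by
    refine DifferentiableOn.analyticOnNhd (fun z hz => ?_) (isOpen_half _)
    exact ((differentiableAt_id.pow (n + 1)).mul
      (lapC_differentiableAt (pk_meas n) (fun w hw => pk_LInt n hw) hz)).differentiableWithinAt
  have h2 : AnalyticOnNhd ℂ (fun _ : ℂ => (1 : ℂ)) {z : ℂ | 0 < z.re} := fun _ _ =>
    analyticAt_const
  have h3 := h1.eqOn_of_preconnected_of_frequently_eq h2 (preconn_half _)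
    (show ((1 : ℝ) : ℂ) ∈ {z : ℂ | 0 < z.re} by
      show (0 : ℝ) < ((1 : ℝ) : ℂ).re
      rw [Complex.ofReal_re]; norm_num) ?_
  · exact h3 hw
  · refine (cast_tendsto 1).frequently (Eventually.frequently ?_)
    filter_upwards [self_mem_nhdsWithin] with w hw
    have hw1 : (1 : ℝ) < w := hw
    have hw0 : (0 : ℝ) < w := by linarith
    rw [lapC_ofReal, pk_lap n hw0]
    have : (w : ℂ) ≠ 0 := by exact_mod_cast hw0.ne'
    push_cast
    field_simp

theorem lapC_norm {f g : ℝ → ℝ} {w : ℂ} (hg : LInt g w.re) (h : ∀ u, 0 < u → |f u| ≤ g u) :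
    ‖lapC f w‖ ≤ lap g w.re := by
  unfold lapC lap
  refine norm_integral_le_of_norm_le hg ?_
  refine (ae_restrict_iff' measurableSet_Ioi).mpr (Eventually.of_forall fun u hu => ?_)
  have hu0 : (0 : ℝ) < u := hu
  rw [norm_mul, Complex.norm_exp, Complex.norm_real, Real.norm_eq_abs]
  have e1 : (-(w * (u : ℂ))).re = -(w.re * u) := by simp
  rw [e1]
  exact mul_le_mul_of_nonneg_right (h u hu0) (Real.exp_pos _).le

variable {S : NormSys} {bad : Set S.X} {tr : S.X → ℕ → ℝ} {ω D : ℝ} {F G : ℂ → ℂ} {n : ℤ}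

theorem c_cast : (((ω + 1) / 2 : ℝ) : ℂ) = ((ω : ℂ) + 1) / 2 := by push_cast; ring

theorem full_unique (hF : IsFull S bad tr ω F) (hG : IsFull S bad tr ω G) {s : ℂ}
    (hs : (ω + 1) / 2 < s.re) : F s = G s := by
  have h1 : AnalyticOnNhd ℂ F {s : ℂ | (ω + 1) / 2 < s.re} := hF.1.analyticOnNhd (isOpen_half _)
  have h2 : AnalyticOnNhd ℂ G {s : ℂ | (ω + 1) / 2 < s.re} := hG.1.analyticOnNhd (isOpen_half _)
  have h3 := h1.eqOn_of_preconnected_of_eventuallyEq h2 (preconn_half _)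
    (show (((ω + 2) / 2 + 1 : ℝ) : ℂ) ∈ {s : ℂ | (ω + 1) / 2 < s.re} by
      show (ω + 1) / 2 < (((ω + 2) / 2 + 1 : ℝ) : ℂ).re
      rw [Complex.ofReal_re]; linarith) ?_
  · exact h3 hs
  · filter_upwards [(isOpen_half ((ω + 2) / 2)).mem_nhds
      (show (ω + 2) / 2 < (((ω + 2) / 2 + 1 : ℝ) : ℂ).re by
        rw [Complex.ofReal_re]; linarith)] with z hz
    rw [hF.2.2 z hz, hG.2.2 z hz]

theorem cont_eq_full (hF : IsCont S bad tr ω F) (hG : IsFull S bad tr ω G) {s : ℝ}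
    (hs : (ω + 1) / 2 < s) : F s = G s := by
  have h1 : AnalyticOnNhd ℝ (fun w : ℝ => F w) (Ioi ((ω + 1) / 2)) := fun x hx =>
    ((hF.1 x hx).restrictScalars (𝕜 := ℝ)).comp (Complex.ofRealCLM.analyticAt x)
  have h2 : AnalyticOnNhd ℝ (fun w : ℝ => G w) (Ioi ((ω + 1) / 2)) := fun x hx =>
    ((hG.isCont.1 x hx).restrictScalars (𝕜 := ℝ)).comp (Complex.ofRealCLM.analyticAt x)
  have h3 := h1.eqOn_of_preconnected_of_eventuallyEq h2 (convex_Ioi _).isPreconnected
    (show (ω + 2) / 2 + 1 ∈ Ioi ((ω + 1) / 2) by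
      show (ω + 1) / 2 < _
      linarith) ?_
  · exact h3 hs
  · filter_upwards [isOpen_Ioi.mem_nhds
      (show (ω + 2) / 2 + 1 ∈ Ioi ((ω + 2) / 2) by show (ω + 2) / 2 < _; linarith)] with z hz
    have hz' : (ω + 2) / 2 < z := hz
    rw [hF.2 z hz', hG.2.2 z (by simpa using hz')]

theorem FCz_ld (E : TData S (tn S bad tr ω) D) (j : ℕ) {s0 : ℝ} (hs0 : 0 ≤ s0)
    (h : ∀ w > s0, LInt (EP.ria (ap S (tn S bad tr ω)) j) w) {s : ℂ}
    (hs : s0 < s.re - (ω + 1) / 2) :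
    deriv (FCz S bad tr ω j) s / FCz S bad tr ω j s =
      -((s - ((ω : ℂ) + 1) / 2) ^ (j + 1) *
        lapC (EP.ria (zp S (tn S bad tr ω)) j) (s - ((ω : ℂ) + 1) / 2)) := by
  have h1 := (pair E).cont_deriv' hs0 h (s := s - ((ω : ℂ) + 1) / 2) (by rw [re_shift]; exact hs)
  have h2 := h1.comp_sub_const s (((ω : ℂ) + 1) / 2)
  have h3 : deriv (FCz S bad tr ω j) s = _ := h2.deriv
  have h4 : FCz S bad tr ω j s ≠ 0 := cont_ne_zero _
  rw [h3]
  unfold FCz at h4 ⊢
  rw [mul_div_assoc, div_self h4, mul_one]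

/-- **From the logarithmic derivative to the means.** -/
theorem mean_of_ld (E : TData S (tn S bad tr ω) D) (hF : IsCont S bad tr ω F)
    (hm : MeromorphicAt F (((ω + 1) / 2 : ℝ) : ℂ))
    (hn : meromorphicOrderAt F (((ω + 1) / 2 : ℝ) : ℂ) = n) (hG : IsFull S bad tr ω G)
    {β C : ℝ} {A i : ℕ} (hβ : β ≤ i + 1 / 2) (hβ0 : 0 ≤ β) (hA : 1 ≤ A)
    (hC : ∀ s : ℂ, (ω + 1) / 2 < s.re → s.re ≤ (ω + 1) / 2 + 1 → ‖deriv G s / G s‖ ≤
      C * ((1 + ‖s - (((ω + 1) / 2 : ℝ) : ℂ)‖) ^ β * (1 / (s.re - (ω + 1) / 2)) ^ A)) :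
    ∃ C' : ℝ, ∀ u : ℝ, 1 ≤ u → |EP.ria (zp S (tn S bad tr ω)) (i + 1) u + n * pk (i + 2) u| ≤
      C' * (u ^ (i + 1) + u ^ A) := by
  set c : ℝ := (ω + 1) / 2 with hc
  have hcc : (c : ℂ) = ((ω : ℂ) + 1) / 2 := c_cast
  have P := pair E
  have hGd : ∀ s : ℂ, c < s.re → DifferentiableAt ℂ G s := fun s hs =>
    hG.1.differentiableAt ((isOpen_half c).mem_nhds hs)
  have hG' : DifferentiableOn ℂ (deriv G) {s : ℂ | c < s.re} := hG.1.deriv (isOpen_half c)
  set h : ℂ → ℂ := fun w => -(deriv G (c + w) / G (c + w)) + n / w with hh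
  have hre : ∀ w : ℂ, ((c : ℂ) + w).re = c + w.re := fun w => by
    rw [Complex.add_re, Complex.ofReal_re]
  have hne : ∀ w : ℂ, 0 < w.re → w ≠ 0 := by
    rintro w hw rfl
    simp at hw
  have hd : ∀ w : ℂ, 0 < w.re → DifferentiableAt ℂ h w := by
    intro w hw
    have hw' : c < ((c : ℂ) + w).re := by rw [hre]; linarith
    have e1 : DifferentiableAt ℂ (fun w : ℂ => (c : ℂ) + w) w := by fun_prop
    have e2 : DifferentiableAt ℂ (fun w : ℂ => deriv G (c + w)) w :=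
      DifferentiableAt.comp (g := deriv G) w
        (hG'.differentiableAt ((isOpen_half c).mem_nhds hw')) e1
    have e3 : DifferentiableAt ℂ (fun w : ℂ => G (c + w)) w :=
      DifferentiableAt.comp (g := G) w (hGd _ hw') e1
    exact (e2.div e3 (hG.2.1 _ hw')).fun_neg.add
      ((differentiableAt_const _).div differentiableAt_id (hne w hw))
  obtain ⟨δ, hδ, M, hM⟩ := near_centre hm hn hGd (fun s hs => cont_eq_full hF hG hs)
  have hzi : ∀ w > (1 / 2 : ℝ), LInt (EP.ria (zp S (tn S bad tr ω)) (i + 1)) w :=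
    P.z_LInt' (by norm_num) (ap_half E (i + 1))
  have hfm : Measurable fun u => EP.ria (zp S (tn S bad tr ω)) (i + 1) u + n * pk (i + 2) u :=
    (ria_meas P.zm _).add ((pk_meas _).const_mul _)
  have hf1 : LInt (fun u => EP.ria (zp S (tn S bad tr ω)) (i + 1) u + n * pk (i + 2) u) 1 :=
    (hzi 1 (by norm_num)).add ((pk_LInt _ one_pos).const_mul _)
  refine inv_bound (f := fun u => EP.ria (zp S (tn S bad tr ω)) (i + 1) u + n * pk (i + 2) u)
    (h := h) (i := i) (A := A) (β := β) (M := M) (C := |C| + |(n : ℝ)|) (δ := δ / 2)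
    hfm (fun u hu => ?_) hf1 hd (half_pos hδ) hβ (fun w hw hwδ => ?_) (fun w hw hw1 => ?_)
    (fun w hw => ?_)
  · refine ContinuousAt.add (intU_cont (ria_meas P.zm i) (P.zl.ria i) hu) ?_
    have : Continuous (pk (i + 2)) := by unfold pk; fun_prop
    exact (this.const_mul _).continuousAt
  · have e1 := hM (c + w) (by rw [hre]; linarith) (by rw [add_sub_cancel_left]; linarith)
    rw [add_sub_cancel_left] at e1
    rw [hh, ← norm_neg]
    refine le_trans (le_of_eq ?_) e1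
    congr 1
    ring
  · have e1 := hC (c + w) (by rw [hre]; linarith) (by rw [hre]; linarith)
    rw [add_sub_cancel_left, hre, add_sub_cancel_left] at e1
    have e0 : 1 ≤ 1 / w.re := by rw [one_le_div hw]; exact hw1
    have e2 : 1 ≤ (1 + ‖w‖) ^ β := Real.one_le_rpow (by linarith [norm_nonneg w]) hβ0
    have e3 : 1 / w.re ≤ (1 / w.re) ^ A := by
      calc 1 / w.re = (1 / w.re) ^ 1 := (pow_one _).symm
        _ ≤ _ := pow_le_pow_right₀ e0 hA
    have e4 : 0 ≤ 1 / w.re := by linarith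
    have e5 : 1 / w.re ≤ (1 + ‖w‖) ^ β * (1 / w.re) ^ A := by
      calc 1 / w.re = 1 * (1 / w.re) := (one_mul _).symm
        _ ≤ _ := mul_le_mul e2 e3 e4 (by linarith)
    have e6 : ‖(n : ℂ) / w‖ ≤ |(n : ℝ)| * ((1 + ‖w‖) ^ β * (1 / w.re) ^ A) := by
      rw [norm_div, div_eq_mul_one_div]
      have e7 : ‖(n : ℂ)‖ = |(n : ℝ)| := by
        rw [← Complex.ofReal_intCast, Complex.norm_real, Real.norm_eq_abs]
      rw [e7]
      refine mul_le_mul_of_nonneg_left (le_trans ?_ e5) (abs_nonneg _)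
      exact one_div_le_one_div_of_le hw (re_le w)
    have e8 : ‖deriv G (c + w) / G (c + w)‖ ≤ |C| * ((1 + ‖w‖) ^ β * (1 / w.re) ^ A) :=
      e1.trans (mul_le_mul_of_nonneg_right (le_abs_self C) (by positivity))
    refine (norm_add_le _ _).trans ?_
    rw [norm_neg, add_mul]
    exact add_le_add e8 e6
  · have hw0 : 0 < w.re := by rw [hw]; exact one_pos
    have hwne := hne w hw0
    have hs : (ω + 2) / 2 < ((c : ℂ) + w).re := by rw [hre, hw, hc]; linarith
    -- the logarithmic derivative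
    have e1 : G =ᶠ[𝓝 ((c : ℂ) + w)] FCz S bad tr ω (i + 1) := by
      filter_upwards [(isOpen_half ((ω + 2) / 2)).mem_nhds hs] with t ht
      rw [hG.2.2 t ht, FCz_eq E (i + 1) ht]
    have e2 := FCz_ld E (i + 1) (s0 := 1 / 2) (by norm_num) (ap_half E (i + 1))
      (s := (c : ℂ) + w) (by rw [hre, hw, ← hc]; linarith)
    rw [← hcc, add_sub_cancel_left] at e2
    have e3 : lapC (fun u => EP.ria (zp S (tn S bad tr ω)) (i + 1) u + n * pk (i + 2) u) w =
        lapC (EP.ria (zp S (tn S bad tr ω)) (i + 1)) w + n * lapC (pk (i + 2)) w := by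
      have c1 := LInt.complex (ria_meas P.zm (i + 1)) (z := w) (hzi w.re (by rw [hw]; norm_num))
      have c2 := (LInt.complex (pk_meas (i + 2)) (z := w) (pk_LInt _ hw0)).const_mul (n : ℂ)
      have e4 : lapC (fun u => EP.ria (zp S (tn S bad tr ω)) (i + 1) u + n * pk (i + 2) u) w =
          ∫ u in Ioi (0 : ℝ), (((EP.ria (zp S (tn S bad tr ω)) (i + 1) u : ℝ) : ℂ) *
            Complex.exp (-(w * u)) + (n : ℂ) * (((pk (i + 2) u : ℝ) : ℂ) *
            Complex.exp (-(w * u)))) := by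
        unfold lapC
        congr 1; funext u
        push_cast
        ring
      rw [e4, integral_add c1 c2, integral_const_mul]
      rfl
    have e5 := lapC_pk (i + 2) hw0
    rw [e3, mul_add, hh]
    simp only []
    rw [e1.deriv_eq, e1.eq_of_nhds, e2, neg_neg]
    congr 1
    have e6 : w ^ (i + 2) * ((n : ℂ) * lapC (pk (i + 2)) w) =
        (n : ℂ) / w * (w ^ (i + 2 + 1) * lapC (pk (i + 2)) w) := by
      field_simp
      ring
    rw [e6, e5, mul_one]

/-- polynomial growth of the logarithmic derivative near the vertical line through `c` -/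
def LDB (c : ℝ) (G : ℂ → ℂ) : Prop :=
  ∃ (C : ℝ) (A : ℕ), ∀ s : ℂ, c < s.re → s.re ≤ c + 1 →
    ‖deriv G s / G s‖ ≤ C * ((1 + ‖s‖) / (s.re - c)) ^ A

theorem one_add_le (c : ℝ) (s : ℂ) : 1 + ‖s‖ ≤ (1 + |c|) * (1 + ‖s - c‖) ∧
    1 + ‖s - c‖ ≤ (1 + |c|) * (1 + ‖s‖) := by
  have h1 := norm_add_le (s - c) (c : ℂ)
  have h2 := norm_sub_le s (c : ℂ)
  rw [sub_add_cancel] at h1
  rw [Complex.norm_real, Real.norm_eq_abs] at h1 h2
  have h3 := abs_nonneg c
  have h4 := norm_nonneg s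
  have h5 := norm_nonneg (s - (c : ℂ))
  constructor <;> nlinarith

/-- bounded means from the growth of the logarithmic derivative -/
theorem means_of_LDB (E : TData S (tn S bad tr ω) D) (hF : IsCont S bad tr ω F)
    (hm : MeromorphicAt F (((ω + 1) / 2 : ℝ) : ℂ))
    (hn : meromorphicOrderAt F (((ω + 1) / 2 : ℝ) : ℂ) = n) (hG : IsFull S bad tr ω G)
    (hL : LDB ((ω + 1) / 2) G) :
    ∃ (k : ℕ) (C : ℝ), ∀ᶠ x : ℝ in atTop,
      |ZK S bad tr ω k x + n / (k + 1) * Real.log x| ≤ C := by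
  obtain ⟨C, A, hC⟩ := hL
  set c : ℝ := (ω + 1) / 2 with hc
  obtain ⟨C', hC'⟩ := mean_of_ld E hF hm hn hG (β := A) (C := |C| * (1 + |c|) ^ A) (A := A + 1)
    (i := A) (by linarith) (Nat.cast_nonneg A) (by omega) (fun s h1 h2 => by
      have h3 := hC s h1 h2
      have h4 : 0 < s.re - c := by linarith
      have h5 : 1 ≤ 1 / (s.re - c) := by rw [one_le_div h4]; linarith
      have h6 := (one_add_le c s).1
      have h7 : ((1 + ‖s‖) / (s.re - c)) ^ A ≤
          (1 + |c|) ^ A * ((1 + ‖s - c‖) ^ A * (1 / (s.re - c)) ^ (A + 1)) := by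
        have e1 : ((1 + ‖s‖) / (s.re - c)) ^ A = (1 + ‖s‖) ^ A * (1 / (s.re - c)) ^ A := by
          rw [← mul_pow]; congr 1; ring
        have e2 : (1 + ‖s‖) ^ A ≤ (1 + |c|) ^ A * (1 + ‖s - c‖) ^ A := by
          rw [← mul_pow]
          exact pow_le_pow_left₀ (by positivity) h6 A
        have e3 : (1 / (s.re - c)) ^ A ≤ (1 / (s.re - c)) ^ (A + 1) :=
          pow_le_pow_right₀ h5 (by omega)
        rw [e1, ← mul_assoc]
        exact mul_le_mul e2 e3 (by positivity) (by positivity)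
      have h8 : 0 ≤ ((1 + ‖s‖) / (s.re - c)) ^ A := by positivity
      rw [Real.rpow_natCast]
      calc ‖deriv G s / G s‖ ≤ |C| * ((1 + ‖s‖) / (s.re - c)) ^ A :=
            h3.trans (mul_le_mul_of_nonneg_right (le_abs_self C) h8)
        _ ≤ |C| * ((1 + |c|) ^ A * ((1 + ‖s - c‖) ^ A * (1 / (s.re - c)) ^ (A + 1))) :=
            mul_le_mul_of_nonneg_left h7 (abs_nonneg C)
        _ = _ := by ring)
  refine ⟨A + 1, 2 * |C'| * (A + 1).factorial, ?_⟩
  filter_upwards [Real.tendsto_log_atTop.eventually (eventually_ge_atTop 1),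
    eventually_gt_atTop 0] with x hx hx0
  set u : ℝ := Real.log x with hu
  have hxu : x = Real.exp u := by rw [hu, Real.exp_log hx0]
  have hu0 : 0 < u := by linarith
  have h1 := hC' u hx
  rw [ria_ZK _ hu0, ← hxu] at h1
  have hpk : 0 < pk (A + 1) u := by unfold pk; positivity
  have e1 : (n : ℝ) * pk (A + 2) u = pk (A + 1) u * (n / (((A + 1 : ℕ) : ℝ) + 1) * u) := by
    have := pk_mul (A + 1) u
    have e2 : (((A + 1 : ℕ) : ℝ) + 1) ≠ 0 := by positivity
    rw [mul_comm (_ / _) u, ← mul_assoc, this]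
    field_simp
  rw [e1, ← mul_add, abs_mul, abs_of_pos hpk] at h1
  have h2 : pk (A + 1) u * |ZK S bad tr ω (A + 1) x + n / (((A + 1 : ℕ) : ℝ) + 1) * u| ≤
      pk (A + 1) u * (2 * |C'| * (A + 1).factorial) := by
    refine h1.trans ?_
    have e3 : pk (A + 1) u * (2 * |C'| * (A + 1).factorial) = 2 * |C'| * u ^ (A + 1) := by
      unfold pk
      have : ((A + 1).factorial : ℝ) ≠ 0 := by positivity
      field_simp
    rw [e3]
    have e4 : C' * (u ^ (A + 1) + u ^ (A + 1)) ≤ |C'| * (u ^ (A + 1) + u ^ (A + 1)) :=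
      mul_le_mul_of_nonneg_right (le_abs_self C') (by positivity)
    linarith
  exact le_of_mul_le_mul_left h2 hpk

/-- growth of the logarithmic derivative from a lower bound for the means -/
theorem LDB_of_lower (E : TData S (tn S bad tr ω) D) (hF : IsCont S bad tr ω F) {ρ : ℝ}
    (hO : LOrd ((ω + 1) / 2) F ρ) {k : ℕ} {K : ℝ}
    (h : ∀ᶠ x : ℝ in atTop, -(K * Real.log x) ≤ ZK S bad tr ω k x) :
    ∃ G : ℂ → ℂ, IsFull S bad tr ω G ∧ LDB ((ω + 1) / 2) G := by
  have P := pair E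
  have h1 := ZK_lower h
  have hconv2 := P.conv_of_lower (dataP E hF) h1
  have hlim := P.tauber (dataP E hF) hO.shift h1
  set c : ℝ := (ω + 1) / 2 with hc
  have hcc : (c : ℂ) = ((ω : ℂ) + 1) / 2 := c_cast
  have hconv : ∀ w > 0, LInt (EP.ria (ap S (tn S bad tr ω)) (k + 3)) w := fun w hw =>
    (lap_intU (ria_meas P.am (k + 2)) hw (hconv2 w hw)).1
  have hG := FCz_isFull E (k + 3) hconv
  refine ⟨FCz S bad tr ω (k + 3), hG, ?_⟩
  -- bound for the mean
  have hev : ∀ᶠ u : ℝ in atTop, |EP.ria (zp S (tn S bad tr ω)) (k + 3) u / pk (k + 4) u| ≤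
      |ρ| + 1 := by
    have h3 := (Metric.tendsto_nhds.mp hlim) 1 one_pos
    filter_upwards [h3] with u h4
    rw [Real.dist_eq] at h4
    have := abs_add_le (EP.ria (zp S (tn S bad tr ω)) (k + 3) u / pk (k + 4) u - -ρ) (-ρ)
    rw [sub_add_cancel, abs_neg] at this
    linarith
  have hlo : ∀ᶠ u : ℝ in atTop, -((|ρ| + 1) * pk (k + 4) u) ≤
      EP.ria (zp S (tn S bad tr ω)) (k + 3) u := by
    filter_upwards [hev, eventually_gt_atTop 0] with u h2 hu
    have hpk : 0 < pk (k + 4) u := by unfold pk; positivity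
    rw [abs_div, abs_of_pos hpk, div_le_iff₀ hpk] at h2
    exact (abs_le.mp h2).1
  have hup : ∀ᶠ u : ℝ in atTop, EP.ria (zp S (tn S bad tr ω)) (k + 3) u ≤
      (|ρ| + 1) * pk (k + 4) u := by
    filter_upwards [hev, eventually_gt_atTop 0] with u h2 hu
    have hpk : 0 < pk (k + 4) u := by unfold pk; positivity
    rw [abs_div, abs_of_pos hpk, div_le_iff₀ hpk] at h2
    exact (abs_le.mp h2).2
  obtain ⟨L1, hL1, m1⟩ := maj_lower (P.zl.ria (k + 3)) hlo
  obtain ⟨L2, hL2, m2⟩ := maj_upper (P.zl.ria (k + 3)) hup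
  have hmaj : ∀ u, 0 < u → |EP.ria (zp S (tn S bad tr ω)) (k + 3) u| ≤
      maj (k + 4) (|ρ| + 1) (L1 + L2) u := by
    intro u hu
    have e1 := m1 u hu
    have e2 := m2 u hu
    have hex : 0 < ex (-1) u := by unfold ex; positivity
    unfold maj at e1 e2 ⊢
    have e3 := mul_nonneg hL1 hex.le
    have e4 := mul_nonneg hL2 hex.le
    rw [abs_le]
    constructor <;> linarith
  refine ⟨(|ρ| + 1 + (L1 + L2)) * (1 + |c|) ^ (k + 5), k + 5, fun s hs hs1 => ?_⟩
  rw [FCz_ld E (k + 3) le_rfl hconv (by linarith), ← hcc, norm_neg, norm_mul, norm_pow]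
  set w : ℂ := s - c with hw
  have hwre : w.re = s.re - c := by rw [hw, Complex.sub_re, Complex.ofReal_re]
  have hw0 : 0 < w.re := by rw [hwre]; linarith
  have hw1 : w.re ≤ 1 := by rw [hwre]; linarith
  have e1 := lapC_norm (maj_LInt (k + 4) (|ρ| + 1) (L1 + L2) hw0) hmaj
  have e2 := maj_lap (k + 4) (|ρ| + 1) (L1 + L2) hw0
  have e3 : lap (maj (k + 4) (|ρ| + 1) (L1 + L2)) w.re ≤
      (|ρ| + 1 + (L1 + L2)) * (1 / w.re) ^ (k + 5) := by
    have e4 : w.re ^ (k + 5) * ((L1 + L2) * (1 / (w.re - -1))) ≤ L1 + L2 := by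
      have e5 : 1 / (w.re - -1) ≤ 1 := by rw [div_le_one (by linarith)]; linarith
      have e6 : w.re ^ (k + 5) ≤ 1 := pow_le_one₀ hw0.le hw1
      have e7 : 0 ≤ 1 / (w.re - -1) := by
        apply div_nonneg zero_le_one; linarith
      calc w.re ^ (k + 5) * ((L1 + L2) * (1 / (w.re - -1))) ≤ 1 * ((L1 + L2) * 1) := by gcongr
        _ = _ := by ring
    have e8 : w.re ^ (k + 5) * lap (maj (k + 4) (|ρ| + 1) (L1 + L2)) w.re ≤
        |ρ| + 1 + (L1 + L2) := by
      rw [show k + 5 = k + 4 + 1 by ring, e2, show k + 4 + 1 = k + 5 by ring]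
      linarith
    rw [one_div, inv_pow, ← div_eq_mul_inv, le_div_iff₀ (pow_pos hw0 _), mul_comm]
    exact e8
  have e9 := (one_add_le c s).2
  rw [← hw] at e9
  have e10 : ‖w‖ ≤ (1 + |c|) * (1 + ‖s‖) := by linarith
  calc ‖w‖ ^ (k + 3 + 1) * ‖lapC (EP.ria (zp S (tn S bad tr ω)) (k + 3)) w‖ ≤
      (1 + ‖w‖) ^ (k + 5) * ((|ρ| + 1 + (L1 + L2)) * (1 / w.re) ^ (k + 5)) := by
        refine mul_le_mul ?_ (e1.trans e3) (norm_nonneg _) (by positivity)
        calc ‖w‖ ^ (k + 3 + 1) ≤ (1 + ‖w‖) ^ (k + 3 + 1) :=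
              pow_le_pow_left₀ (norm_nonneg _) (by linarith) _
          _ ≤ _ := pow_le_pow_right₀ (by linarith [norm_nonneg w]) (by omega)
    _ ≤ ((1 + |c|) * (1 + ‖s‖)) ^ (k + 5) *
        ((|ρ| + 1 + (L1 + L2)) * (1 / w.re) ^ (k + 5)) := by
        refine mul_le_mul_of_nonneg_right ?_ (by positivity)
        exact pow_le_pow_left₀ (by positivity) e9 _
    _ = _ := by rw [hwre, mul_pow, div_pow, div_pow, one_pow]; ring

end Pool.Agent.W263.MN
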