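import Pool.Agent.W263.MN.Tfae

/-! Laplace inversion with a shift of the line of integration. -/

set_option autoImplicit false

namespace Pool.Agent.W263.MN

open MeasureTheory Filter Topology Set Classical
open Pool.Agent.W263.BSD Pool.Agent.W263.EP
open scoped FourierTransform

theorem integrable_decay : Integrable (fun y : ℝ => (1 + |y|) ^ (-(3 / 2 : ℝ))) := by
  have := integrable_one_add_norm (E := ℝ) (μ := volume) (r := 3 / 2) (by simp; norm_num)
  simpa using this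

theorem vertical_integrable {H : ℂ → ℂ} {a B : ℝ}
    (hd : ∀ s : ℂ, s.re = a → ContinuousAt H s)
    (hB : ∀ s : ℂ, s.re = a → ‖H s‖ ≤ B * (1 + |s.im|) ^ (-(3 / 2 : ℝ))) :
    Integrable (fun y : ℝ => H (a + y * Complex.I)) := by
  have hc : Continuous (fun y : ℝ => H (a + y * Complex.I)) := by
    rw [continuous_iff_continuousAt]
    intro y
    have h1 : ContinuousAt H ((a : ℂ) + y * Complex.I) := hd _ (by simp)
    exact ContinuousAt.comp (f := fun y : ℝ => (a : ℂ) + y * Complex.I) h1 (by fun_prop)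
  refine (integrable_decay.const_mul B).mono' hc.aestronglyMeasurable
    (Eventually.of_forall fun y => ?_)
  have := hB (a + y * Complex.I) (by simp)
  simpa using this

/-- contour shift (as in `Pool.Agent.H262R4.TM.KER`) -/
theorem contour_shift {H : ℂ → ℂ} {a b B : ℝ} (hab : a ≤ b)
    (hd : ∀ s : ℂ, a ≤ s.re → s.re ≤ b → DifferentiableAt ℂ H s)
    (hB : ∀ s : ℂ, a ≤ s.re → s.re ≤ b → ‖H s‖ ≤ B * (1 + |s.im|) ^ (-(3 / 2 : ℝ))) :
    ∫ y : ℝ, H (a + y * Complex.I) = ∫ y : ℝ, H (b + y * Complex.I) := by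
  have ia : Integrable (fun y : ℝ => H (a + y * Complex.I)) :=
    vertical_integrable (fun s hs => (hd s hs.ge (hs.le.trans hab)).continuousAt)
      (fun s hs => hB s hs.ge (hs.le.trans hab))
  have ib : Integrable (fun y : ℝ => H (b + y * Complex.I)) :=
    vertical_integrable (fun s hs => (hd s (hab.trans hs.ge) hs.le).continuousAt)
      (fun s hs => hB s (hab.trans hs.ge) hs.le)
  -- rectangles
  have hrect : ∀ T : ℝ, 0 < T →
      (∫ x in a..b, H (x + (-T : ℝ) * Complex.I)) - (∫ x in a..b, H (x + (T : ℝ) * Complex.I)) +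
        Complex.I • (∫ y in (-T)..T, H (b + y * Complex.I)) -
        Complex.I • (∫ y in (-T)..T, H (a + y * Complex.I)) = 0 := by
    intro T hT
    have := Complex.integral_boundary_rect_eq_zero_of_differentiableOn H ⟨a, -T⟩ ⟨b, T⟩ ?_
    · simpa using this
    · intro s hs
      rw [Complex.mem_reProdIm] at hs
      simp only at hs
      rw [Set.uIcc_of_le hab] at hs
      exact (hd s hs.1.1 hs.1.2).differentiableWithinAt
  have hB0 : 0 ≤ B := by
    have := (norm_nonneg _).trans (hB a (by simp) (by simpa using hab))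
    simpa using this
  have hhor : ∀ T : ℝ, ‖∫ x in a..b, H (x + (T : ℝ) * Complex.I)‖ ≤
      B * (1 + |T|) ^ (-(3 / 2 : ℝ)) * |b - a| := by
    intro T
    refine intervalIntegral.norm_integral_le_of_norm_le_const fun x hx => ?_
    rw [Set.uIoc_of_le hab] at hx
    have := hB (x + (T : ℝ) * Complex.I) (by simpa using hx.1.le) (by simpa using hx.2)
    simpa using this
  have hlim0 : Tendsto (fun T : ℝ => B * (1 + |T|) ^ (-(3 / 2 : ℝ)) * |b - a|) atTop (𝓝 0) := by
    have h1 : Tendsto (fun T : ℝ => (1 + |T|)) atTop atTop :=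
      tendsto_atTop_add_const_left _ _ tendsto_abs_atTop_atTop
    have h2 := (tendsto_rpow_neg_atTop (y := 3 / 2) (by norm_num)).comp h1
    have h3 := (h2.const_mul B).mul_const |b - a|
    simpa using h3
  have hl1 : Tendsto (fun T : ℝ => ∫ x in a..b, H (x + (T : ℝ) * Complex.I)) atTop (𝓝 0) :=
    squeeze_zero_norm hhor hlim0
  have hl2 : Tendsto (fun T : ℝ => ∫ x in a..b, H (x + (-T : ℝ) * Complex.I)) atTop (𝓝 0) := by
    refine squeeze_zero_norm (a := fun T : ℝ => B * (1 + |T|) ^ (-(3 / 2 : ℝ)) * |b - a|) ?_ hlim0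
    intro T
    have := hhor (-T)
    rw [abs_neg] at this
    exact this
  have hl3 := intervalIntegral_tendsto_integral ib tendsto_neg_atTop_atBot tendsto_id
  have hl4 := intervalIntegral_tendsto_integral ia tendsto_neg_atTop_atBot tendsto_id
  have hfin := ((hl2.sub hl1).add (hl3.const_smul Complex.I)).sub (hl4.const_smul Complex.I)
  have hzero : Tendsto (fun _ : ℝ => (0:ℂ)) atTop (𝓝 0) := tendsto_const_nhds
  have huniq := tendsto_nhds_unique (hfin.congr' ?_) hzero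
  · rw [sub_zero, zero_add, ← smul_sub, smul_eq_mul] at huniq
    have := (mul_eq_zero.mp huniq).resolve_left Complex.I_ne_zero
    exact (sub_eq_zero.mp this).symm
  · filter_upwards [eventually_gt_atTop 0] with T hT
    simpa using hrect T hT

/-- Laplace inversion on the line `Re w = 1` -/
theorem lap_inversion {f : ℝ → ℝ} (hf : Measurable f) {u : ℝ} (hu : 0 < u)
    (hc : ContinuousAt f u) (hi : LInt f 1)
    (hI : Integrable fun y : ℝ => lapC f (1 + y * Complex.I)) :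
    (f u : ℂ) = (1 / (2 * Real.pi) : ℝ) *
      ∫ y : ℝ, Complex.exp ((1 + y * Complex.I) * u) * lapC f (1 + y * Complex.I) := by
  set g : ℝ → ℂ := (Ioi (0 : ℝ)).indicator fun u => (f u : ℂ) * Complex.exp (-((1 : ℂ) * u)) with hg
  have hgi : Integrable g := by
    rw [hg, integrable_indicator_iff measurableSet_Ioi]
    exact LInt.complex hf (z := 1) (by simpa using hi)
  have h2π : (2 * Real.pi : ℝ) ≠ 0 := by positivity
  have hF : ∀ v : ℝ, 𝓕 g v = lapC f (1 + ((2 * Real.pi * v : ℝ) : ℂ) * Complex.I) := by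
    intro v
    rw [Real.fourier_real_eq_integral_exp_smul, lapC, ← integral_indicator measurableSet_Ioi]
    congr 1
    funext t
    rw [hg]
    by_cases ht : t ∈ Ioi (0 : ℝ)
    · rw [indicator_of_mem ht, indicator_of_mem ht, smul_eq_mul, mul_left_comm, ← Complex.exp_add]
      congr 2
      push_cast
      ring
    · rw [indicator_of_notMem ht, indicator_of_notMem ht, smul_zero]
  have hFi : Integrable (𝓕 g) := by
    have h1 : Integrable fun v : ℝ => lapC f (1 + ((2 * Real.pi * v : ℝ) : ℂ) * Complex.I) :=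
      hI.comp_mul_left' h2π
    exact h1.congr (Eventually.of_forall fun v => (hF v).symm)
  have hgc : ContinuousAt g u := by
    have h1 : ContinuousAt (fun u : ℝ => (f u : ℂ) * Complex.exp (-((1 : ℂ) * u))) u := by
      refine ContinuousAt.mul ?_ (by fun_prop)
      exact Complex.continuous_ofReal.continuousAt.comp hc
    refine h1.congr ?_
    filter_upwards [Ioi_mem_nhds hu] with v hv
    rw [hg, indicator_of_mem hv]
  have h3 := hgi.fourierInv_fourier_eq hFi hgc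
  rw [Real.fourierInv_eq'] at h3
  have h4 : ∫ v : ℝ, Complex.exp (((2 * Real.pi * inner ℝ v u : ℝ) : ℂ) * Complex.I) • 𝓕 g v =
      ∫ v : ℝ, (fun y : ℝ => Complex.exp ((y * u : ℝ) * Complex.I) *
        lapC f (1 + y * Complex.I)) ((2 * Real.pi) * v) := by
    congr 1
    funext v
    rw [hF, smul_eq_mul]
    congr 2
    have e1 : inner ℝ v u = u * v := by simp
    rw [e1]
    push_cast
    ring
  have h4' := Measure.integral_comp_mul_left (fun y : ℝ => Complex.exp ((y * u : ℝ) * Complex.I) *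
        lapC f (1 + y * Complex.I)) (2 * Real.pi)
  rw [h4.trans h4'] at h3
  have hgu : g u = (f u : ℂ) * Complex.exp (-((1 : ℂ) * u)) := by
    rw [hg, indicator_of_mem (show u ∈ Ioi (0 : ℝ) from hu)]
  rw [hgu] at h3
  have h5 : (f u : ℂ) = Complex.exp (u : ℂ) * ((f u : ℂ) * Complex.exp (-((1 : ℂ) * u))) := by
    rw [mul_left_comm, ← Complex.exp_add]
    simp
  rw [h5, ← h3, abs_of_pos (by positivity), Complex.real_smul, mul_left_comm, ← integral_const_mul]
  congr 1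
  · congr 1; rw [one_div]
  · congr 1
    funext y
    rw [← mul_assoc, ← Complex.exp_add]
    congr 2
    push_cast
    ring

theorem re_le (w : ℂ) : w.re ≤ ‖w‖ := (le_abs_self _).trans (Complex.abs_re_le_norm w)

/-- pointwise bound -/
theorem pt_bound {h : ℂ → ℂ} {i A : ℕ} {β M C δ : ℝ} (hδ : 0 < δ) (hβ : β ≤ i + 1 / 2)
    (hM : ∀ w : ℂ, 0 < w.re → ‖w‖ ≤ δ → ‖h w‖ ≤ M)
    (hC : ∀ w : ℂ, 0 < w.re → w.re ≤ 1 → ‖h w‖ ≤ C * ((1 + ‖w‖) ^ β * (1 / w.re) ^ A)) :
    ∃ C1 : ℝ, 0 ≤ C1 ∧ ∀ w : ℂ, 0 < w.re → w.re ≤ 1 → ‖h w / w ^ (i + 2)‖ ≤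
      |M| * ((1 / w.re) ^ i * (w.re ^ 2 + w.im ^ 2)⁻¹) +
        C1 * ((1 / w.re) ^ A * (1 + |w.im|) ^ (-(3 / 2 : ℝ))) := by
  refine ⟨|C| * (1 + 1 / δ) ^ (i + 2), by positivity, fun w hw hw1 => ?_⟩
  have hn : w.re ≤ ‖w‖ := re_le w
  have hn0 : 0 < ‖w‖ := lt_of_lt_of_le hw hn
  have hny : |w.im| ≤ ‖w‖ := Complex.abs_im_le_norm w
  have hsq : ‖w‖ ^ 2 = w.re ^ 2 + w.im ^ 2 := by
    rw [Complex.sq_norm, Complex.normSq_apply]; ring
  rw [norm_div, norm_pow]
  rcases le_or_gt ‖w‖ δ with h1 | h1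
  · have e1 : ‖h w‖ / ‖w‖ ^ (i + 2) ≤ |M| * ((1 / w.re) ^ i * (w.re ^ 2 + w.im ^ 2)⁻¹) := by
      rw [pow_add, hsq, div_eq_mul_inv, mul_inv]
      have h2 := (hM w hw h1).trans (le_abs_self M)
      have h3 : (‖w‖ ^ i)⁻¹ ≤ (1 / w.re) ^ i := by
        rw [one_div, inv_pow]
        exact inv_anti₀ (pow_pos hw i) (pow_le_pow_left₀ hw.le hn i)
      have h4 : 0 ≤ (w.re ^ 2 + w.im ^ 2)⁻¹ := by positivity
      exact mul_le_mul h2 (mul_le_mul_of_nonneg_right h3 h4) (by positivity) (abs_nonneg M)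
    have e2 : 0 ≤ |C| * (1 + 1 / δ) ^ (i + 2) * ((1 / w.re) ^ A * (1 + |w.im|) ^ (-(3 / 2 : ℝ))) := by
      positivity
    linarith
  · have e1 : ‖h w‖ / ‖w‖ ^ (i + 2) ≤
        |C| * (1 + 1 / δ) ^ (i + 2) * ((1 / w.re) ^ A * (1 + |w.im|) ^ (-(3 / 2 : ℝ))) := by
      have h2 := hC w hw hw1
      have h2' : ‖h w‖ ≤ |C| * ((1 + ‖w‖) ^ β * (1 / w.re) ^ A) :=
        h2.trans (mul_le_mul_of_nonneg_right (le_abs_self C) (by positivity))
      have h3 : 1 + ‖w‖ ≤ (1 + 1 / δ) * ‖w‖ := by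
        have : 1 ≤ 1 / δ * ‖w‖ := by
          rw [one_div, inv_mul_eq_div, one_le_div hδ]; exact h1.le
        linarith
      have h4 : (1 + ‖w‖) ^ (i + 2) ≤ (1 + 1 / δ) ^ (i + 2) * ‖w‖ ^ (i + 2) := by
        rw [← mul_pow]
        exact pow_le_pow_left₀ (by positivity) h3 _
      have h5 : (1 + ‖w‖) ^ β ≤ (1 + ‖w‖) ^ (-(3 / 2 : ℝ)) * (1 + ‖w‖) ^ (i + 2) := by
        rw [← Real.rpow_natCast (1 + ‖w‖) (i + 2), ← Real.rpow_add (by positivity)]
        refine Real.rpow_le_rpow_of_exponent_le (by linarith) ?_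
        push_cast
        linarith
      have h6 : (1 + ‖w‖) ^ (-(3 / 2 : ℝ)) ≤ (1 + |w.im|) ^ (-(3 / 2 : ℝ)) :=
        Real.rpow_le_rpow_of_nonpos (by positivity) (by linarith) (by norm_num)
      have h7 : (1 + ‖w‖) ^ β ≤ (1 + |w.im|) ^ (-(3 / 2 : ℝ)) *
          ((1 + 1 / δ) ^ (i + 2) * ‖w‖ ^ (i + 2)) :=
        h5.trans (mul_le_mul h6 h4 (by positivity) (by positivity))
      rw [div_le_iff₀ (pow_pos hn0 _)]
      refine h2'.trans ?_
      calc |C| * ((1 + ‖w‖) ^ β * (1 / w.re) ^ A) ≤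
          |C| * (((1 + |w.im|) ^ (-(3 / 2 : ℝ)) *
            ((1 + 1 / δ) ^ (i + 2) * ‖w‖ ^ (i + 2))) * (1 / w.re) ^ A) := by
            exact mul_le_mul_of_nonneg_left (mul_le_mul_of_nonneg_right h7 (by positivity))
              (abs_nonneg C)
        _ = _ := by ring
    have e2 : 0 ≤ |M| * ((1 / w.re) ^ i * (w.re ^ 2 + w.im ^ 2)⁻¹) := by positivity
    linarith

theorem sq_decay {a y : ℝ} (ha : 0 < a) (ha1 : a ≤ 1) :
    (a ^ 2 + y ^ 2)⁻¹ ≤ 2 * (1 / a) ^ 2 * (1 + |y|) ^ (-(3 / 2 : ℝ)) := by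
  have h1 : (1 + |y|) ^ (3 / 2 : ℝ) ≤ (1 + |y|) ^ (2 : ℝ) :=
    Real.rpow_le_rpow_of_exponent_le (by linarith [abs_nonneg y]) (by norm_num)
  have h2 : (1 + |y|) ^ (2 : ℝ) = (1 + |y|) ^ 2 := by norm_cast
  have h3 : (1 + |y|) ^ 2 ≤ 2 * (1 / a) ^ 2 * (a ^ 2 + y ^ 2) := by
    have e1 : (1 + |y|) ^ 2 ≤ 2 * (1 + y ^ 2) := by
      have := sq_abs y
      nlinarith [sq_nonneg (1 - |y|)]
    have e2 : 1 + y ^ 2 ≤ (1 / a) ^ 2 * (a ^ 2 + y ^ 2) := by
      rw [mul_add, ← mul_pow, one_div, inv_mul_cancel₀ ha.ne', one_pow]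
      have e3 : 1 ≤ a⁻¹ ^ 2 := one_le_pow₀ ((one_le_inv₀ ha).mpr ha1)
      nlinarith [sq_nonneg y]
    linarith
  have hpos : 0 < a ^ 2 + y ^ 2 := by positivity
  rw [Real.rpow_neg (by positivity), ← div_eq_mul_inv, inv_le_comm₀ hpos (by positivity), inv_div,
    div_le_iff₀ (by positivity)]
  calc (1 + |y|) ^ (3 / 2 : ℝ) ≤ 2 * (1 / a) ^ 2 * (a ^ 2 + y ^ 2) := by rw [h2] at h1; linarith
    _ = _ := by ring

theorem int_cauchy {a : ℝ} (ha : 0 < a) :
    Integrable (fun y : ℝ => (a ^ 2 + y ^ 2)⁻¹) ∧ ∫ y : ℝ, (a ^ 2 + y ^ 2)⁻¹ = Real.pi * (1 / a) := by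
  have e : (fun y : ℝ => (a ^ 2 + y ^ 2)⁻¹) = fun y : ℝ => (a ^ 2)⁻¹ * (1 + (y / a) ^ 2)⁻¹ := by
    funext y
    rw [← mul_inv]
    congr 1
    field_simp
  rw [e]
  constructor
  · exact (integrable_inv_one_add_sq.comp_div ha.ne').const_mul _
  · rw [integral_const_mul, Measure.integral_comp_div (fun t : ℝ => (1 + t ^ 2)⁻¹) a,
      integral_univ_inv_one_add_sq, abs_of_pos ha, smul_eq_mul]
    field_simp

/-- bounds for `f` from bounds for its transform -/
theorem inv_bound {f : ℝ → ℝ} (hf : Measurable f) (hc : ∀ u, 0 < u → ContinuousAt f u)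
    (hi : LInt f 1) {h : ℂ → ℂ} (hd : ∀ w : ℂ, 0 < w.re → DifferentiableAt ℂ h w) {i A : ℕ}
    {β M C δ : ℝ} (hδ : 0 < δ) (hβ : β ≤ i + 1 / 2)
    (hM : ∀ w : ℂ, 0 < w.re → ‖w‖ ≤ δ → ‖h w‖ ≤ M)
    (hC : ∀ w : ℂ, 0 < w.re → w.re ≤ 1 → ‖h w‖ ≤ C * ((1 + ‖w‖) ^ β * (1 / w.re) ^ A))
    (heq : ∀ w : ℂ, w.re = 1 → w ^ (i + 2) * lapC f w = h w) :
    ∃ C' : ℝ, ∀ u : ℝ, 1 ≤ u → |f u| ≤ C' * (u ^ (i + 1) + u ^ A) := by
  obtain ⟨C1, hC1, hpt⟩ := pt_bound hδ hβ hM hC
  set I0 : ℝ := ∫ y : ℝ, (1 + |y|) ^ (-(3 / 2 : ℝ)) with hI0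
  have hI0n : 0 ≤ I0 := integral_nonneg fun y => by positivity
  refine ⟨Real.exp 1 * (|M| + C1 * I0), fun u hu => ?_⟩
  have hu0 : 0 < u := by linarith
  set a : ℝ := 1 / u with ha
  have ha0 : 0 < a := by rw [ha]; positivity
  have ha1 : a ≤ 1 := by rw [ha, div_le_one hu0]; exact hu
  have hau : 1 / a = u := by rw [ha, one_div_one_div]
  have hne : ∀ w : ℂ, 0 < w.re → w ≠ 0 := by
    rintro w hw rfl
    simp at hw
  -- bound on the strip
  have hstrip : ∀ w : ℂ, a ≤ w.re → w.re ≤ 1 → ‖h w / w ^ (i + 2)‖ ≤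
      (|M| * (u ^ i * (2 * u ^ 2)) + C1 * u ^ A) * (1 + |w.im|) ^ (-(3 / 2 : ℝ)) := by
    intro w h1 h2
    have hw0 : 0 < w.re := lt_of_lt_of_le ha0 h1
    have h3 := hpt w hw0 h2
    have h4 : 1 / w.re ≤ u := by
      rw [div_le_iff₀ hw0]
      rw [ha, div_le_iff₀ hu0] at h1
      linarith
    have h5 : 0 ≤ 1 / w.re := by positivity
    have h6 := pow_le_pow_left₀ h5 h4 i
    have h7 := pow_le_pow_left₀ h5 h4 A
    have h8 := pow_le_pow_left₀ h5 h4 2
    have h9 := sq_decay (y := w.im) hw0 h2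
    have h10 : 0 ≤ (1 + |w.im|) ^ (-(3 / 2 : ℝ)) := by positivity
    have h11 : (w.re ^ 2 + w.im ^ 2)⁻¹ ≤ 2 * u ^ 2 * (1 + |w.im|) ^ (-(3 / 2 : ℝ)) :=
      h9.trans (mul_le_mul_of_nonneg_right (by linarith) h10)
    have h12 : (1 / w.re) ^ i * (w.re ^ 2 + w.im ^ 2)⁻¹ ≤
        u ^ i * (2 * u ^ 2 * (1 + |w.im|) ^ (-(3 / 2 : ℝ))) :=
      mul_le_mul h6 h11 (by positivity) (by positivity)
    have h13 := mul_le_mul_of_nonneg_left h12 (abs_nonneg M)
    have h14 := mul_le_mul_of_nonneg_left (mul_le_mul_of_nonneg_right h7 h10) hC1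
    refine h3.trans ?_
    linarith
  have hdq : ∀ w : ℂ, 0 < w.re → DifferentiableAt ℂ (fun w => h w / w ^ (i + 2)) w := fun w hw =>
    (hd w hw).div (by fun_prop) (pow_ne_zero _ (hne w hw))
  -- integrability on the line one
  have hline : ∀ y : ℝ, lapC f (1 + y * Complex.I) =
      (fun w => h w / w ^ (i + 2)) (((1 : ℝ) : ℂ) + y * Complex.I) := by
    intro y
    have h1 : (1 + (y : ℂ) * Complex.I).re = 1 := by simp
    have h2 := heq _ h1
    simp only [Complex.ofReal_one]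
    rw [← h2]
    have := hne (1 + (y : ℂ) * Complex.I) (by rw [h1]; exact one_pos)
    field_simp
  have hI : Integrable fun y : ℝ => lapC f (1 + y * Complex.I) := by
    have h1 := vertical_integrable (H := fun w => h w / w ^ (i + 2)) (a := 1)
      (fun s hs => (hdq s (by rw [hs]; exact one_pos)).continuousAt)
      (fun s hs => hstrip s (by rw [hs]; exact ha1) hs.le)
    exact h1.congr (Eventually.of_forall fun y => (hline y).symm)
  have hinv := lap_inversion hf hu0 (hc u hu0) hi hI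
  -- the shift
  have hshift := contour_shift (H := fun w => Complex.exp (w * u) * (h w / w ^ (i + 2)))
    (B := Real.exp u * (|M| * (u ^ i * (2 * u ^ 2)) + C1 * u ^ A)) ha1
    (fun s h1 h2 => (by fun_prop : DifferentiableAt ℂ (fun w : ℂ => Complex.exp (w * u)) s).mul
      (hdq s (lt_of_lt_of_le ha0 h1)))
    (fun s h1 h2 => by
      rw [norm_mul, Complex.norm_exp]
      have e1 : (s * (u : ℂ)).re = s.re * u := by simp
      have e2 : Real.exp (s * (u : ℂ)).re ≤ Real.exp u := by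
        rw [e1]
        exact Real.exp_le_exp.mpr (by nlinarith)
      rw [mul_assoc]
      exact mul_le_mul e2 (hstrip s h1 h2) (norm_nonneg _) (Real.exp_pos _).le)
  have hfin : (f u : ℂ) = (1 / (2 * Real.pi) : ℝ) *
      ∫ y : ℝ, Complex.exp ((a + y * Complex.I) * u) *
        (h (a + y * Complex.I) / (a + y * Complex.I) ^ (i + 2)) := by
    rw [hinv]
    congr 1
    rw [hshift]
    congr 1
    funext y
    rw [hline y, Complex.ofReal_one]
  have hnorm : |f u| = ‖(f u : ℂ)‖ := by rw [Complex.norm_real, Real.norm_eq_abs]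
  rw [hnorm, hfin, norm_mul, Complex.norm_real, Real.norm_of_nonneg (by positivity)]
  have hbd : ‖∫ y : ℝ, Complex.exp ((a + y * Complex.I) * u) *
        (h (a + y * Complex.I) / (a + y * Complex.I) ^ (i + 2))‖ ≤
      ∫ y : ℝ, Real.exp 1 * (|M| * (u ^ i * (a ^ 2 + y ^ 2)⁻¹) +
        C1 * (u ^ A * (1 + |y|) ^ (-(3 / 2 : ℝ)))) := by
    refine norm_integral_le_of_norm_le ?_ (Eventually.of_forall fun y => ?_)
    · exact ((((int_cauchy ha0).1.const_mul _).const_mul _).add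
        ((integrable_decay.const_mul _).const_mul _)).const_mul _
    · rw [norm_mul, Complex.norm_exp]
      have e1 : (((a : ℂ) + y * Complex.I) * (u : ℂ)).re = 1 := by
        simp only [Complex.mul_re, Complex.add_re, Complex.ofReal_re, Complex.I_re,
          Complex.add_im, Complex.ofReal_im, Complex.mul_im, Complex.I_im]
        rw [ha]
        field_simp
        ring
      rw [e1]
      refine mul_le_mul_of_nonneg_left ?_ (Real.exp_pos _).le
      have e2 := hpt ((a : ℂ) + y * Complex.I) (by simpa using ha0) (by simpa using ha1)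
      have e3 : ((a : ℂ) + y * Complex.I).re = a := by simp
      have e4 : ((a : ℂ) + y * Complex.I).im = y := by simp
      rw [e3, e4, hau] at e2
      exact e2
  have hval : ∫ y : ℝ, Real.exp 1 * (|M| * (u ^ i * (a ^ 2 + y ^ 2)⁻¹) +
        C1 * (u ^ A * (1 + |y|) ^ (-(3 / 2 : ℝ)))) =
      Real.exp 1 * (|M| * (u ^ i * (Real.pi * u)) + C1 * (u ^ A * I0)) := by
    rw [integral_const_mul, integral_add (((int_cauchy ha0).1.const_mul _).const_mul _)
      ((integrable_decay.const_mul _).const_mul _), integral_const_mul, integral_const_mul,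
      integral_const_mul, integral_const_mul, (int_cauchy ha0).2, hau]
  rw [hval] at hbd
  have hpi : 0 < Real.pi := Real.pi_pos
  calc 1 / (2 * Real.pi) * _ ≤ 1 / (2 * Real.pi) *
        (Real.exp 1 * (|M| * (u ^ i * (Real.pi * u)) + C1 * (u ^ A * I0))) :=
        mul_le_mul_of_nonneg_left hbd (by positivity)
    _ = Real.exp 1 * (|M| / 2 * u ^ (i + 1) + C1 * I0 * (1 / (2 * Real.pi)) * u ^ A) := by
        field_simp
        ring
    _ ≤ Real.exp 1 * ((|M| + C1 * I0) * (u ^ (i + 1) + u ^ A)) := by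
        refine mul_le_mul_of_nonneg_left ?_ (Real.exp_pos _).le
        have e1 : 0 ≤ u ^ (i + 1) := by positivity
        have e2 : 0 ≤ u ^ A := by positivity
        have e3 : 1 / (2 * Real.pi) ≤ 1 := by
          rw [div_le_one (by positivity)]
          have := Real.pi_gt_three
          linarith
        have e4 := mul_nonneg hC1 hI0n
        have e5 := abs_nonneg M
        have e6 : C1 * I0 * (1 / (2 * Real.pi)) * u ^ A ≤ C1 * I0 * u ^ A :=
          mul_le_mul_of_nonneg_right (mul_le_of_le_one_right e4 e3) e2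
        nlinarith [mul_nonneg e5 e1, mul_nonneg e5 e2, mul_nonneg e4 e1, mul_nonneg e4 e2]
    _ = _ := by ring

end Pool.Agent.W263.MN
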