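import Pool.Agent.W263.EP.MeansB

/-! Karamata's theorem for pure powers. -/

set_option autoImplicit false

namespace Pool.Agent.W263.MN

open MeasureTheory Filter Topology Set Polynomial
open Pool.Agent.W263.BSD

variable {b : ℝ → ℝ}

theorem kp_step1 (k : ℕ) {c : ℝ}
    (hlim : Tendsto (fun w : ℝ => w ^ (k + 1) * lap b w) (𝓝[>] 0) (𝓝 c)) (j : ℕ) :
    Tendsto (fun w : ℝ => w ^ (k + 1) * lap b ((j + 1) * w)) (𝓝[>] 0)
      (𝓝 (c / (j + 1) ^ (k + 1))) := by
  have hj : (0 : ℝ) < j + 1 := by positivity
  have h1 : Tendsto (fun w : ℝ => ((j : ℝ) + 1) * w) (𝓝[>] 0) (𝓝[>] 0) := by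
    rw [tendsto_nhdsWithin_iff]
    constructor
    · have : Tendsto (fun w : ℝ => ((j : ℝ) + 1) * w) (𝓝 0) (𝓝 (((j : ℝ) + 1) * 0)) :=
        tendsto_id.const_mul _
      rw [mul_zero] at this
      exact tendsto_nhdsWithin_of_tendsto_nhds this
    · filter_upwards [self_mem_nhdsWithin] with w hw
      have : (0 : ℝ) < w := hw
      exact mul_pos hj this
  have h6 := (hlim.comp h1).div_const (((j : ℝ) + 1) ^ (k + 1))
  refine h6.congr fun w => ?_
  simp only [Function.comp_apply]
  rw [mul_pow]
  field_simp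

theorem kp_step2 (k : ℕ) (hi : ∀ w > 0, LInt b w) {c : ℝ}
    (hlim : Tendsto (fun w : ℝ => w ^ (k + 1) * lap b w) (𝓝[>] 0) (𝓝 c))
    (Q : ℝ[X]) :
    (∀ w > 0, IntegrableOn
      (fun u => b u * (Real.exp (-(w * u)) * Q.eval (Real.exp (-(w * u))))) (Ioi 0)) ∧
    Tendsto (fun w : ℝ => w ^ (k + 1) * TT b Q w) (𝓝[>] 0)
      (𝓝 (c * II k fun x => Q.eval x)) := by
  induction Q using Polynomial.induction_on' with
  | add p q hp hq =>
    refine ⟨fun w hw => ?_, ?_⟩
    · refine ((hp.1 w hw).add (hq.1 w hw)).congr (Eventually.of_forall fun u => ?_)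
      simp only [Pi.add_apply, eval_add]
      ring
    · have h1 : ∀ᶠ w : ℝ in 𝓝[>] 0, w ^ (k + 1) * TT b p w +
          w ^ (k + 1) * TT b q w = w ^ (k + 1) * TT b (p + q) w := by
        filter_upwards [self_mem_nhdsWithin] with w hw
        have : TT b (p + q) w = TT b p w + TT b q w := by
          unfold TT
          rw [← integral_add (hp.1 w hw) (hq.1 w hw)]
          congr 1; funext u
          rw [eval_add]; ring
        rw [this]; ring
      have h2 : II k (fun x => (p + q).eval x) = II k (fun x => p.eval x) +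
          II k fun x => q.eval x := by
        unfold II
        rw [← integral_add (II_poly_int k p) (II_poly_int k q)]
        congr 1; funext x
        simp only [eval_add]
        ring
      rw [h2, mul_add]
      exact (hp.2.add hq.2).congr' h1
  | monomial n a =>
    have e : ∀ w : ℝ, (fun u => b u * (Real.exp (-(w * u)) * (monomial n a).eval (Real.exp (-(w * u))))) =
        fun u => a * (b u * Real.exp (-((((n : ℝ) + 1) * w) * u))) := by
      intro w; funext u
      rw [eval_monomial, ← Real.exp_nat_mul]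
      have : Real.exp (-((((n : ℝ) + 1) * w) * u)) = Real.exp (-(w * u)) *
          Real.exp (n * -(w * u)) := by
        rw [← Real.exp_add]; congr 1; ring
      rw [this]; ring
    refine ⟨fun w hw => ?_, ?_⟩
    · rw [e w]
      exact Integrable.const_mul (hi _ (by positivity)) a
    · have h1 : ∀ w : ℝ, TT b (monomial n a) w = a * lap b (((n : ℝ) + 1) * w) := by
        intro w
        unfold TT lap
        rw [e w, integral_const_mul]
      simp only [h1]
      have h2 := (kp_step1 k hlim n).const_mul a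
      have h3 : II k (fun x => (monomial n a).eval x) = a * (1 / ((n : ℝ) + 1) ^ (k + 1)) := by
        rw [← pk_lap k (by positivity : (0 : ℝ) < (n : ℝ) + 1), ← lap_const_mul]
        unfold II lap
        congr 1; funext v
        simp only []
        rw [eval_monomial, ← Real.exp_nat_mul]
        have : Real.exp (-((((n : ℝ) + 1)) * v)) = Real.exp (-v) * Real.exp (n * -v) := by
          rw [← Real.exp_add]; congr 1; ring
        rw [this]; ring
      rw [h3]
      have h4 : c * (a * (1 / ((n : ℝ) + 1) ^ (k + 1))) = a * (c / (n + 1) ^ (k + 1)) := by ring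
      rw [h4]
      refine h2.congr fun w => ?_
      ring

/-- **Karamata's theorem** for powers, index `k + 1`. -/
theorem karamata_pow (k : ℕ) (hb : Measurable b) (h0 : ∀ u, 0 < u → 0 ≤ b u)
    (hi : ∀ w > 0, LInt b w) {c : ℝ}
    (hlim : Tendsto (fun w : ℝ => w ^ (k + 1) * lap b w) (𝓝[>] 0) (𝓝 c)) :
    Tendsto (fun U : ℝ => (∫ u in Ioc 0 U, b u) / pk (k + 1) U) atTop (𝓝 c) := by
  have hf : (0 : ℝ) < (k + 1).factorial := by positivity
  have hsmall : ∀ᶠ w : ℝ in 𝓝[>] 0, 0 < w := self_mem_nhdsWithin
  have hc : 0 ≤ c := by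
    refine ge_of_tendsto hlim ?_
    filter_upwards [hsmall] with w hw
    exact mul_nonneg (pow_pos hw _).le (lap_nonneg h0 w)
  have hD : Tendsto (fun w : ℝ => w ^ (k + 1) * (∫ u in Ioc 0 (1 / w), b u))
      (𝓝[>] 0) (𝓝 (c * (1 / (k + 1).factorial))) := by
    set e : ℝ := 1 / (k + 1).factorial with he
    rw [tendsto_order]
    constructor
    · intro l hl
      set η : ℝ := (c * e - l) / (2 * (c + 1)) with hη
      have hη0 : 0 < η := div_pos (by linarith) (by linarith)
      obtain ⟨Q, hQ1, hQ2, hQ3⟩ := poly_lower k hη0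
      obtain ⟨hint, hT⟩ := kp_step2 k hi hlim Q
      have h1 : l < c * II k fun x => Q.eval x := by
        have h2 : c * (e - η) ≤ c * II k fun x => Q.eval x :=
          mul_le_mul_of_nonneg_left hQ3 hc
        have h3 : c * η ≤ (c * e - l) / 2 := by
          rw [hη, mul_div_assoc', div_le_div_iff₀ (by linarith) (by norm_num)]
          nlinarith
        linarith
      filter_upwards [hT.eventually (lt_mem_nhds h1), hsmall] with w h4 h5
      refine lt_of_lt_of_le h4 ?_
      exact mul_le_mul_of_nonneg_left (lower_ineq hb h0 hi hQ1 hQ2 h5 (hint w h5))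
          (pow_pos h5 _).le
    · intro m hm
      set η : ℝ := (m - c * e) / (2 * (c + 1)) with hη
      have hη0 : 0 < η := div_pos (by linarith) (by linarith)
      obtain ⟨Q, hQ1, hQ2, hQ3⟩ := poly_upper k hη0
      obtain ⟨hint, hT⟩ := kp_step2 k hi hlim Q
      have h1 : (c * II k fun x => Q.eval x) < m := by
        have h2 : (c * II k fun x => Q.eval x) ≤ c * (e + η) :=
          mul_le_mul_of_nonneg_left hQ3 hc
        have h3 : c * η ≤ (m - c * e) / 2 := by
          rw [hη, mul_div_assoc', div_le_div_iff₀ (by linarith) (by norm_num)]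
          nlinarith
        linarith
      filter_upwards [hT.eventually (gt_mem_nhds h1), hsmall] with w h4 h5
      refine lt_of_le_of_lt ?_ h4
      exact mul_le_mul_of_nonneg_left (upper_ineq hb h0 hi hQ1 hQ2 h5 (hint w h5))
          (pow_pos h5 _).le
  have h1 := (hD.comp tendsto_inv_atTop_nhdsGT_zero).mul_const ((k + 1).factorial : ℝ)
  have h2 : c * (1 / ((k + 1).factorial : ℝ)) * (k + 1).factorial = c := by field_simp
  rw [h2] at h1
  refine h1.congr' ?_
  filter_upwards [eventually_gt_atTop 1] with U hU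
  have hU0 : 0 < U := by linarith
  simp only [Function.comp_apply]
  unfold pk
  rw [one_div, inv_inv, inv_pow]
  field_simp

/-- multiplication by the variable preserves convergence -/
theorem LInt_id_mul {f : ℝ → ℝ} (hf : Measurable f) {w w' : ℝ} (hw : w < w') (h : LInt f w) :
    LInt (fun u => u * f u) w' := by
  have h1 : LInt (fun u => (1 / (w' - w)) * f u) w := h.const_mul _
  unfold LInt at *
  refine Integrable.mono h1 ((measurable_id.mul hf).mul (by fun_prop)).aestronglyMeasurable ?_
  refine (ae_restrict_iff' measurableSet_Ioi).mpr (Eventually.of_forall fun u hu => ?_)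
  have hu0 : (0 : ℝ) < u := hu
  have hd : 0 < w' - w := by linarith
  rw [norm_mul, norm_mul, norm_mul, norm_mul, Real.norm_of_nonneg (Real.exp_pos _).le,
    Real.norm_of_nonneg (Real.exp_pos _).le, Real.norm_of_nonneg hu0.le,
    Real.norm_of_nonneg (by positivity : (0 : ℝ) ≤ 1 / (w' - w))]
  have e1 : Real.exp (-(w' * u)) = Real.exp (-((w' - w) * u)) * Real.exp (-(w * u)) := by
    rw [← Real.exp_add]; congr 1; ring
  have e2 : u * Real.exp (-((w' - w) * u)) ≤ 1 / (w' - w) := by
    rw [le_div_iff₀ hd]
    have h2 : (w' - w) * u * Real.exp (-((w' - w) * u)) ≤ 1 := by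
      have h3 := Real.add_one_le_exp ((w' - w) * u)
      have h4 := Real.exp_pos (-((w' - w) * u))
      calc (w' - w) * u * Real.exp (-((w' - w) * u)) ≤
          Real.exp ((w' - w) * u) * Real.exp (-((w' - w) * u)) :=
            mul_le_mul_of_nonneg_right (by linarith) h4.le
        _ = 1 := by rw [← Real.exp_add]; simp
    linarith
  rw [e1]
  have h5 := norm_nonneg (f u)
  have h6 := (Real.exp_pos (-(w * u))).le
  calc u * ‖f u‖ * (Real.exp (-((w' - w) * u)) * Real.exp (-(w * u))) =
      (u * Real.exp (-((w' - w) * u))) * (‖f u‖ * Real.exp (-(w * u))) := by ring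
    _ ≤ 1 / (w' - w) * (‖f u‖ * Real.exp (-(w * u))) :=
        mul_le_mul_of_nonneg_right e2 (by positivity)
    _ = _ := by ring

/-- the derivative of the Laplace transform -/
theorem lapC_hasDerivAt {f : ℝ → ℝ} (hf : Measurable f) {s : ℝ} (h : ∀ w > s, LInt f w) {z : ℂ}
    (hz : s < z.re) : HasDerivAt (lapC f) (-lapC (fun u => u * f u) z) z := by
  set w : ℝ := (s + z.re) / 2 with hw
  have hsw : s < w := by rw [hw]; linarith
  have hwz : w < z.re := by rw [hw]; linarith
  have hI : LInt (fun u => u * f u) w := LInt_id_mul hf (show (s + w) / 2 < w by linarith)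
    (h _ (by linarith))
  have hopen : {y : ℂ | w < y.re} ∈ 𝓝 z := (isOpen_half w).mem_nhds hwz
  have key := hasDerivAt_integral_of_dominated_loc_of_deriv_le (𝕜 := ℂ)
    (μ := volume.restrict (Ioi (0 : ℝ))) (s := {y : ℂ | w < y.re}) (x₀ := z)
    (F := fun y u => (f u : ℂ) * Complex.exp (-(y * u)))
    (F' := fun y u => (f u : ℂ) * (Complex.exp (-(y * u)) * (-u)))
    (bound := fun u => ‖u * f u‖ * Real.exp (-(w * u))) hopen ?_ ?_ ?_ ?_ ?_ ?_
  · have h1 := key.2
    have e : ∫ u in Ioi (0 : ℝ), (f u : ℂ) * (Complex.exp (-(z * u)) * (-u)) =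
        -lapC (fun u => u * f u) z := by
      unfold lapC
      rw [← integral_neg]
      congr 1; funext u
      push_cast; ring
    rw [e] at h1
    exact h1
  · refine Eventually.of_forall fun y => ?_
    exact ((Complex.measurable_ofReal.comp hf).mul (by fun_prop)).aestronglyMeasurable
  · exact LInt.complex hf (h _ hz)
  · exact ((Complex.measurable_ofReal.comp hf).mul (by fun_prop)).aestronglyMeasurable
  · refine (ae_restrict_iff' measurableSet_Ioi).mpr (Eventually.of_forall fun u hu y hy => ?_)
    have hu0 : (0 : ℝ) < u := hu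
    have hy' : w < y.re := hy
    rw [norm_mul, norm_mul, Complex.norm_exp, norm_neg, Complex.norm_real, Complex.norm_real,
      norm_mul]
    have e1 : (-(y * (u : ℂ))).re = -(y.re * u) := by simp
    rw [e1]
    have e2 : Real.exp (-(y.re * u)) ≤ Real.exp (-(w * u)) := by
      apply Real.exp_le_exp.mpr
      have := mul_le_mul_of_nonneg_right hy'.le hu0.le
      linarith
    have e3 := norm_nonneg (f u)
    have e4 := norm_nonneg u
    calc ‖f u‖ * (Real.exp (-(y.re * u)) * ‖u‖) ≤ ‖f u‖ * (Real.exp (-(w * u)) * ‖u‖) := by gcongr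
      _ = _ := by ring
  · have h1 : Integrable (fun u => ‖(u * f u) * Real.exp (-(w * u))‖) (volume.restrict (Ioi (0 : ℝ))) :=
      Integrable.norm hI
    refine h1.congr (Eventually.of_forall fun u => ?_)
    simp only [norm_mul, Real.norm_of_nonneg (Real.exp_pos _).le]
  · refine (ae_restrict_iff' measurableSet_Ioi).mpr (Eventually.of_forall fun u hu y hy => ?_)
    have h1 : HasDerivAt (fun y : ℂ => -(y * (u : ℂ))) (-(u : ℂ)) y := by
      have h2 := ((hasDerivAt_id y).mul_const (u : ℂ)).fun_neg
      rw [one_mul] at h2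
      exact h2
    exact (h1.cexp).const_mul (f u : ℂ)

/-- integration divides the complex Laplace transform by the variable -/
theorem lapC_intU' {f : ℝ → ℝ} (hf : Measurable f) {s0 : ℝ} (hs0 : 0 ≤ s0)
    (h : ∀ w > s0, LInt f w) {z : ℂ} (hz : s0 < z.re) :
    z * lapC (EP.intU f) z = lapC f z := by
  have hI : ∀ w > s0, LInt (EP.intU f) w := fun w hw =>
    (EP.lap_intU hf (show 0 < w by linarith) (h w hw)).1
  have h1 : AnalyticOnNhd ℂ (fun z => z * lapC (EP.intU f) z) {z : ℂ | s0 < z.re} := by
    refine DifferentiableOn.analyticOnNhd (fun z hz => ?_) (isOpen_half _)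
    exact (differentiableAt_id.mul
      (lapC_differentiableAt (EP.intU_meas hf) hI hz)).differentiableWithinAt
  have h2 : AnalyticOnNhd ℂ (lapC f) {z : ℂ | s0 < z.re} := by
    refine DifferentiableOn.analyticOnNhd (fun z hz => ?_) (isOpen_half _)
    exact (lapC_differentiableAt hf h hz).differentiableWithinAt
  have h3 := h1.eqOn_of_preconnected_of_frequently_eq h2 (preconn_half _)
    (show ((s0 + 1 : ℝ) : ℂ) ∈ {z : ℂ | s0 < z.re} by
      show s0 < ((s0 + 1 : ℝ) : ℂ).re
      rw [Complex.ofReal_re]; linarith) ?_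
  · exact h3 hz
  · refine (EP.cast_tendsto (s0 + 1)).frequently (Eventually.frequently ?_)
    filter_upwards [self_mem_nhdsWithin] with w hw
    have hw1 : s0 + 1 < w := hw
    have hw0 : (0 : ℝ) < w := by linarith
    rw [lapC_ofReal, lapC_ofReal, (EP.lap_intU hf hw0 (h w (by linarith))).2, ← Complex.ofReal_mul]
    congr 1
    field_simp

/-- integration divides the complex Laplace transform by the variable -/
theorem lapC_intU {f : ℝ → ℝ} (hf : Measurable f) (h : ∀ w > 0, LInt f w) {z : ℂ}
    (hz : 0 < z.re) : z * lapC (EP.intU f) z = lapC f z := lapC_intU' hf le_rfl h hz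

end Pool.Agent.W263.MN
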