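import Pool.Agent.W263.MN.Growth
import Pool.Agent.W263.MN.Cheb

/-! Main theorems on the von Mangoldt means, with arbitrary bad factors. -/

set_option autoImplicit false

namespace Pool.Agent.W263.MN

open MeasureTheory Filter Topology Set Classical
open Pool.Agent.W263.BSD Pool.Agent.W263.EP
open Pool.Agent.H341R2 (NormSys)

variable {S : NormSys} {Bs : Finset S.X} {B : S.X → Polynomial ℂ} {tr : S.X → ℕ → ℝ} {ω : ℝ}
  {D : ℝ} {F G : ℂ → ℂ} {n : ℤ}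

theorem IsFullB.isFull (E : TData S (tn S (Bs : Set S.X) tr ω) D)
    (hB : ∀ x ∈ Bs, ∀ s : ℂ, (ω + 1) / 2 ≤ s.re → (B x).eval (((S.N x : ℕ) : ℂ) ^ (-s)) ≠ 0)
    (hF : IsFullB S Bs B tr ω F) :
    IsFull S (Bs : Set S.X) tr ω (fun s => F s * BB S Bs B s) := by
  refine ⟨fun s hs => ?_, fun s hs => ?_, fun s hs => ?_⟩
  · exact (hF.1 s hs).mul BB_diff.differentiableAt.differentiableWithinAt
  · exact mul_ne_zero (hF.2.1 s hs) (BB_ne hB hs.le)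
  · simp only []
    rw [hF.2.2 s hs, LFB_eq E hs, mul_assoc, inv_mul_cancel₀, mul_one]
    exact BB_ne hB (by linarith)

theorem order_mul {c : ℝ} {H : ℂ → ℂ} (hF : MeromorphicAt F c) (hn : meromorphicOrderAt F c = n)
    (hH : AnalyticAt ℂ H c) (h0 : H c ≠ 0) :
    MeromorphicAt (fun s => F s * H s) c ∧ meromorphicOrderAt (fun s => F s * H s) c = n := by
  have h1 : MeromorphicAt (fun s => F s * H s) c := hF.mul hH.meromorphicAt
  refine ⟨h1, ?_⟩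
  obtain ⟨g, hg, hg0, he⟩ := (meromorphicOrderAt_eq_int_iff hF).mp hn
  refine (meromorphicOrderAt_eq_int_iff h1).mpr ⟨fun s => g s * H s, hg.mul hH,
    mul_ne_zero hg0 h0, ?_⟩
  filter_upwards [he] with s hs
  rw [hs, smul_eq_mul, smul_eq_mul, mul_assoc]

theorem ratio_ge {c : ℝ} {s : ℂ} (h1 : c < s.re) (h2 : s.re ≤ c + 1) (A : ℕ) :
    1 ≤ ((1 + ‖s‖) / (s.re - c)) ^ A := by
  refine one_le_pow₀ ?_
  rw [one_le_div (by linarith)]
  linarith [norm_nonneg s]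

theorem LDB.add {c : ℝ} {H : ℂ → ℂ} (hG : LDB c G) {M : ℝ}
    (h : ∀ s : ℂ, c < s.re → s.re ≤ c + 1 → ‖deriv H s / H s - deriv G s / G s‖ ≤ M) :
    LDB c H := by
  obtain ⟨C, A, hC⟩ := hG
  refine ⟨C + |M|, A, fun s h1 h2 => ?_⟩
  have h3 := h s h1 h2
  have h4 := hC s h1 h2
  have h5 := ratio_ge h1 h2 A
  have h6 := norm_add_le (deriv H s / H s - deriv G s / G s) (deriv G s / G s)
  rw [sub_add_cancel] at h6
  have h7 : M ≤ |M| * ((1 + ‖s‖) / (s.re - c)) ^ A :=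
    (le_abs_self M).trans (le_mul_of_one_le_right (abs_nonneg M) h5)
  rw [add_mul]
  linarith

theorem LDB_mul (hB : ∀ x ∈ Bs, ∀ s : ℂ, (ω + 1) / 2 ≤ s.re →
    (B x).eval (((S.N x : ℕ) : ℂ) ^ (-s)) ≠ 0)
    (hG : ∀ s : ℂ, (ω + 1) / 2 < s.re → DifferentiableAt ℂ G s ∧ G s ≠ 0)
    (hL : LDB ((ω + 1) / 2) G) : LDB ((ω + 1) / 2) (fun s => G s * BB S Bs B s) := by
  obtain ⟨M, hM⟩ := BB_ld hB ((ω + 1) / 2 + 1)
  refine hL.add (M := M) fun s h1 h2 => ?_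
  have h3 := hM s h1.le h2
  obtain ⟨h4, h5⟩ := hG s h1
  have h6 := BB_ne hB h1.le
  have hd : deriv (fun s => G s * BB S Bs B s) s = deriv G s * BB S Bs B s +
      G s * deriv (BB S Bs B) s := deriv_fun_mul h4 BB_diff.differentiableAt
  rw [hd]
  refine le_trans (le_of_eq ?_) h3
  congr 1
  field_simp
  ring

theorem LDB_mul_inv (hB : ∀ x ∈ Bs, ∀ s : ℂ, (ω + 1) / 2 ≤ s.re →
    (B x).eval (((S.N x : ℕ) : ℂ) ^ (-s)) ≠ 0)
    (hG : ∀ s : ℂ, (ω + 1) / 2 < s.re → DifferentiableAt ℂ G s ∧ G s ≠ 0)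
    (hL : LDB ((ω + 1) / 2) G) : LDB ((ω + 1) / 2) (fun s => G s * (BB S Bs B s)⁻¹) := by
  obtain ⟨M, hM⟩ := BB_ld hB ((ω + 1) / 2 + 1)
  refine hL.add (M := M) fun s h1 h2 => ?_
  have h3 := hM s h1.le h2
  obtain ⟨h4, h5⟩ := hG s h1
  have h6 := BB_ne hB h1.le
  have hd : deriv (fun s => G s * (BB S Bs B s)⁻¹) s = deriv G s * (BB S Bs B s)⁻¹ +
      G s * (-deriv (BB S Bs B) s / BB S Bs B s ^ 2) := by
    have h7 : HasDerivAt (fun s => (BB S Bs B s)⁻¹)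
        (-deriv (BB S Bs B) s / BB S Bs B s ^ 2) s :=
      BB_diff.differentiableAt.hasDerivAt.fun_inv h6
    exact (h4.hasDerivAt.mul h7).deriv
  rw [hd, ← norm_neg]
  refine le_trans (le_of_eq ?_) h3
  congr 1
  field_simp
  ring

theorem one_le_log : ∀ᶠ x : ℝ in atTop, 1 ≤ Real.log x :=
  Real.tendsto_log_atTop.eventually (eventually_ge_atTop 1)

theorem cont_eq_fullB (E : TData S (tn S (Bs : Set S.X) tr ω) D)
    (hB : ∀ x ∈ Bs, ∀ s : ℂ, (ω + 1) / 2 ≤ s.re → (B x).eval (((S.N x : ℕ) : ℂ) ^ (-s)) ≠ 0)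
    (hF : IsContB S Bs B tr ω F) (hG : IsFullB S Bs B tr ω G) {s : ℝ} (hs : (ω + 1) / 2 < s) :
    F s = G s := by
  have h1 := cont_eq_full (hF.isCont E hB) (IsFullB.isFull E hB hG) hs
  exact mul_right_cancel₀ (BB_ne hB (by rw [Complex.ofReal_re]; exact hs.le)) h1

/-- **Theorem (meromorphic at the centre).** -/
theorem mero_tfae (E : TData S (tn S (Bs : Set S.X) tr ω) D)
    (hB : ∀ x ∈ Bs, ∀ s : ℂ, (ω + 1) / 2 ≤ s.re → (B x).eval (((S.N x : ℕ) : ℂ) ^ (-s)) ≠ 0)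
    (hF : IsContB S Bs B tr ω F) (hm : MeromorphicAt F (((ω + 1) / 2 : ℝ) : ℂ))
    (hn : meromorphicOrderAt F (((ω + 1) / 2 : ℝ) : ℂ) = n) :
    List.TFAE [
      ∃ (k : ℕ) (K : ℝ), ∀ᶠ x : ℝ in atTop, -(K * Real.log x) ≤ ZK S (Bs : Set S.X) tr ω k x,
      ∃ (k : ℕ) (K : ℝ), ∀ᶠ x : ℝ in atTop, -(K * Real.log x) ≤ SK S (Bs : Set S.X) tr ω k x,
      (∀ s : ℝ, (ω + 1) / 2 < s → F s ≠ 0) ∧
        ∃ (k : ℕ) (K : ℝ), ∀ᶠ x : ℝ in atTop, SK S (Bs : Set S.X) tr ω k x ≤ K * Real.log x,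
      ∃ k : ℕ, Tendsto (fun x : ℝ => ZK S (Bs : Set S.X) tr ω k x / Real.log x) atTop
        (𝓝 (-(n : ℝ) / (k + 1))),
      ∃ (k : ℕ) (C : ℝ), ∀ᶠ x : ℝ in atTop,
        |ZK S (Bs : Set S.X) tr ω k x + n / (k + 1) * Real.log x| ≤ C,
      ∃ G : ℂ → ℂ, IsFullB S Bs B tr ω G ∧ LDB ((ω + 1) / 2) G] := by
  have hBc : BB S Bs B (((ω + 1) / 2 : ℝ) : ℂ) ≠ 0 := BB_ne hB (by rw [Complex.ofReal_re])
  have hBa : AnalyticAt ℂ (BB S Bs B) (((ω + 1) / 2 : ℝ) : ℂ) := BB_diff.analyticAt _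
  have hF1 := hF.isCont E hB
  obtain ⟨hm1, hn1⟩ := order_mul hm hn hBa hBc
  have h46 : (∃ G : ℂ → ℂ, IsFullB S Bs B tr ω G ∧ LDB ((ω + 1) / 2) G) →
      ∃ (k : ℕ) (C : ℝ), ∀ᶠ x : ℝ in atTop,
        |ZK S (Bs : Set S.X) tr ω k x + n / (k + 1) * Real.log x| ≤ C := by
    rintro ⟨G, hG, hL⟩
    refine means_of_LDB E hF1 hm1 hn1 (IsFullB.isFull E hB hG) (LDB_mul hB (fun s hs => ?_) hL)
    exact ⟨hG.1.differentiableAt ((isOpen_half _).mem_nhds hs), hG.2.1 s hs⟩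
  tfae_have 1 → 2 := by
    rintro ⟨k, K, h⟩
    obtain ⟨C, hC⟩ := SK_ZK E k
    refine ⟨k, K + C, ?_⟩
    filter_upwards [h, hC] with x h1 h2
    have := (abs_le.mp h2).2
    linarith
  tfae_have 2 → 1 := by
    rintro ⟨k, K, h⟩
    obtain ⟨C, hC⟩ := SK_ZK E k
    refine ⟨k, K + C, ?_⟩
    filter_upwards [h, hC] with x h1 h2
    have := (abs_le.mp h2).1
    linarith
  tfae_have 1 → 6 := by
    rintro ⟨k, K, h⟩
    obtain ⟨G, hG, hL⟩ := LDB_of_lower E hF1 (lord_of_mero hm1 hn1) h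
    refine ⟨_, hG.isFullB E hB, LDB_mul_inv hB (fun s hs => ?_) hL⟩
    exact ⟨hG.1.differentiableAt ((isOpen_half _).mem_nhds hs), hG.2.1 s hs⟩
  tfae_have 6 → 5 := h46
  tfae_have 6 → 3 := by
    intro h
    obtain ⟨k, C, hC⟩ := h46 h
    obtain ⟨G, hG, _⟩ := h
    refine ⟨fun s hs => ?_, k, |(n : ℝ) / (k + 1)| + |C| + |Classical.choose (SK_ZK E k)|, ?_⟩
    · rw [cont_eq_fullB E hB hF hG hs]
      exact hG.2.1 s (by rw [Complex.ofReal_re]; exact hs)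
    · filter_upwards [hC, Classical.choose_spec (SK_ZK E k), one_le_log] with x h1 h2 h3
      have h4 := (abs_le.mp h1).2
      have h5 := (abs_le.mp h2).1
      have h6 := neg_abs_le ((n : ℝ) / (k + 1))
      have h7 := le_abs_self C
      have h8 := abs_nonneg C
      have h9 := le_abs_self (Classical.choose (SK_ZK E k))
      nlinarith
  tfae_have 3 → 4 := by
    rintro ⟨hne, k, K, h⟩
    obtain ⟨C, hC⟩ := SK_ZK E k
    have h1 := (zk_tfaeB E hB (n : ℝ)).out 2 0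
    refine h1.mp ⟨⟨F, hF, lord_of_mero hm hn, hne⟩, k, K + C, ?_⟩
    filter_upwards [h, hC] with x h2 h3
    have := (abs_le.mp h3).2
    linarith
  tfae_have 4 → 1 := by
    rintro ⟨k, h⟩
    refine ⟨k, (n : ℝ) / (k + 1) + 1, ?_⟩
    have h1 := (tendsto_order.mp h).1 (-(n : ℝ) / (k + 1) - 1) (by linarith)
    filter_upwards [h1, one_le_log] with x h2 h3
    rw [lt_div_iff₀ (by linarith)] at h2
    have e : -(n : ℝ) / (k + 1) = -((n : ℝ) / (k + 1)) := by ring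
    rw [e] at h2
    linarith
  tfae_have 5 → 1 := by
    rintro ⟨k, C, h⟩
    refine ⟨k, |(n : ℝ) / (k + 1)| + |C|, ?_⟩
    filter_upwards [h, one_le_log] with x h1 h2
    have h3 := (abs_le.mp h1).1
    have h4 := le_abs_self ((n : ℝ) / (k + 1))
    have h5 := le_abs_self C
    have h6 := abs_nonneg C
    nlinarith
  tfae_finish

/-- lower bound for the Euler product far to the right -/
theorem LF_low (E : TData S (tn S (Bs : Set S.X) tr ω) D) :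
    ∃ m : ℝ, 0 < m ∧ ∀ s : ℂ, s.re = (ω + 1) / 2 + 2 → m ≤ ‖LF S (Bs : Set S.X) tr s‖ := by
  have hsum := (prod_summable S (show -(1 / 2) - 2 < (-1 : ℝ) by norm_num) D 0)
  refine ⟨Real.exp (-∑' p : S.X × ℕ, D * ((S.N p.1 : ℝ) ^ ((-(1 / 2) - 2 : ℝ)) *
    (3 / 4 : ℝ) ^ (p.2 - 0))), Real.exp_pos _, fun s hs => ?_⟩
  set w : ℂ := s - ((ω : ℂ) + 1) / 2 with hw
  have hwre : w.re = 2 := by rw [hw, re_shift, hs]; ring
  have e1 : s = ((ω : ℂ) + 1) / 2 + w := by rw [hw]; ring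
  rw [e1, LF_eq E (by rw [hwre]; norm_num), Complex.norm_exp]
  apply Real.exp_le_exp.mpr
  have h1 : ‖LL S (tn S (Bs : Set S.X) tr ω) w‖ ≤ ∑' p : S.X × ℕ,
      D * ((S.N p.1 : ℝ) ^ ((-(1 / 2) - 2 : ℝ)) * (3 / 4 : ℝ) ^ (p.2 - 0)) :=
    tsum_of_norm_bounded hsum.hasSum fun p => E.LL_le p (by norm_num) hwre.ge
  have h2 := (abs_le.mp (Complex.abs_re_le_norm (LL S (tn S (Bs : Set S.X) tr ω) w))).1
  linarith

/-- the bad factors are bounded -/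
theorem BB_bdd : ∃ M : ℝ, ∀ s : ℂ, (ω + 1) / 2 ≤ s.re → ‖BB S Bs B s‖ ≤ M := by
  have key : ∀ x ∈ Bs, ∃ M : ℝ, ∀ s : ℂ, (ω + 1) / 2 ≤ s.re →
      ‖(B x).eval (((S.N x : ℕ) : ℂ) ^ (-s))‖ ≤ M := by
    intro x hx
    obtain ⟨M, hM⟩ := (isCompact_closedBall (0 : ℂ)
      ((S.N x : ℝ) ^ (-((ω + 1) / 2)))).exists_bound_of_continuousOn
      (f := fun z : ℂ => (B x).eval z) (B x).continuous.continuousOn
    refine ⟨M, fun s hs => hM _ ?_⟩
    rw [mem_closedBall_zero_iff, S.norm_cpow x s]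
    exact Real.rpow_le_rpow_of_exponent_le (by linarith [N_real_two x]) (by linarith)
  choose! M hM using key
  refine ⟨∏ x ∈ Bs, M x, fun s hs => ?_⟩
  unfold BB
  rw [norm_prod]
  exact Finset.prod_le_prod (fun _ _ => norm_nonneg _) fun x hx => hM x hx s hs

/-- the first two means under the Riemann hypothesis -/
theorem means_of_RH (E : TData S (tn S (Bs : Set S.X) tr ω) D)
    (hB : ∀ x ∈ Bs, ∀ s : ℂ, (ω + 1) / 2 ≤ s.re → (B x).eval (((S.N x : ℕ) : ℂ) ^ (-s)) ≠ 0)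
    (hF : IsFullB S Bs B tr ω F) (hm : MeromorphicAt F (((ω + 1) / 2 : ℝ) : ℂ))
    (hn : meromorphicOrderAt F (((ω + 1) / 2 : ℝ) : ℂ) = n)
    (hg : ∃ (C : ℝ) (A : ℕ), ∀ s : ℂ, (ω + 1) / 2 < s.re → ‖F s‖ ≤ C * (1 + ‖s‖) ^ A) :
    (∃ C : ℝ, ∀ᶠ x : ℝ in atTop, |ZK S (Bs : Set S.X) tr ω 1 x| ≤ C * Real.log x) ∧
    ∃ C : ℝ, ∀ᶠ x : ℝ in atTop, |ZK S (Bs : Set S.X) tr ω 2 x + n / 3 * Real.log x| ≤ C := by
  have hBc : BB S Bs B (((ω + 1) / 2 : ℝ) : ℂ) ≠ 0 := BB_ne hB (by rw [Complex.ofReal_re])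
  have hBa : AnalyticAt ℂ (BB S Bs B) (((ω + 1) / 2 : ℝ) : ℂ) := BB_diff.analyticAt _
  have hF1 := hF.isContB.isCont E hB
  obtain ⟨hm1, hn1⟩ := order_mul hm hn hBa hBc
  have hG := IsFullB.isFull E hB hF
  obtain ⟨C, A, hC⟩ := hg
  obtain ⟨M, hM⟩ := BB_bdd (S := S) (Bs := Bs) (B := B) (ω := ω)
  obtain ⟨m, hm0, hmlow⟩ := LF_low E
  obtain ⟨K, hK⟩ := bc_bound (G := fun s => F s * BB S Bs B s) (c := (ω + 1) / 2)
    (C := |C| * |M|) (A := A) hm0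
    (fun s hs => hG.1.differentiableAt ((isOpen_half _).mem_nhds hs)) hG.2.1
    (fun s hs => by
      rw [norm_mul]
      have h1 := hC s hs
      have h2 := hM s hs.le
      calc ‖F s‖ * ‖BB S Bs B s‖ ≤ (|C| * (1 + ‖s‖) ^ A) * |M| := by
            refine mul_le_mul (h1.trans (mul_le_mul_of_nonneg_right (le_abs_self C) (by positivity)))
              (h2.trans (le_abs_self M)) (norm_nonneg _) (by positivity)
        _ = _ := by ring)
    (fun s hs => by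
      have h1 := hG.2.2 s (by rw [hs]; linarith)
      simp only [] at h1
      rw [h1]
      exact hmlow s hs)
  obtain ⟨C1, hC1⟩ := mean_of_ld E hF1 hm1 hn1 hG (β := 1 / 2) (C := K) (A := 2) (i := 0)
    (by norm_num) (by norm_num) (by norm_num) hK
  obtain ⟨C2, hC2⟩ := mean_of_ld E hF1 hm1 hn1 hG (β := 1 / 2) (C := K) (A := 2) (i := 1)
    (by norm_num) (by norm_num) (by norm_num) hK
  constructor
  · refine ⟨2 * |C1| + |(n : ℝ)|, ?_⟩
    filter_upwards [one_le_log, eventually_gt_atTop 0] with x hx hx0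
    set u : ℝ := Real.log x with hu
    have hxu : x = Real.exp u := by rw [hu, Real.exp_log hx0]
    have hu0 : 0 < u := by linarith
    have h1 := hC1 u hx
    rw [ria_ZK _ hu0, ← hxu] at h1
    have e1 : pk (0 + 1) u = u := by unfold pk; norm_num
    have e2 : pk (0 + 2) u = u ^ 2 / 2 := by unfold pk; norm_num
    rw [e1, e2, zero_add, pow_one] at h1
    have h2 : C1 * (u + u ^ 2) ≤ |C1| * (2 * u ^ 2) := by
      refine mul_le_mul (le_abs_self C1) ?_ (by positivity) (abs_nonneg _)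
      nlinarith
    have h3 : |u * ZK S (Bs : Set S.X) tr ω 1 x| ≤ |C1| * (2 * u ^ 2) + |(n : ℝ)| * u ^ 2 := by
      have h4 := abs_sub (u * ZK S (Bs : Set S.X) tr ω 1 x + n * (u ^ 2 / 2)) (n * (u ^ 2 / 2))
      rw [add_sub_cancel_right, abs_mul (n : ℝ), abs_of_nonneg (show 0 ≤ u ^ 2 / 2 by positivity)]
        at h4
      have h5 : |(n : ℝ)| * (u ^ 2 / 2) ≤ |(n : ℝ)| * u ^ 2 := by
        refine mul_le_mul_of_nonneg_left ?_ (abs_nonneg _)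
        linarith [sq_nonneg u]
      linarith
    rw [abs_mul, abs_of_pos hu0] at h3
    refine le_of_mul_le_mul_left ?_ hu0
    refine h3.trans (le_of_eq ?_)
    ring
  · refine ⟨4 * |C2|, ?_⟩
    filter_upwards [one_le_log, eventually_gt_atTop 0] with x hx hx0
    set u : ℝ := Real.log x with hu
    have hxu : x = Real.exp u := by rw [hu, Real.exp_log hx0]
    have hu0 : 0 < u := by linarith
    have h1 := hC2 u hx
    rw [ria_ZK _ hu0, ← hxu] at h1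
    have e1 : pk (1 + 1) u = u ^ 2 / 2 := by unfold pk; norm_num
    have e2 : pk (1 + 2) u = u ^ 3 / 6 := by unfold pk; norm_num [Nat.factorial]
    rw [e1, e2] at h1
    norm_num at h1
    have h2 : C2 * (u ^ 2 + u ^ 2) ≤ |C2| * (2 * u ^ 2) := by
      refine mul_le_mul (le_abs_self C2) (by linarith) (by positivity) (abs_nonneg _)
    have e3 : u ^ 2 / 2 * ZK S (Bs : Set S.X) tr ω 2 x + n * (u ^ 3 / 6) =
        (u ^ 2 / 2) * (ZK S (Bs : Set S.X) tr ω 2 x + n / 3 * u) := by ring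
    rw [e3, abs_mul, abs_of_pos (show 0 < u ^ 2 / 2 by positivity)] at h1
    refine le_of_mul_le_mul_left ?_ (show 0 < u ^ 2 / 2 by positivity)
    refine (h1.trans h2).trans (le_of_eq ?_)
    ring

/-- **Theorem (polynomial growth): the Riemann hypothesis and one-sided bounds.** -/
theorem growth_tfae (E : TData S (tn S (Bs : Set S.X) tr ω) D)
    (hB : ∀ x ∈ Bs, ∀ s : ℂ, (ω + 1) / 2 ≤ s.re → (B x).eval (((S.N x : ℕ) : ℂ) ^ (-s)) ≠ 0)
    (hd : ∀ s : ℂ, (ω + 1) / 2 < s.re → DifferentiableAt ℂ F s)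
    (he : ∀ s : ℂ, (ω + 2) / 2 < s.re → F s = LFB S Bs B tr s)
    (hm : MeromorphicAt F (((ω + 1) / 2 : ℝ) : ℂ))
    (hn : meromorphicOrderAt F (((ω + 1) / 2 : ℝ) : ℂ) = n)
    (hg : ∃ (C : ℝ) (A : ℕ), ∀ s : ℂ, (ω + 1) / 2 < s.re → ‖F s‖ ≤ C * (1 + ‖s‖) ^ A) :
    List.TFAE [
      ∀ s : ℂ, (ω + 1) / 2 < s.re → F s ≠ 0,
      ∃ C : ℝ, ∀ᶠ x : ℝ in atTop, |SK S (Bs : Set S.X) tr ω 1 x| ≤ C * Real.log x,
      ∃ C : ℝ, ∀ᶠ x : ℝ in atTop, -(C * Real.log x) ≤ SK S (Bs : Set S.X) tr ω 1 x,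
      ∃ C : ℝ, ∀ᶠ x : ℝ in atTop, |ZK S (Bs : Set S.X) tr ω 2 x + n / 3 * Real.log x| ≤ C,
      ∃ (k : ℕ) (C : ℝ), ∀ᶠ x : ℝ in atTop, -(C * Real.log x) ≤ SK S (Bs : Set S.X) tr ω k x] := by
  have hcB : IsContB S Bs B tr ω F := by
    refine ⟨fun s hs => ?_, fun s hs => he s (by simpa using hs)⟩
    refine Complex.analyticAt_iff_eventually_differentiableAt.mpr ?_
    filter_upwards [(isOpen_half ((ω + 1) / 2)).mem_nhds
      (show (ω + 1) / 2 < (s : ℂ).re by simpa using hs)] with z hz using hd z hz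
  have hfull : (∀ s : ℂ, (ω + 1) / 2 < s.re → F s ≠ 0) → IsFullB S Bs B tr ω F := fun h =>
    ⟨fun s hs => (hd s hs).differentiableWithinAt, h, he⟩
  tfae_have 1 → 2 := by
    intro h
    obtain ⟨C, hC⟩ := (means_of_RH E hB (hfull h) hm hn hg).1
    obtain ⟨C', hC'⟩ := SK_ZK E 1
    refine ⟨C + C', ?_⟩
    filter_upwards [hC, hC'] with x h1 h2
    have h3 := abs_sub (ZK S (Bs : Set S.X) tr ω 1 x)
      (ZK S (Bs : Set S.X) tr ω 1 x - SK S (Bs : Set S.X) tr ω 1 x)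
    rw [sub_sub_cancel] at h3
    linarith
  tfae_have 2 → 3 := by
    rintro ⟨C, hC⟩
    exact ⟨C, hC.mono fun x hx => (abs_le.mp hx).1⟩
  tfae_have 1 → 4 := fun h => (means_of_RH E hB (hfull h) hm hn hg).2
  tfae_have 3 → 5 := by
    rintro ⟨C, hC⟩
    exact ⟨1, C, hC⟩
  tfae_have 4 → 5 := by
    rintro ⟨C, hC⟩
    obtain ⟨C', hC'⟩ := SK_ZK E 2
    refine ⟨2, |(n : ℝ) / 3| + |C| + C', ?_⟩
    filter_upwards [hC, hC', one_le_log] with x h1 h2 h3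
    have h4 := (abs_le.mp h1).1
    have h5 := (abs_le.mp h2).2
    have h6 := le_abs_self ((n : ℝ) / 3)
    have h7 := le_abs_self C
    have h8 := abs_nonneg C
    nlinarith
  tfae_have 5 → 1 := by
    intro h
    have h1 := (mero_tfae E hB hcB hm hn).out 1 5
    obtain ⟨G, hG, _⟩ := h1.mp h
    intro s hs
    have h2 : AnalyticOnNhd ℂ F {s : ℂ | (ω + 1) / 2 < s.re} :=
      DifferentiableOn.analyticOnNhd (fun s hs => (hd s hs).differentiableWithinAt) (isOpen_half _)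
    have h3 : AnalyticOnNhd ℂ G {s : ℂ | (ω + 1) / 2 < s.re} := hG.1.analyticOnNhd (isOpen_half _)
    have h4 := h2.eqOn_of_preconnected_of_eventuallyEq h3 (preconn_half _)
      (show (((ω + 2) / 2 + 1 : ℝ) : ℂ) ∈ {s : ℂ | (ω + 1) / 2 < s.re} by
        show (ω + 1) / 2 < (((ω + 2) / 2 + 1 : ℝ) : ℂ).re
        rw [Complex.ofReal_re]; linarith) (by
        filter_upwards [(isOpen_half ((ω + 2) / 2)).mem_nhds
          (show (ω + 2) / 2 < (((ω + 2) / 2 + 1 : ℝ) : ℂ).re by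
            rw [Complex.ofReal_re]; linarith)] with z hz
        rw [he z hz, hG.2.2 z hz])
    rw [h4 hs]
    exact hG.2.1 s hs
  tfae_finish

end Pool.Agent.W263.MN
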