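import Pool.Agent.W263.MN.Gen

/-! Logarithmic derivatives near the centre, and the bad factors. -/

set_option autoImplicit false

namespace Pool.Agent.W263.MN

open MeasureTheory Filter Topology Set Classical
open Pool.Agent.W263.BSD Pool.Agent.W263.EP
open Pool.Agent.H341R2 (NormSys)

section Loc

variable {F G H g : ℂ → ℂ} {c ρ : ℝ} {n : ℤ}

theorem ld_zpow {s : ℂ} (hs : s - c ≠ 0) (hg : DifferentiableAt ℂ g s) (hgs : g s ≠ 0) :
    deriv (fun s => (s - c) ^ n * g s) s / ((s - c) ^ n * g s) = n / (s - c) + deriv g s / g s := by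
  have h0 : HasDerivAt (fun s : ℂ => s - c) 1 s := (hasDerivAt_id s).sub_const _
  have h1 : HasDerivAt (fun s : ℂ => (s - c) ^ n) ((n : ℂ) * (s - c) ^ (n - 1) * 1) s :=
    by
      rw [mul_one]
      exact (hasDerivAt_zpow n (s - c) (Or.inl hs)).comp_sub_const s c
  have h2 := h1.mul hg.hasDerivAt
  have h3 : deriv (fun s => (s - c) ^ n * g s) s = _ := h2.deriv
  rw [h3, zpow_sub_one₀ hs]
  have h4 : (s - c : ℂ) ^ n ≠ 0 := zpow_ne_zero n hs
  field_simp

/-- local form of a meromorphic function -/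
theorem mero_form (hF : MeromorphicAt F c) (hn : meromorphicOrderAt F c = n) :
    ∃ g : ℂ → ℂ, ∃ δ > 0, ∃ M : ℝ, (∀ s : ℂ, ‖s - c‖ < δ → AnalyticAt ℂ g s ∧ g s ≠ 0 ∧
      ‖deriv g s / g s‖ ≤ M) ∧
      ∀ s : ℂ, s ≠ c → ‖s - c‖ < δ → F s = (s - c) ^ n * g s := by
  obtain ⟨g, hg, hg0, he⟩ := (meromorphicOrderAt_eq_int_iff hF).mp hn
  have h1 := hg.eventually_analyticAt
  have h2 := hg.continuousAt.eventually_ne hg0
  have h3 : ContinuousAt (fun s => ‖deriv g s / g s‖) c :=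
    (hg.deriv.continuousAt.div hg.continuousAt hg0).norm
  have h4 := h3.eventually (gt_mem_nhds (show ‖deriv g c / g c‖ < ‖deriv g c / g c‖ + 1 by linarith))
  rw [eventually_nhdsWithin_iff] at he
  obtain ⟨δ, hδ, hb⟩ := Metric.eventually_nhds_iff.mp (h1.and (h2.and (h4.and he)))
  refine ⟨g, δ, hδ, ‖deriv g c / g c‖ + 1, fun s hs => ?_, fun s hs hs' => ?_⟩
  · obtain ⟨k1, k2, k3, _⟩ := hb (by rwa [dist_eq_norm])
    exact ⟨k1, k2, k3.le⟩
  · obtain ⟨_, _, _, k4⟩ := hb (y := s) (by rwa [dist_eq_norm])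
    have := k4 hs
    rwa [smul_eq_mul] at this

/-- the order of a meromorphic function -/
theorem lord_of_mero (hF : MeromorphicAt F c) (hn : meromorphicOrderAt F c = n) :
    LOrd c F n := by
  obtain ⟨g, δ, hδ, M, hg, hFg⟩ := mero_form hF hn
  have hev : ∀ᶠ s : ℝ in 𝓝[>] c, c < s ∧ s < c + δ :=
    Ioo_mem_nhdsGT (show c < c + δ by linarith)
  have hnear : ∀ s : ℝ, c < s → s < c + δ → (s : ℂ) ≠ c ∧ ‖(s : ℂ) - c‖ < δ := by
    intro s h1 h2
    constructor
    · exact_mod_cast h1.ne'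
    · rw [← Complex.ofReal_sub, Complex.norm_real, Real.norm_eq_abs, abs_of_pos (by linarith)]
      linarith
  have key : ∀ s : ℝ, c < s → s < c + δ → F s ≠ 0 ∧
      deriv F s / F s = n / ((s : ℂ) - c) + deriv g s / g s := by
    intro s h1 h2
    obtain ⟨k1, k2⟩ := hnear s h1 h2
    obtain ⟨a1, a2, _⟩ := hg s k2
    have k1' : (s : ℂ) - c ≠ 0 := sub_ne_zero.mpr k1
    have hF1 := hFg s k1 k2
    have heq : F =ᶠ[𝓝 (s : ℂ)] fun s => (s - c) ^ n * g s := by
      have e1 : {t : ℂ | t ≠ c} ∈ 𝓝 (s : ℂ) := isOpen_compl_singleton.mem_nhds k1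
      have e2 : {t : ℂ | ‖t - c‖ < δ} ∈ 𝓝 (s : ℂ) :=
        (isOpen_lt (by fun_prop) continuous_const).mem_nhds k2
      filter_upwards [e1, e2] with t h3 h4 using hFg t h3 h4
    constructor
    · rw [hF1]
      exact mul_ne_zero (zpow_ne_zero _ k1') a2
    · rw [heq.deriv_eq, hF1]
      exact ld_zpow k1' a1.differentiableAt a2
  refine ⟨?_, ?_⟩
  · filter_upwards [hev] with s hs using (key s hs.1 hs.2).1
  · have h1 : Tendsto (fun s : ℝ => ((n : ℝ) : ℂ) + ((s : ℂ) - c) * (deriv g s / g s)) (𝓝[>] c)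
        (𝓝 (((n : ℝ) : ℂ) + 0)) := by
      refine Tendsto.const_add _ ?_
      rw [tendsto_zero_iff_norm_tendsto_zero]
      have h2 : Tendsto (fun s : ℝ => (s - c) * M) (𝓝[>] c) (𝓝 ((c - c) * M)) := by
        have : Continuous fun s : ℝ => (s - c) * M := by fun_prop
        exact tendsto_nhdsWithin_of_tendsto_nhds (this.tendsto c)
      rw [sub_self, zero_mul] at h2
      refine squeeze_zero' (Eventually.of_forall fun s => norm_nonneg _) ?_ h2
      filter_upwards [hev] with s hs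
      rw [norm_mul, ← Complex.ofReal_sub, Complex.norm_real, Real.norm_eq_abs,
        abs_of_pos (by linarith [hs.1])]
      exact mul_le_mul_of_nonneg_left (hg s (hnear s hs.1 hs.2).2).2.2 (by linarith [hs.1])
    rw [add_zero] at h1
    refine h1.congr' ?_
    filter_upwards [hev] with s hs
    rw [(key s hs.1 hs.2).2]
    have : (s : ℂ) - c ≠ 0 := sub_ne_zero.mpr (hnear s hs.1 hs.2).1
    push_cast
    field_simp

/-- the logarithmic derivative near the centre -/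
theorem near_centre (hF : MeromorphicAt F c) (hn : meromorphicOrderAt F c = n)
    (hG : ∀ s : ℂ, c < s.re → DifferentiableAt ℂ G s) (heq : ∀ s : ℝ, c < s → F s = G s) :
    ∃ δ > 0, ∃ M : ℝ, ∀ s : ℂ, c < s.re → ‖s - c‖ < δ →
      ‖deriv G s / G s - n / (s - c)‖ ≤ M := by
  obtain ⟨g, δ, hδ, M, hg, hFg⟩ := mero_form hF hn
  refine ⟨δ, hδ, M, fun s hs hsd => ?_⟩
  set U : Set ℂ := {s : ℂ | c < s.re} ∩ Metric.ball (c : ℂ) δ with hU
  have hUo : IsOpen U := (isOpen_half c).inter Metric.isOpen_ball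
  have hUc : IsPreconnected U := ((convex_halfSpace_re_gt c).inter (convex_ball _ _)).isPreconnected
  have hne : ∀ t ∈ U, t ≠ (c : ℂ) := by
    rintro t ht rfl
    have : c < ((c : ℝ) : ℂ).re := ht.1
    rw [Complex.ofReal_re] at this
    exact lt_irrefl _ this
  have hball : ∀ t ∈ U, ‖t - c‖ < δ := fun t ht => by
    have := ht.2
    rwa [Metric.mem_ball, dist_eq_norm] at this
  have h1 : AnalyticOnNhd ℂ G U :=
    DifferentiableOn.analyticOnNhd (fun t ht => (hG t ht.1).differentiableWithinAt) hUo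
  have h2 : AnalyticOnNhd ℂ (fun s => (s - c) ^ n * g s) U := by
    refine DifferentiableOn.analyticOnNhd (fun t ht => ?_) hUo
    refine DifferentiableAt.differentiableWithinAt ?_
    refine DifferentiableAt.mul ?_ (hg t (hball t ht)).1.differentiableAt
    have h0 : HasDerivAt (fun s : ℂ => s - c) 1 t := (hasDerivAt_id t).sub_const _
    exact ((hasDerivAt_zpow n (t - c) (Or.inl (sub_ne_zero.mpr (hne t ht)))).comp t
      h0).differentiableAt
  have hmem : ((c + δ / 2 : ℝ) : ℂ) ∈ U := by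
    refine ⟨?_, ?_⟩
    · show c < ((c + δ / 2 : ℝ) : ℂ).re
      rw [Complex.ofReal_re]; linarith
    · rw [Metric.mem_ball, dist_eq_norm, ← Complex.ofReal_sub, Complex.norm_real,
        Real.norm_eq_abs, add_sub_cancel_left, abs_of_pos (by linarith)]
      linarith
  have h3 := h1.eqOn_of_preconnected_of_frequently_eq h2 hUc hmem (by
    refine (cast_tendsto (c + δ / 2)).frequently (Eventually.frequently ?_)
    filter_upwards [Ioo_mem_nhdsGT (show c + δ / 2 < c + δ by linarith)] with t ht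
    have ht1 := ht.1
    have ht2 := ht.2
    rw [← heq t (by linarith)]
    refine hFg t ?_ ?_
    · have : t ≠ c := by linarith
      exact_mod_cast this
    · rw [← Complex.ofReal_sub, Complex.norm_real, Real.norm_eq_abs, abs_of_pos (by linarith)]
      linarith)
  have hsU : s ∈ U := ⟨hs, by rwa [Metric.mem_ball, dist_eq_norm]⟩
  have h4 : G =ᶠ[𝓝 s] fun s => (s - c) ^ n * g s := by
    filter_upwards [hUo.mem_nhds hsU] with t ht using h3 ht
  obtain ⟨a1, a2, a3⟩ := hg s hsd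
  rw [h4.deriv_eq, h3 hsU, ld_zpow (sub_ne_zero.mpr (hne s hsU)) a1.differentiableAt a2,
    add_sub_cancel_left]
  exact a3

theorem LOrd.mul (hF : LOrd c F ρ) (hFa : ∀ s : ℝ, c < s → AnalyticAt ℂ F s)
    (hH : AnalyticAt ℂ H c) (h0 : H c ≠ 0) : LOrd c (fun s => F s * H s) ρ := by
  have h1 : ∀ᶠ s : ℂ in 𝓝 (c : ℂ), AnalyticAt ℂ H s ∧ H s ≠ 0 :=
    hH.eventually_analyticAt.and (hH.continuousAt.eventually_ne h0)
  have h1' : ∀ᶠ s : ℝ in 𝓝[>] c, AnalyticAt ℂ H s ∧ H s ≠ 0 :=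
    ((cast_tendsto c).mono_right nhdsWithin_le_nhds).eventually h1
  refine ⟨?_, ?_⟩
  · filter_upwards [hF.1, h1'] with s h2 h3 using mul_ne_zero h2 h3.2
  · have h2 : Tendsto (fun s : ℝ => deriv H s / H s) (𝓝[>] c) (𝓝 (deriv H c / H c)) :=
      (hH.deriv.continuousAt.div hH.continuousAt h0).tendsto.comp
        ((cast_tendsto c).mono_right nhdsWithin_le_nhds)
    have h3 : Tendsto (fun s : ℝ => (s : ℂ) - c) (𝓝[>] c) (𝓝 ((c : ℂ) - c)) := by
      have : Continuous fun s : ℝ => (s : ℂ) - c := by fun_prop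
      exact tendsto_nhdsWithin_of_tendsto_nhds (this.tendsto c)
    have h4 := hF.2.add (h3.mul h2)
    rw [sub_self, zero_mul, add_zero] at h4
    refine h4.congr' ?_
    filter_upwards [hF.1, h1', self_mem_nhdsWithin] with s k1 k2 k3
    have hd : deriv (fun s => F s * H s) s = deriv F s * H s + F s * deriv H s :=
      deriv_fun_mul (hFa s k3).differentiableAt k2.1.differentiableAt
    rw [hd]
    have := k2.2
    field_simp

end Loc

section Gen

variable {S : NormSys} {Bs : Finset S.X} {B : S.X → Polynomial ℂ} {tr : S.X → ℕ → ℝ} {ω : ℝ}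
  {D : ℝ} {F G : ℂ → ℂ} {ρ : ℝ}

/-- **Von Mangoldt means and the order,** with arbitrary bad factors. -/
theorem zk_tfaeB (E : TData S (tn S (Bs : Set S.X) tr ω) D)
    (hB : ∀ x ∈ Bs, ∀ s : ℂ, (ω + 1) / 2 ≤ s.re → (B x).eval (((S.N x : ℕ) : ℂ) ^ (-s)) ≠ 0)
    (ρ : ℝ) :
    List.TFAE [
      ∃ k : ℕ, Tendsto (fun x : ℝ => ZK S (Bs : Set S.X) tr ω k x / Real.log x) atTop
        (𝓝 (-ρ / (k + 1))),
      (∃ F : ℂ → ℂ, IsContB S Bs B tr ω F ∧ LOrd ((ω + 1) / 2) F ρ) ∧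
        ∃ (k : ℕ) (K : ℝ), ∀ᶠ x : ℝ in atTop,
          -(K * Real.log x) ≤ ZK S (Bs : Set S.X) tr ω k x,
      (∃ F : ℂ → ℂ, IsContB S Bs B tr ω F ∧ LOrd ((ω + 1) / 2) F ρ ∧
        ∀ s : ℝ, (ω + 1) / 2 < s → F s ≠ 0) ∧
        ∃ (k : ℕ) (K : ℝ), ∀ᶠ x : ℝ in atTop, ZK S (Bs : Set S.X) tr ω k x ≤ K * Real.log x,
      (∃ F : ℂ → ℂ, IsFullB S Bs B tr ω F ∧ LOrd ((ω + 1) / 2) F ρ) ∧
        ∃ (k : ℕ) (K : ℝ), ∀ᶠ x : ℝ in atTop,
          |ZK S (Bs : Set S.X) tr ω k x| ≤ K * Real.log x] := by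
  have hT := zk_tfae E ρ
  have hBc : BB S Bs B (((ω + 1) / 2 : ℝ) : ℂ) ≠ 0 := BB_ne hB (by rw [Complex.ofReal_re])
  have hBa : AnalyticAt ℂ (BB S Bs B) (((ω + 1) / 2 : ℝ) : ℂ) := BB_diff.analyticAt _
  tfae_have 1 → 4 := by
    intro h
    obtain ⟨⟨F, hF, hO⟩, hK⟩ := (hT.out 0 3).mp h
    refine ⟨⟨_, hF.isFullB E hB, ?_⟩, hK⟩
    exact hO.mul hF.isCont.1 (hBa.inv hBc) (inv_ne_zero hBc)
  tfae_have 4 → 2 := by
    rintro ⟨⟨F, hF, hO⟩, k, K, hK⟩
    exact ⟨⟨F, hF.isContB, hO⟩, k, K, hK.mono fun x hx => (abs_le.mp hx).1⟩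
  tfae_have 4 → 3 := by
    rintro ⟨⟨F, hF, hO⟩, k, K, hK⟩
    exact ⟨⟨F, hF.isContB, hO, fun s hs => hF.2.1 s (by simpa using hs)⟩, k, K,
      hK.mono fun x hx => (abs_le.mp hx).2⟩
  tfae_have 2 → 1 := by
    rintro ⟨⟨F, hF, hO⟩, hK⟩
    have key := hT.out 0 1
    exact key.mpr ⟨⟨_, hF.isCont E hB, hO.mul hF.1 hBa hBc⟩, hK⟩
  tfae_have 3 → 1 := by
    rintro ⟨⟨F, hF, hO, hne⟩, hK⟩
    have key := hT.out 0 2
    refine key.mpr ⟨⟨_, hF.isCont E hB, hO.mul hF.1 hBa hBc, fun s hs => ?_⟩, hK⟩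
    exact mul_ne_zero (hne s hs) (BB_ne hB (by simp only [Complex.ofReal_re]; linarith))
  tfae_finish

/-- the lower growth exponent of all means lies below the order -/
theorem zk_freq_lower (E : TData S (tn S (Bs : Set S.X) tr ω) D)
    (hB : ∀ x ∈ Bs, ∀ s : ℂ, (ω + 1) / 2 ≤ s.re → (B x).eval (((S.N x : ℕ) : ℂ) ^ (-s)) ≠ 0)
    (hF : IsContB S Bs B tr ω F) (hO : LOrd ((ω + 1) / 2) F ρ) (k : ℕ) {σ : ℝ} (hσ : σ < ρ) :
    ∃ᶠ x : ℝ in atTop, ZK S (Bs : Set S.X) tr ω k x < -(σ / (k + 1) * Real.log x) := by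
  intro hcon
  have h1 : ∀ᶠ x : ℝ in atTop, -(σ / (k + 1) * Real.log x) ≤ ZK S (Bs : Set S.X) tr ω k x :=
    hcon.mono fun x hx => not_lt.mp hx
  have hBc : BB S Bs B (((ω + 1) / 2 : ℝ) : ℂ) ≠ 0 := BB_ne hB (by rw [Complex.ofReal_re])
  have hBa : AnalyticAt ℂ (BB S Bs B) (((ω + 1) / 2 : ℝ) : ℂ) := BB_diff.analyticAt _
  have h2 := ZK_lower h1
  have hk : ((k : ℝ) + 1) ≠ 0 := by positivity
  rw [div_mul_cancel₀ _ hk] at h2
  have h3 := (pair E).le_of_lower (dataP E (hF.isCont E hB)) (hO.mul hF.1 hBa hBc).shift h2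
  linarith

/-- the upper growth exponent of all means lies above the order, without real zeros -/
theorem zk_freq_upper (E : TData S (tn S (Bs : Set S.X) tr ω) D)
    (hB : ∀ x ∈ Bs, ∀ s : ℂ, (ω + 1) / 2 ≤ s.re → (B x).eval (((S.N x : ℕ) : ℂ) ^ (-s)) ≠ 0)
    (hF : IsContB S Bs B tr ω F) (hO : LOrd ((ω + 1) / 2) F ρ)
    (hne : ∀ s : ℝ, (ω + 1) / 2 < s → F s ≠ 0) (k : ℕ) {σ : ℝ} (hσ : ρ < σ) :
    ∃ᶠ x : ℝ in atTop, -(σ / (k + 1) * Real.log x) < ZK S (Bs : Set S.X) tr ω k x := by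
  intro hcon
  have h1 : ∀ᶠ x : ℝ in atTop, ZK S (Bs : Set S.X) tr ω k x ≤ (-(σ / (k + 1))) * Real.log x :=
    hcon.mono fun x hx => by linarith [not_lt.mp hx]
  have hBc : BB S Bs B (((ω + 1) / 2 : ℝ) : ℂ) ≠ 0 := BB_ne hB (by rw [Complex.ofReal_re])
  have hBa : AnalyticAt ℂ (BB S Bs B) (((ω + 1) / 2 : ℝ) : ℂ) := BB_diff.analyticAt _
  have h2 := ZK_upper h1
  have hk : ((k : ℝ) + 1) ≠ 0 := by positivity
  rw [neg_mul, div_mul_cancel₀ _ hk] at h2
  have h3 := (pair E).ge_of_upper (dataP E (hF.isCont E hB)) (hO.mul hF.1 hBa hBc).shift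
    (Phi_ne (F := fun s => F s * BB S Bs B s) fun s hs => mul_ne_zero (hne s hs)
      (BB_ne hB (by simp only [Complex.ofReal_re]; linarith))) (σ := σ) (by
        filter_upwards [h2] with u hu
        linarith)
  linarith

/-- bound for the logarithmic derivative of the bad factors -/
theorem BB_ld (hB : ∀ x ∈ Bs, ∀ s : ℂ, (ω + 1) / 2 ≤ s.re →
    (B x).eval (((S.N x : ℕ) : ℂ) ^ (-s)) ≠ 0) (b : ℝ) :
    ∃ M : ℝ, ∀ s : ℂ, (ω + 1) / 2 ≤ s.re → s.re ≤ b → ‖deriv (BB S Bs B) s / BB S Bs B s‖ ≤ M := by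
  have key : ∀ x ∈ Bs, ∃ M : ℝ, ∀ s : ℂ, (ω + 1) / 2 ≤ s.re → s.re ≤ b →
      ‖logDeriv (fun s : ℂ => (B x).eval (((S.N x : ℕ) : ℂ) ^ (-s))) s‖ ≤ M := by
    intro x hx
    set N : ℝ := ((S.N x : ℕ) : ℝ) with hN
    have hN0 : 0 < N := S.N_pos x
    have hN1 : 1 < N := by
      have := N_real_two (S := S) x
      rw [hN]; linarith
    set K : Set ℂ := {z : ℂ | N ^ (-b) ≤ ‖z‖ ∧ ‖z‖ ≤ N ^ (-((ω + 1) / 2))} with hK
    have hKc : IsCompact K := by
      refine Metric.isCompact_of_isClosed_isBounded ?_ ?_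
      · exact (isClosed_le continuous_const continuous_norm).inter
          (isClosed_le continuous_norm continuous_const)
      · refine (Metric.isBounded_closedBall (x := (0 : ℂ)) (r := N ^ (-((ω + 1) / 2)))).subset ?_
        intro z hz
        rw [Metric.mem_closedBall, dist_zero_right]
        exact hz.2
    have hlog : (Real.log N) ≠ 0 := (Real.log_pos hN1).ne'
    have hne : ∀ z ∈ K, (B x).eval z ≠ 0 := by
      intro z hz
      have hz0 : 0 < ‖z‖ := lt_of_lt_of_le (by positivity) hz.1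
      have hz' : z ≠ 0 := norm_pos_iff.mp hz0
      have e1 : ((S.N x : ℕ) : ℂ) ^ (-(-(Complex.log z / Real.log N))) = z := by
        rw [neg_neg, Complex.cpow_def_of_ne_zero (S.N_ne x)]
        have e2 : Complex.log ((S.N x : ℕ) : ℂ) = (Real.log N : ℂ) := by
          rw [hN, ← Complex.natCast_log]
        rw [e2, mul_div_cancel₀ _ (by exact_mod_cast hlog), Complex.exp_log hz']
      have e3 : (-(Complex.log z / Real.log N)).re = -(Real.log ‖z‖ / Real.log N) := by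
        rw [Complex.neg_re, Complex.div_ofReal_re, Complex.log_re]
      have e4 := hB x hx (-(Complex.log z / Real.log N)) (by
        rw [e3, le_neg, div_le_iff₀ (Real.log_pos hN1)]
        have := Real.log_le_log hz0 hz.2
        rw [Real.log_rpow hN0] at this
        linarith)
      rwa [e1] at e4
    obtain ⟨M, hM⟩ := hKc.exists_bound_of_continuousOn
      (f := fun z : ℂ => (Real.log N : ℂ) * (z * (B x).derivative.eval z / (B x).eval z)) (by
        refine ContinuousOn.mul continuousOn_const (ContinuousOn.div ?_ ?_ hne)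
        · exact (continuous_id.mul (B x).derivative.continuous).continuousOn
        · exact (B x).continuous.continuousOn)
    refine ⟨M, fun s h1 h2 => ?_⟩
    have h3 : ((S.N x : ℕ) : ℂ) ^ (-s) ∈ K := by
      have e1 : ‖((S.N x : ℕ) : ℂ) ^ (-s)‖ = N ^ (-s.re) := by
        rw [hN, ← Complex.ofReal_natCast, Complex.norm_cpow_eq_rpow_re_of_pos (S.N_pos x),
          Complex.neg_re]
      refine ⟨?_, ?_⟩
      · rw [e1]; exact Real.rpow_le_rpow_of_exponent_le hN1.le (by linarith)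
      · rw [e1]; exact Real.rpow_le_rpow_of_exponent_le hN1.le (by linarith)
    have h4 : HasDerivAt (fun s : ℂ => ((S.N x : ℕ) : ℂ) ^ (-s))
        (((S.N x : ℕ) : ℂ) ^ (-s) * Complex.log ((S.N x : ℕ) : ℂ) * (-1)) s :=
      (hasDerivAt_neg s).const_cpow (Or.inl (S.N_ne x))
    have h5 : HasDerivAt (fun s : ℂ => (B x).eval (((S.N x : ℕ) : ℂ) ^ (-s)))
        ((B x).derivative.eval (((S.N x : ℕ) : ℂ) ^ (-s)) *
          (((S.N x : ℕ) : ℂ) ^ (-s) * Complex.log ((S.N x : ℕ) : ℂ) * (-1))) s :=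
      ((B x).hasDerivAt _).comp s h4
    have h6 := hM _ h3
    rw [logDeriv_apply, h5.deriv]
    have e2 : Complex.log ((S.N x : ℕ) : ℂ) = (Real.log N : ℂ) := by
      rw [hN, ← Complex.natCast_log]
    rw [e2]
    refine le_trans (le_of_eq ?_) h6
    rw [← norm_neg]
    congr 1
    ring
  choose! M hM using key
  refine ⟨∑ x ∈ Bs, M x, fun s h1 h2 => ?_⟩
  have e1 : deriv (BB S Bs B) s / BB S Bs B s = ∑ x ∈ Bs,
      logDeriv (fun s : ℂ => (B x).eval (((S.N x : ℕ) : ℂ) ^ (-s))) s := by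
    rw [← logDeriv_prod (fun x hx => hB x hx s h1) (fun x hx => ?_), logDeriv_apply]
    · rfl
    · have h3 : Differentiable ℂ fun s : ℂ => ((S.N x : ℕ) : ℂ) ^ (-s) :=
        Differentiable.const_cpow (by fun_prop) (Or.inl (S.N_ne x))
      exact ((B x).differentiable.comp h3).differentiableAt
  rw [e1]
  exact (norm_sum_le _ _).trans (Finset.sum_le_sum fun x hx => hM x hx s h1 h2)

end Gen

end Pool.Agent.W263.MN
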