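import Pool.Agent.W263.MN.Kar

/-! The system of prime powers, and sums with von Mangoldt weights. -/

set_option autoImplicit false

namespace Pool.Agent.W263.MN

open MeasureTheory Filter Topology Set Classical
open Pool.Agent.W263.BSD Pool.Agent.W263.EP
open Pool.Agent.H341R2 (NormSys)

theorem pow_rpow (n m : ℕ) (r : ℝ) : ((n ^ (m + 1) : ℕ) : ℝ) ^ r = ((n : ℝ) ^ r) ^ (m + 1) := by
  rw [Nat.cast_pow, ← Real.rpow_natCast, ← Real.rpow_mul (Nat.cast_nonneg n), mul_comm,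
    Real.rpow_mul (Nat.cast_nonneg n), Real.rpow_natCast]

theorem rpow_le_34 (S : NormSys) (x : S.X) {r : ℝ} (hr : r ≤ -1) : (S.N x : ℝ) ^ r ≤ 3 / 4 := by
  have h1 : (S.N x : ℝ) ^ r ≤ (S.N x : ℝ) ^ (-1 : ℝ) :=
    Real.rpow_le_rpow_of_exponent_le (by linarith [N_real_two x]) hr
  refine h1.trans ?_
  rw [← hh_sq]
  have := hh_le (S := S) x
  have := (hh_pos (S := S) x).le
  nlinarith

theorem pw_term_le (S : NormSys) {r : ℝ} (hr : r ≤ -1) (x : S.X) (m : ℕ) :
    ((S.N x ^ (m + 1) : ℕ) : ℝ) ^ r ≤ 1 * ((S.N x : ℝ) ^ r * (3 / 4 : ℝ) ^ (m - 0)) := by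
  rw [pow_rpow, one_mul, Nat.sub_zero, pow_succ']
  have h0 : 0 ≤ (S.N x : ℝ) ^ r := by positivity
  exact mul_le_mul_of_nonneg_left (pow_le_pow_left₀ h0 (rpow_le_34 S x hr) m) h0

/-- the system of the powers of the elements of `S` -/
noncomputable def pw (S : NormSys) : NormSys where
  X := S.X × ℕ
  N := fun p => S.N p.1 ^ (p.2 + 1)
  two_le := fun p => (S.two_le p.1).trans (Nat.le_self_pow (by omega) _)
  summable := fun r hr => by
    refine Summable.of_nonneg_of_le (fun p => by positivity) (fun p => ?_)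
      (prod_summable S hr 1 0)
    exact pw_term_le S hr.le p.1 p.2
  log_bdd := by
    obtain ⟨C, hC⟩ := S.log_bdd
    refine ⟨C + ∑' x : S.X, (S.N x : ℝ) ^ (-2 : ℝ) * 4, ?_⟩
    filter_upwards [hC, self_mem_nhdsWithin] with ε h1 h2
    have hε : (0 : ℝ) < ε := h2
    have hr : -(1 + ε) < -1 := by linarith
    have hs : Summable fun p : S.X × ℕ => ((S.N p.1 ^ (p.2 + 1) : ℕ) : ℝ) ^ (-(1 + ε)) :=
      Summable.of_nonneg_of_le (fun p => by positivity) (fun p => pw_term_le S hr.le p.1 p.2)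
        (prod_summable S hr 1 0)
    have hx : ∀ x : S.X, Summable fun m : ℕ => ((S.N x ^ (m + 1) : ℕ) : ℝ) ^ (-(1 + ε)) :=
      fun x => hs.prod_factor x
    have hx1 : ∀ x : S.X, Summable fun m : ℕ => ((S.N x ^ (m + 1 + 1) : ℕ) : ℝ) ^ (-(1 + ε)) :=
      fun x => (summable_nat_add_iff (f := fun m : ℕ => ((S.N x ^ (m + 1) : ℕ) : ℝ) ^ (-(1 + ε)))
        1).mpr (hx x)
    have e1 : ∀ x : S.X, ∑' m : ℕ, ((S.N x ^ (m + 1) : ℕ) : ℝ) ^ (-(1 + ε)) =
        (S.N x : ℝ) ^ (-(1 + ε)) + ∑' m : ℕ, ((S.N x ^ (m + 1 + 1) : ℕ) : ℝ) ^ (-(1 + ε)) := by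
      intro x
      rw [(hx x).tsum_eq_zero_add]
      congr 1
      rw [zero_add, pow_one]
    have hb : ∀ x : S.X, ∑' m : ℕ, ((S.N x ^ (m + 1 + 1) : ℕ) : ℝ) ^ (-(1 + ε)) ≤
        (S.N x : ℝ) ^ (-2 : ℝ) * 4 := by
      intro x
      have h3 := geo_hasSum.mul_left ((S.N x : ℝ) ^ (-2 : ℝ))
      rw [← h3.tsum_eq]
      refine Summable.tsum_le_tsum (fun m => ?_) (hx1 x) h3.summable
      rw [pow_rpow]
      have h0 : 0 ≤ (S.N x : ℝ) ^ (-(1 + ε)) := by positivity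
      have h4 : (S.N x : ℝ) ^ (-(1 + ε)) ≤ (S.N x : ℝ) ^ (-1 : ℝ) :=
        Real.rpow_le_rpow_of_exponent_le (by linarith [N_real_two x]) hr.le
      have h5 : (S.N x : ℝ) ^ (-2 : ℝ) = ((S.N x : ℝ) ^ (-1 : ℝ)) ^ 2 := by
        rw [← Real.rpow_natCast, ← Real.rpow_mul (S.N_pos x).le]; norm_num
      rw [show m + 1 + 1 = 2 + m by ring, pow_add, h5]
      exact mul_le_mul (pow_le_pow_left₀ h0 h4 2)
        (pow_le_pow_left₀ h0 (rpow_le_34 S x hr.le) m) (by positivity) (by positivity)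
    have hsx : Summable fun x : S.X => ∑' m : ℕ, ((S.N x ^ (m + 1 + 1) : ℕ) : ℝ) ^ (-(1 + ε)) :=
      Summable.of_nonneg_of_le (fun x => tsum_nonneg fun m => by positivity) hb
        ((S.summable (-2) (by norm_num)).mul_right 4)
    have e2 : ∑' p : S.X × ℕ, ((S.N p.1 ^ (p.2 + 1) : ℕ) : ℝ) ^ (-(1 + ε)) =
        ∑' x : S.X, (S.N x : ℝ) ^ (-(1 + ε)) +
        ∑' x : S.X, ∑' m : ℕ, ((S.N x ^ (m + 1 + 1) : ℕ) : ℝ) ^ (-(1 + ε)) := by
      rw [hs.tsum_prod, ← (S.summable _ hr).tsum_add hsx]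
      exact tsum_congr e1
    have h6 : 0 ≤ ∑' x : S.X, ∑' m : ℕ, ((S.N x ^ (m + 1 + 1) : ℕ) : ℝ) ^ (-(1 + ε)) :=
      tsum_nonneg fun x => tsum_nonneg fun m => by positivity
    have h7 : ∑' x : S.X, ∑' m : ℕ, ((S.N x ^ (m + 1 + 1) : ℕ) : ℝ) ^ (-(1 + ε)) ≤
        ∑' x : S.X, (S.N x : ℝ) ^ (-2 : ℝ) * 4 :=
      Summable.tsum_le_tsum hb hsx ((S.summable (-2) (by norm_num)).mul_right 4)
    rw [e2]
    have h8 := abs_le.mp h1
    rw [abs_le]
    constructor <;> linarith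

section Ria

variable (S : NormSys)

/-- iterated integrals of step sums -/
theorem ria_stp (c : S.X → ℝ) (k : ℕ) (u : ℝ) : ria (stp (fib S.N c)) k u =
    ∑ x ∈ (fin_norm S (Real.exp u)).toFinset,
      c x * ((u - Real.log (S.N x)) ^ k / (k.factorial : ℝ)) := by
  induction k generalizing u with
  | zero =>
    show stp (fib S.N c) u = _
    rw [stp_fib S.N (S.summable (-2) (by norm_num)) S.two_le]
    simp only [pow_zero, Nat.factorial_zero, Nat.cast_one, div_one, mul_one]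
    refine Finset.sum_congr ?_ fun _ _ => rfl
    ext x
    rw [Set.Finite.mem_toFinset, Set.Finite.mem_toFinset, mem_ofPred_eq, mem_ofPred_eq,
      Nat.le_floor_iff (Real.exp_pos u).le]
  | succ k ih =>
    show intU (ria (stp (fib S.N c)) k) u = _
    unfold intU
    have h1 : ∀ v ∈ Ioc 0 u, ria (stp (fib S.N c)) k v = ∑ x ∈ (fin_norm S (Real.exp u)).toFinset,
        c x * (Ici (Real.log (S.N x))).indicator
          (fun v => (v - Real.log (S.N x)) ^ k / (k.factorial : ℝ)) v := by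
      intro v hv
      rw [ih]
      have h2 : (fin_norm S (Real.exp v)).toFinset =
          (fin_norm S (Real.exp u)).toFinset.filter fun x => Real.log (S.N x) ≤ v := by
        ext x
        rw [Finset.mem_filter, mem_fin, mem_fin]
        constructor
        · intro h; exact ⟨h.trans hv.2, h⟩
        · intro h; exact h.2
      rw [h2, Finset.sum_filter]
      refine Finset.sum_congr rfl fun x _ => ?_
      simp only [indicator, mem_Ici]
      split_ifs <;> simp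
    rw [setIntegral_congr_fun measurableSet_Ioc h1, integral_finsetSum]
    · refine Finset.sum_congr rfl fun x hx => ?_
      rw [integral_const_mul, (int_pow (logN_pos x) (mem_fin.mp hx) k).2]
    · intro x hx
      exact (int_pow (logN_pos x) (mem_fin.mp hx) k).1.const_mul _

end Ria

variable {S : NormSys} {t : S.X → ℕ → ℝ} {D : ℝ}

/-- coefficients of the logarithm -/
noncomputable def ca (S : NormSys) (t : S.X → ℕ → ℝ) (p : (pw S).X) : ℝ :=
  -(t p.1 (p.2 + 1) / ((p.2 : ℝ) + 1))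

/-- coefficients of the logarithmic derivative -/
noncomputable def cz (S : NormSys) (t : S.X → ℕ → ℝ) (p : (pw S).X) : ℝ :=
  t p.1 (p.2 + 1) * Real.log (S.N p.1)

theorem pw_N (p : (pw S).X) : (pw S).N p = S.N p.1 ^ (p.2 + 1) := rfl

theorem pw_log (p : (pw S).X) : Real.log ((pw S).N p) = ((p.2 : ℝ) + 1) * Real.log (S.N p.1) := by
  rw [pw_N, Nat.cast_pow, Real.log_pow]
  push_cast
  ring

theorem cz_eq (p : (pw S).X) : cz S t p = -(ca S t p * Real.log ((pw S).N p)) := by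
  rw [pw_log]
  unfold cz ca
  have : ((p.2 : ℝ) + 1) ≠ 0 := by positivity
  field_simp

theorem pw_bound (E : TData S t D) {w δ : ℝ} (hw : 0 ≤ w) (p : (pw S).X) {B : ℝ}
    (hB : |B| ≤ (S.N p.1 : ℝ) ^ δ / δ) :
    |t p.1 (p.2 + 1) * B| * ((pw S).N p : ℝ) ^ (-w) ≤
      (D / δ) * ((S.N p.1 : ℝ) ^ (-(1 / 2) - w + δ) * (3 / 4 : ℝ) ^ (p.2 - 0)) := by
  have hD := E.nonneg
  rw [pw_N, pow_rpow, abs_mul]
  have h1 := E.bound p.1 p.2
  have h2 := pow_hh_le (S := S) p.1 (show 0 ≤ p.2 by omega)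
  simp only [zero_add, pow_one] at h2
  have h3 : (S.N p.1 : ℝ) ^ (-w) ≤ 1 := by
    have := Real.rpow_le_rpow_of_exponent_le (x := (S.N p.1 : ℝ)) (by linarith [N_real_two p.1])
      (show -w ≤ 0 by linarith)
    rwa [Real.rpow_zero] at this
  have h4 : 0 ≤ (S.N p.1 : ℝ) ^ (-w) := by positivity
  have h5 : ((S.N p.1 : ℝ) ^ (-w)) ^ (p.2 + 1) ≤ (S.N p.1 : ℝ) ^ (-w) := by
    rw [pow_succ]
    calc _ ≤ 1 * (S.N p.1 : ℝ) ^ (-w) := mul_le_mul_of_nonneg_right (pow_le_one₀ h4 h3) h4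
      _ = _ := one_mul _
  have h6 := (hh_pos (S := S) p.1).le
  have h7 : 0 ≤ (S.N p.1 : ℝ) ^ δ / δ := (abs_nonneg B).trans hB
  have e1 : (S.N p.1 : ℝ) ^ (-(1 / 2) - w + δ) = hh S p.1 * (S.N p.1 : ℝ) ^ (-w) *
      (S.N p.1 : ℝ) ^ δ := by
    rw [hh_mul, ← Real.rpow_add (S.N_pos p.1)]
  calc |t p.1 (p.2 + 1)| * |B| * ((S.N p.1 : ℝ) ^ (-w)) ^ (p.2 + 1) ≤
      (D * (hh S p.1 * (3 / 4 : ℝ) ^ (p.2 - 0))) * ((S.N p.1 : ℝ) ^ δ / δ) *
        (S.N p.1 : ℝ) ^ (-w) := by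
        have h8 : |t p.1 (p.2 + 1)| ≤ D * (hh S p.1 * (3 / 4 : ℝ) ^ (p.2 - 0)) :=
          h1.trans (mul_le_mul_of_nonneg_left h2 hD)
        have h9 : 0 ≤ D * (hh S p.1 * (3 / 4 : ℝ) ^ (p.2 - 0)) := by positivity
        exact mul_le_mul (mul_le_mul h8 hB (abs_nonneg _) h9) h5 (by positivity)
          (mul_nonneg h9 h7)
    _ = _ := by rw [e1]; ring

theorem cz_summable (E : TData S t D) {w : ℝ} (hw : 1 / 2 < w) :
    Summable fun p : (pw S).X => |cz S t p| * ((pw S).N p : ℝ) ^ (-w) := by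
  set δ : ℝ := (w - 1 / 2) / 2 with hδ
  have hδ0 : 0 < δ := by rw [hδ]; linarith
  refine Summable.of_nonneg_of_le (fun p => by positivity) (fun p => ?_)
    (prod_summable S (show -(1 / 2) - w + δ < -1 by rw [hδ]; linarith) (D / δ) 0)
  refine pw_bound E (by linarith) p ?_
  rw [abs_of_pos (logN_pos p.1)]
  exact Real.log_le_rpow_div (S.N_pos p.1).le hδ0

theorem ca_summable (E : TData S t D) {w : ℝ} (hw : 1 / 2 < w) :
    Summable fun p : (pw S).X => |ca S t p| * ((pw S).N p : ℝ) ^ (-w) := by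
  refine Summable.of_nonneg_of_le (fun p => by positivity) (fun p => ?_)
    ((cz_summable E hw).mul_left (1 / Real.log 2))
  rw [cz_eq, abs_neg, abs_mul, ← mul_assoc]
  have h2 : 0 < Real.log 2 := Real.log_pos (by norm_num)
  have h3 : Real.log 2 ≤ |Real.log ((pw S).N p)| := by
    rw [abs_of_pos (logN_pos p)]
    exact Real.log_le_log (by norm_num) (N_real_two p)
  refine mul_le_mul_of_nonneg_right ?_ (by positivity)
  rw [one_div, inv_mul_eq_div, le_div_iff₀ h2]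
  exact mul_le_mul_of_nonneg_left h3 (abs_nonneg _)

/-- the step sum of the logarithm -/
noncomputable def ap (S : NormSys) (t : S.X → ℕ → ℝ) : ℝ → ℝ := stp (fib (pw S).N (ca S t))

/-- the step sum of the logarithmic derivative -/
noncomputable def zp (S : NormSys) (t : S.X → ℕ → ℝ) : ℝ → ℝ := stp (fib (pw S).N (cz S t))

theorem ap_meas : Measurable (ap S t) := stp_meas _

theorem zp_meas : Measurable (zp S t) := stp_meas _

theorem ap_LInt (E : TData S t D) {w : ℝ} (hw : 1 / 2 < w) : LInt (ap S t) w :=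
  LInt_sys (pw S) (by norm_num) (fun _ hw => ca_summable E hw) hw

theorem zp_LInt (E : TData S t D) {w : ℝ} (hw : 1 / 2 < w) : LInt (zp S t) w :=
  LInt_sys (pw S) (by norm_num) (fun _ hw => cz_summable E hw) hw

theorem LL_ap (E : TData S t D) {w : ℝ} (hw : 1 / 2 < w) :
    LL S t w = -((w * lap (ap S t) w : ℝ) : ℂ) := by
  have h5 := lap_sys (pw S) (c := ca S t) (c0 := 1 / 2) (by norm_num)
    (fun w hw => ca_summable E hw) hw
  have key : ∀ p : (pw S).X, ((ca S t p * ((pw S).N p : ℝ) ^ (-w) : ℝ) : ℂ) =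
      -((t p.1 (p.2 + 1) : ℂ) / (p.2 + 1) * xx S p.1 w ^ (p.2 + 1)) := by
    intro p
    rw [pw_N, pow_rpow, xx_real]
    unfold ca
    push_cast
    ring
  unfold ap
  rw [h5, Complex.ofReal_tsum, ← tsum_neg]
  exact (tsum_congr fun p => by rw [key p, neg_neg]).symm

/-- the data of the logarithm -/
theorem ap_dataU (E : TData S t D) {Φ : ℂ → ℂ} (hΦ : ∀ w : ℝ, 0 < w → AnalyticAt ℂ Φ w)
    (heq : ∀ w : ℝ, 1 / 2 < w → Φ w = Complex.exp (LL S t w)) :
    DataU 1 (ap S t) Φ (fun _ => 0) (1 / 2) where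
  meas := ap_meas
  c0_nonneg := by norm_num
  int := fun w hw => ap_LInt E hw
  loc := fun U => by
    obtain ⟨B, _, hB⟩ := loc_sys (pw S) (w := 1) zero_le_one (ca_summable E (by norm_num)) U
    exact ⟨B, fun u _ hu => hB u hu⟩
  hΦ := hΦ
  hG := fun z _ => differentiableAt_const _
  hGre := fun w _ => Complex.zero_im
  eq := fun w hw => by
    rw [heq w hw, LL_ap E hw, pow_one, lapC_ofReal]
    congr 1
    push_cast
    ring

/-- the basic identity between the two sums -/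
theorem ria_zp (k : ℕ) (u : ℝ) :
    ria (zp S t) k u = ((k : ℝ) + 1) * ria (ap S t) (k + 1) u - u * ria (ap S t) k u := by
  unfold zp ap
  rw [ria_stp, ria_stp, ria_stp, Finset.mul_sum, Finset.mul_sum, ← Finset.sum_sub_distrib]
  refine Finset.sum_congr rfl fun p _ => ?_
  rw [cz_eq, Nat.factorial_succ]
  have : (k.factorial : ℝ) ≠ 0 := by positivity
  have : ((k : ℝ) + 1) ≠ 0 := by positivity
  push_cast
  field_simp
  ring

end Pool.Agent.W263.MN
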