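import Pool.Agent.W263.MN.Core

/-! Tauberian and Abelian theorems for the von Mangoldt means. -/

set_option autoImplicit false

namespace Pool.Agent.W263.MN

open MeasureTheory Filter Topology Set Classical
open Pool.Agent.W263.BSD Pool.Agent.W263.EP

variable {f a z : ℝ → ℝ} {Φ : ℂ → ℂ} {c0 ρ : ℝ}

/-- majorants -/
noncomputable def maj (n : ℕ) (K L : ℝ) (u : ℝ) : ℝ := K * pk n u + L * ex (-1) u

theorem maj_meas (n : ℕ) (K L : ℝ) : Measurable (maj n K L) :=
  ((pk_meas n).const_mul K).add ((ex_meas (-1)).const_mul L)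

theorem maj_LInt (n : ℕ) (K L : ℝ) {w : ℝ} (hw : 0 < w) : LInt (maj n K L) w :=
  ((pk_LInt n hw).const_mul _).add ((ex_LInt (show (-1 : ℝ) < w by linarith)).const_mul _)

theorem maj_lap (n : ℕ) (K L : ℝ) {w : ℝ} (hw : 0 < w) :
    w ^ (n + 1) * lap (maj n K L) w = K + w ^ (n + 1) * (L * (1 / (w - -1))) := by
  unfold maj
  rw [lap_add ((pk_LInt n hw).const_mul _) ((ex_LInt (show (-1 : ℝ) < w by linarith)).const_mul _),
    lap_const_mul, lap_const_mul, ex_lap (show (-1 : ℝ) < w by linarith), pk_lap n hw]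
  have : w ≠ 0 := hw.ne'
  field_simp

theorem maj_small (n : ℕ) (L : ℝ) :
    Tendsto (fun w : ℝ => w ^ (n + 1) * (L * (1 / (w - -1)))) (𝓝[>] 0) (𝓝 0) := by
  have h : ContinuousAt (fun w : ℝ => w ^ (n + 1) * (L * (1 / (w - -1)))) 0 := by
    refine ContinuousAt.mul (by fun_prop) (ContinuousAt.mul (by fun_prop) ?_)
    exact ContinuousAt.div (by fun_prop) (by fun_prop) (by norm_num)
  have h1 := h.tendsto
  simp only [ne_eq, Nat.add_eq_zero_iff, one_ne_zero, and_false, not_false_eq_true, zero_pow,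
    zero_mul] at h1
  exact tendsto_nhdsWithin_of_tendsto_nhds h1

theorem maj_lap_lim (n : ℕ) (K L : ℝ) :
    Tendsto (fun w : ℝ => w ^ (n + 1) * lap (maj n K L) w) (𝓝[>] 0) (𝓝 K) := by
  have h := (maj_small n L).const_add K
  rw [add_zero] at h
  refine h.congr' ?_
  filter_upwards [self_mem_nhdsWithin] with w hw
  exact (maj_lap n K L hw).symm

theorem maj_intU (n : ℕ) (K L : ℝ) {u : ℝ} (hu : 0 ≤ u) :
    EP.intU (maj n K L) u = K * pk (n + 1) u + L * (1 - Real.exp (-u)) := by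
  have hex : IntegrableOn (ex (-1)) (Ioc 0 u) := by
    refine Continuous.integrableOn_Ioc ?_
    unfold ex
    fun_prop
  unfold EP.intU maj
  rw [integral_add ((pk_int n u).const_mul K) (hex.const_mul L),
    integral_const_mul, integral_const_mul]
  have e2 : ∫ v in Ioc 0 u, pk n v = pk (n + 1) u := pk_intU n hu
  have e3 : ∫ v in Ioc 0 u, ex (-1) v = 1 - Real.exp (-u) := by
    unfold ex
    rw [← intervalIntegral.integral_of_le hu,
      intervalIntegral.integral_comp_mul_left (fun x => Real.exp x) (by norm_num : (-1 : ℝ) ≠ 0),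
      integral_exp]
    simp
  rw [e2, e3]

theorem maj_lower (hl : Loc f) {n : ℕ} {K : ℝ} (h : ∀ᶠ u in atTop, -(K * pk n u) ≤ f u) :
    ∃ L : ℝ, 0 ≤ L ∧ ∀ u, 0 < u → -maj n K L u ≤ f u := lower_all hl h

theorem maj_upper (hl : Loc f) {n : ℕ} {K : ℝ} (h : ∀ᶠ u in atTop, f u ≤ K * pk n u) :
    ∃ L : ℝ, 0 ≤ L ∧ ∀ u, 0 < u → f u ≤ maj n K L u := upper_all hl h

theorem lap_neg (f : ℝ → ℝ) (w : ℝ) : lap (fun u => -f u) w = -lap f w := by
  have := lap_const_mul (f := f) (w := w) (-1)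
  simp only [neg_mul, one_mul] at this
  exact this

/-- the limit of the transform against a lower bound -/
theorem lap_lower_limit (hl : Loc f) (hi : ∀ w > 0, LInt f w) {n : ℕ} {K ℓ : ℝ}
    (h : ∀ᶠ u in atTop, -(K * pk n u) ≤ f u)
    (hlim : Tendsto (fun w : ℝ => w ^ (n + 1) * lap f w) (𝓝[>] 0) (𝓝 ℓ)) : -K ≤ ℓ := by
  obtain ⟨L, hL, h1⟩ := maj_lower hl h
  refine le_of_tendsto_of_tendsto (maj_lap_lim n K L).neg hlim ?_
  filter_upwards [self_mem_nhdsWithin] with w hw
  have hw' : (0 : ℝ) < w := hw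
  have h2 := lap_mono (maj_LInt n K L hw').neg (hi w hw') h1
  rw [lap_neg] at h2
  have h3 := mul_le_mul_of_nonneg_left h2 (pow_pos hw' (n + 1)).le
  linarith

/-- Karamata's theorem under a one-sided bound -/
theorem kar_lower (hf : Measurable f) (hl : Loc f) (hi : ∀ w > 0, LInt f w) {n : ℕ} {K ℓ : ℝ}
    (h : ∀ᶠ u in atTop, -(K * pk n u) ≤ f u)
    (hlim : Tendsto (fun w : ℝ => w ^ (n + 1) * lap f w) (𝓝[>] 0) (𝓝 ℓ)) :
    Tendsto (fun u : ℝ => EP.intU f u / pk (n + 1) u) atTop (𝓝 ℓ) := by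
  obtain ⟨L, hL, h1⟩ := maj_lower hl h
  have hb : Measurable fun u => f u + maj n K L u := hf.add (maj_meas n K L)
  have hbi : ∀ w > 0, LInt (fun u => f u + maj n K L u) w :=
    fun w hw => (hi w hw).add (maj_LInt n K L hw)
  have hk := karamata_pow n hb (fun u hu => by have := h1 u hu; linarith) hbi (c := ℓ + K) (by
    refine (hlim.add (maj_lap_lim n K L)).congr' ?_
    filter_upwards [self_mem_nhdsWithin] with w hw
    have hw' : (0 : ℝ) < w := hw
    rw [lap_add (hi w hw') (maj_LInt n K L hw')]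
    ring)
  have hm : Tendsto (fun u : ℝ => K + L * (1 - Real.exp (-u)) / pk (n + 1) u) atTop (𝓝 (K + 0)) := by
    refine Tendsto.const_add K ?_
    have e1 : Tendsto (fun u : ℝ => L * (1 - Real.exp (-u))) atTop (𝓝 (L * (1 - 0))) := by
      refine Tendsto.const_mul L (Tendsto.const_sub 1 ?_)
      exact Real.tendsto_exp_atBot.comp tendsto_neg_atTop_atBot
    exact e1.div_atTop (pk_atTop n)
  have hk2 := hk.sub hm
  rw [add_zero, add_sub_cancel_right] at hk2
  refine hk2.congr' ?_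
  filter_upwards [eventually_gt_atTop 0] with u hu
  have hpk : pk (n + 1) u ≠ 0 := by unfold pk; positivity
  have e1 : ∫ v in Ioc 0 u, (f v + maj n K L v) =
      EP.intU f u + (K * pk (n + 1) u + L * (1 - Real.exp (-u))) := by
    rw [← maj_intU n K L hu.le]
    unfold EP.intU
    refine integral_add (hl.integrableOn hf u) ?_
    have hex : IntegrableOn (ex (-1)) (Ioc 0 u) := by
      refine Continuous.integrableOn_Ioc ?_
      unfold ex
      fun_prop
    exact ((pk_int n u).const_mul K).add (hex.const_mul L)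
  rw [e1]
  field_simp
  ring

/-- Abelian theorem for powers -/
theorem abel_pow (hf : Measurable f) (hl : Loc f) {n : ℕ} {ℓ : ℝ}
    (h : Tendsto (fun u => f u / pk n u) atTop (𝓝 ℓ)) :
    (∀ w > 0, LInt f w) ∧
      Tendsto (fun w : ℝ => w ^ (n + 1) * lap f w) (𝓝[>] 0) (𝓝 ℓ) := by
  have key : ∀ ε : ℝ, 0 < ε → (∀ᶠ u in atTop, -((ε - ℓ) * pk n u) ≤ f u) ∧
      ∀ᶠ u in atTop, f u ≤ (ℓ + ε) * pk n u := by
    intro ε hε
    have h1 := tendsto_order.mp h
    constructor
    · filter_upwards [h1.1 (ℓ - ε) (by linarith), eventually_gt_atTop 0] with u h2 hu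
      have hpk : 0 < pk n u := by unfold pk; positivity
      rw [lt_div_iff₀ hpk] at h2
      linarith
    · filter_upwards [h1.2 (ℓ + ε) (by linarith), eventually_gt_atTop 0] with u h2 hu
      have hpk : 0 < pk n u := by unfold pk; positivity
      rw [div_lt_iff₀ hpk] at h2
      linarith
  have hconv : ∀ w > 0, LInt f w := by
    intro w hw
    obtain ⟨k1, k2⟩ := key 1 one_pos
    obtain ⟨L1, hL1, h1⟩ := maj_lower hl k1
    obtain ⟨L2, hL2, h2⟩ := maj_upper hl k2
    refine LInt.of_bound hf (maj_LInt n (|1 - ℓ| + |ℓ + 1|) (L1 + L2) hw) fun u hu => ?_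
    have h3 := h1 u hu
    have h4 := h2 u hu
    have hpk := pk_nonneg n hu.le
    have hex : 0 < ex (-1) u := by unfold ex; positivity
    unfold maj at h3 h4 ⊢
    have e1 := mul_le_mul_of_nonneg_right (le_abs_self (1 - ℓ)) hpk
    have e2 := mul_le_mul_of_nonneg_right (le_abs_self (ℓ + 1)) hpk
    have e3 := mul_nonneg (abs_nonneg (1 - ℓ)) hpk
    have e4 := mul_nonneg (abs_nonneg (ℓ + 1)) hpk
    have e5 := mul_nonneg hL1 hex.le
    have e6 := mul_nonneg hL2 hex.le
    rw [abs_le]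
    constructor <;> linarith
  refine ⟨hconv, tendsto_order.mpr ⟨fun l hlt => ?_, fun m hm => ?_⟩⟩
  · obtain ⟨k1, _⟩ := key ((ℓ - l) / 2) (by linarith)
    obtain ⟨L1, hL1, h1⟩ := maj_lower hl k1
    have h5 := (maj_lap_lim n ((ℓ - l) / 2 - ℓ) L1).neg.eventually
      (lt_mem_nhds (show l < -((ℓ - l) / 2 - ℓ) by linarith))
    filter_upwards [h5, self_mem_nhdsWithin] with w h6 hw
    have hw' : (0 : ℝ) < w := hw
    have h2 := lap_mono (maj_LInt n _ L1 hw').neg (hconv w hw') h1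
    rw [lap_neg] at h2
    have h3 := mul_le_mul_of_nonneg_left h2 (pow_pos hw' (n + 1)).le
    linarith
  · obtain ⟨_, k2⟩ := key ((m - ℓ) / 2) (by linarith)
    obtain ⟨L2, hL2, h1⟩ := maj_upper hl k2
    have h5 := (maj_lap_lim n (ℓ + (m - ℓ) / 2) L2).eventually
      (gt_mem_nhds (show ℓ + (m - ℓ) / 2 < m by linarith))
    filter_upwards [h5, self_mem_nhdsWithin] with w h6 hw
    have hw' : (0 : ℝ) < w := hw
    have h2 := lap_mono (hconv w hw') (maj_LInt n _ L2 hw') h1
    have h3 := mul_le_mul_of_nonneg_left h2 (pow_pos hw' (n + 1)).le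
    linarith

/-- integration of lower bounds, arbitrarily small loss -/
theorem int_lower' (hf : Measurable f) (hl : Loc f) {n : ℕ} {K K' : ℝ} (hK : K < K')
    (h : ∀ᶠ u in atTop, -(K * pk n u) ≤ f u) :
    ∀ᶠ u in atTop, -(K' * pk (n + 1) u) ≤ EP.intU f u := by
  obtain ⟨L, hL, h1⟩ := maj_lower hl h
  filter_upwards [eventually_gt_atTop 0,
    (pk_atTop n).eventually (eventually_ge_atTop (L / (K' - K)))] with u hu h2
  have hK' : 0 < K' - K := by linarith
  rw [div_le_iff₀ hK'] at h2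
  have h3 := intU_mono (u := u) (g := fun v => -maj n K L v) ?_ (hl.integrableOn hf u) h1
  · have e1 := intU_neg (maj n K L) u
    rw [e1, maj_intU n K L hu.le] at h3
    have h4 := Real.exp_pos (-u)
    have h5 : L * (1 - Real.exp (-u)) ≤ L := by nlinarith
    linarith
  · have hex : IntegrableOn (ex (-1)) (Ioc 0 u) := by
      refine Continuous.integrableOn_Ioc ?_
      unfold ex
      fun_prop
    exact (((pk_int n u).const_mul K).add (hex.const_mul L)).neg

theorem ria_lower' (hf : Measurable f) (hl : Loc f) {n : ℕ} {K K' : ℝ} (hK : K < K')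
    (h : ∀ᶠ u in atTop, -(K * pk n u) ≤ f u) (j : ℕ) :
    ∀ᶠ u in atTop, -(K' * pk (n + j) u) ≤ EP.ria f j u := by
  induction j generalizing K' with
  | zero =>
    filter_upwards [h, eventually_ge_atTop 0] with u hu h0
    have h1 := mul_le_mul_of_nonneg_right hK.le (pk_nonneg n h0)
    show -(K' * pk n u) ≤ f u
    linarith
  | succ j ih =>
    obtain ⟨K'', h1, h2⟩ := exists_between hK
    exact int_lower' (ria_meas hf j) (hl.ria j) h2 (ih h1)

/-- convergence of the transforms from a lower bound -/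
theorem Pair.conv_of_lower (P : Pair a z) (D : DataU 1 a Φ (fun _ => 0) c0) {k : ℕ} {K : ℝ}
    (h : ∀ᶠ u in atTop, -(K * pk (k + 1) u) ≤ EP.ria z k u) :
    ∀ w > 0, LInt (EP.ria a (k + 2)) w := by
  obtain ⟨K', h1⟩ := P.upper h
  refine (D.ria (k + 2)).conv_of_upper fun ε hε => ?_
  filter_upwards [h1, pk_log_le (k + 2) K' hε] with u h1 h2 using h1.trans h2

/-- **the Tauberian theorem for von Mangoldt means** -/
theorem Pair.tauber (P : Pair a z) (D : DataU 1 a Φ (fun _ => 0) c0) (hO : LO Φ ρ) {k : ℕ} {K : ℝ}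
    (h : ∀ᶠ u in atTop, -(K * pk (k + 1) u) ≤ EP.ria z k u) :
    Tendsto (fun u => EP.ria z (k + 3) u / pk (k + 4) u) atTop (𝓝 (-ρ)) := by
  have hconv := P.conv_of_lower D h
  have h1 := (P.LO_iff D hconv).mp hO
  have h2 : ∀ᶠ u in atTop, -((K + 1) * pk (k + 2 + 1) u) ≤ EP.ria z (k + 2) u :=
    ria_lower' (ria_meas P.zm k) (P.zl.ria k) (show K < K + 1 by linarith) h 2
  exact kar_lower (ria_meas P.zm (k + 2)) (P.zl.ria (k + 2)) (P.z_LInt hconv) h2 h1

/-- a lower bound bounds the order -/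
theorem Pair.le_of_lower (P : Pair a z) (D : DataU 1 a Φ (fun _ => 0) c0) (hO : LO Φ ρ) {k : ℕ}
    {σ : ℝ} (h : ∀ᶠ u in atTop, -(σ * pk (k + 1) u) ≤ EP.ria z k u) : ρ ≤ σ := by
  have hconv := P.conv_of_lower D h
  have h1 := (P.LO_iff D hconv).mp hO
  refine le_of_forall_pos_le_add fun ε hε => ?_
  have h2 : ∀ᶠ u in atTop, -((σ + ε) * pk (k + 2 + 1) u) ≤ EP.ria z (k + 2) u :=
    ria_lower' (ria_meas P.zm k) (P.zl.ria k) (show σ < σ + ε by linarith) h 2
  have h3 := lap_lower_limit (P.zl.ria (k + 2)) (P.z_LInt hconv) h2 h1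
  linarith

/-- the Abelian direction -/
theorem Pair.abel (P : Pair a z) {k : ℕ}
    (h : Tendsto (fun u => EP.ria z k u / pk (k + 1) u) atTop (𝓝 (-ρ))) :
    (∀ w > 0, LInt (EP.ria a (k + 2)) w) ∧
      Tendsto (fun w : ℝ => w ^ (k + 2 + 1 + 1) * lap (EP.ria z (k + 2)) w) (𝓝[>] 0) (𝓝 (-ρ)) := by
  obtain ⟨hz, h1⟩ := abel_pow (ria_meas P.zm k) (P.zl.ria k) h
  have h2 := tendsto_order.mp h
  have hlow : ∀ᶠ u in atTop, -((ρ + 1) * pk (k + 1) u) ≤ EP.ria z k u := by
    filter_upwards [h2.1 (-ρ - 1) (by linarith), eventually_gt_atTop 0] with u h3 hu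
    have hpk : 0 < pk (k + 1) u := by unfold pk; positivity
    rw [lt_div_iff₀ hpk] at h3
    linarith
  have hup : ∀ᶠ u in atTop, -((1 - ρ) * pk (k + 1) u) ≤ EP.ria (fun u => -z u) k u := by
    have e : ∀ k, EP.ria (fun u => -z u) k = fun u => -EP.ria z k u := by
      intro k
      induction k with
      | zero => rfl
      | succ k ih =>
        funext u
        show EP.intU (EP.ria (fun u => -z u) k) u = -EP.intU (EP.ria z k) u
        rw [ih, intU_neg]
    rw [e]
    filter_upwards [h2.2 (-ρ + 1) (by linarith), eventually_gt_atTop 0] with u h3 hu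
    have hpk : 0 < pk (k + 1) u := by unfold pk; positivity
    rw [div_lt_iff₀ hpk] at h3
    linarith
  have ea : ∀ k, EP.ria (fun u => -a u) k = fun u => -EP.ria a k u := by
    intro k
    induction k with
    | zero => rfl
    | succ k ih =>
      funext u
      show EP.intU (EP.ria (fun u => -a u) k) u = -EP.intU (EP.ria a k) u
      rw [ih, intU_neg]
  obtain ⟨K1, h3⟩ := P.upper hlow
  obtain ⟨K2, h4⟩ := P.neg.upper hup
  rw [ea] at h4
  have hb : ∀ K : ℝ, ∀ u : ℝ, 1 ≤ u → K * (pk (k + 2) u * Real.log u) ≤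
      |K| * ((k + 3) * pk (k + 3) u) := by
    intro K u hu
    have e1 : pk (k + 2) u * Real.log u ≤ (k + 3) * pk (k + 3) u := by
      have e2 : (k + 3 : ℝ) * pk (k + 3) u = pk (k + 2) u * u := by
        unfold pk
        rw [show k + 3 = (k + 2) + 1 by ring, Nat.factorial_succ]
        have : ((k + 2).factorial : ℝ) ≠ 0 := by positivity
        push_cast
        have : (k : ℝ) + 2 + 1 ≠ 0 := by positivity
        field_simp
        ring
      rw [e2]
      have e3 := Real.log_le_sub_one_of_pos (show 0 < u by linarith)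
      exact mul_le_mul_of_nonneg_left (by linarith) (pk_nonneg _ (by linarith))
    have e4 : 0 ≤ pk (k + 2) u * Real.log u :=
      mul_nonneg (pk_nonneg _ (by linarith)) (Real.log_nonneg hu)
    exact mul_le_mul (le_abs_self K) e1 e4 (abs_nonneg K)
  have hu1 : ∀ᶠ u in atTop, EP.ria a (k + 2) u ≤ (|K1| * (k + 3)) * pk (k + 3) u := by
    filter_upwards [h3, eventually_ge_atTop 1] with u h5 hu
    have := hb K1 u hu
    linarith
  have hu2 : ∀ᶠ u in atTop, -((|K2| * (k + 3)) * pk (k + 3) u) ≤ EP.ria a (k + 2) u := by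
    filter_upwards [h4, eventually_ge_atTop 1] with u h5 hu
    have := hb K2 u hu
    linarith
  have hconv : ∀ w > 0, LInt (EP.ria a (k + 2)) w := by
    intro w hw
    obtain ⟨L1, hL1, h1⟩ := maj_lower (P.al.ria (k + 2)) hu2
    obtain ⟨L2, hL2, h2⟩ := maj_upper (P.al.ria (k + 2)) hu1
    refine LInt.of_bound (ria_meas P.am (k + 2))
      ((maj_LInt (k + 3) (|K2| * (k + 3)) L1 hw).add (maj_LInt (k + 3) (|K1| * (k + 3)) L2 hw))
      fun u hu => ?_
    have h3 := h1 u hu
    have h4 := h2 u hu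
    have e1 : 0 ≤ maj (k + 3) (|K2| * (k + 3)) L1 u := by
      have := pk_nonneg (k + 3) hu.le
      unfold maj ex; positivity
    have e2 : 0 ≤ maj (k + 3) (|K1| * (k + 3)) L2 u := by
      have := pk_nonneg (k + 3) hu.le
      unfold maj ex; positivity
    rw [abs_le]
    constructor <;> linarith
  refine ⟨hconv, h1.congr' ?_⟩
  filter_upwards [self_mem_nhdsWithin] with w hw
  have hw' : (0 : ℝ) < w := hw
  obtain ⟨i1, l1⟩ := lap_intU (ria_meas P.zm k) hw' (hz w hw')
  obtain ⟨i2, l2⟩ := lap_intU (ria_meas P.zm (k + 1)) hw' i1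
  have e1 : lap (EP.ria z (k + 2)) w = lap (EP.ria z k) w / w / w := by
    rw [← l1]; exact l2
  rw [e1]
  field_simp
  ring

/-- the inverse function -/
theorem LO.inv (h : LO Φ ρ) (hΦ : ∀ w : ℝ, 0 < w → AnalyticAt ℂ Φ w)
    (hne : ∀ w : ℝ, 0 < w → Φ w ≠ 0) : LO (fun s => (Φ s)⁻¹) (-ρ) := by
  have h1 := h.neg
  unfold LO
  rw [Complex.ofReal_neg]
  refine h1.congr' ?_
  filter_upwards [self_mem_nhdsWithin] with w hw
  have hw' : (0 : ℝ) < w := hw
  have hn := hne w hw'
  rw [deriv_fun_inv'' (hΦ w hw').differentiableAt hn]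
  field_simp

theorem neg_data (D : DataU 1 a Φ (fun _ => 0) c0) (hne : ∀ w : ℝ, 0 < w → Φ w ≠ 0) :
    DataU 1 (fun u => -a u) (fun s => (Φ s)⁻¹) (fun _ => 0) c0 := by
  have h := D.neg hne
  simp only [neg_zero] at h
  exact h

theorem ria_neg' (f : ℝ → ℝ) (k : ℕ) : EP.ria (fun u => -f u) k = fun u => -EP.ria f k u := by
  induction k with
  | zero => rfl
  | succ k ih =>
    funext u
    show EP.intU (EP.ria (fun u => -f u) k) u = -EP.intU (EP.ria f k) u
    rw [ih, intU_neg]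

/-- the Tauberian theorem from an upper bound, without positive zeros -/
theorem Pair.tauber_upper (P : Pair a z) (D : DataU 1 a Φ (fun _ => 0) c0) (hO : LO Φ ρ)
    (hne : ∀ w : ℝ, 0 < w → Φ w ≠ 0) {k : ℕ} {K : ℝ}
    (h : ∀ᶠ u in atTop, EP.ria z k u ≤ K * pk (k + 1) u) :
    Tendsto (fun u => EP.ria z (k + 3) u / pk (k + 4) u) atTop (𝓝 (-ρ)) := by
  have h1 := P.neg.tauber (neg_data D hne) (hO.inv D.hΦ hne) (k := k) (K := K) (by
    rw [ria_neg']
    filter_upwards [h] with u hu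
    linarith)
  rw [ria_neg'] at h1
  have h2 := h1.neg
  rw [neg_neg] at h2
  refine h2.congr fun u => ?_
  ring

theorem Pair.ge_of_upper (P : Pair a z) (D : DataU 1 a Φ (fun _ => 0) c0) (hO : LO Φ ρ)
    (hne : ∀ w : ℝ, 0 < w → Φ w ≠ 0) {k : ℕ} {σ : ℝ}
    (h : ∀ᶠ u in atTop, EP.ria z k u ≤ -(σ * pk (k + 1) u)) : σ ≤ ρ := by
  have h1 := P.neg.le_of_lower (neg_data D hne) (hO.inv D.hΦ hne) (k := k) (σ := -σ) (by
    rw [ria_neg']
    filter_upwards [h] with u hu
    linarith)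
  linarith

end Pool.Agent.W263.MN
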